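import Pool.Agent.LibU44.LT
import Pool.Agent.LibT44.H3

namespace U44
open T44

/-- pairs with `a = 0` -/
theorem ab_zero {H : ℕ} (S : Finset (ℤ × ℤ)) (hS : ∀ w ∈ S, w.1 = 0 ∧ |w.2| ≤ (H : ℤ) ^ 3) :
    S.card ≤ 2 * H ^ 3 + 1 := by
  have h1 : S.card ≤ (Finset.Icc (-((H : ℤ) ^ 3)) ((H : ℤ) ^ 3)).card := by
    apply Finset.card_le_card_of_injOn (fun w => w.2)
    · intro w hw
      have h2 := (hS w hw).2
      rw [abs_le] at h2
      simp only [Finset.coe_Icc, Set.mem_Icc]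
      exact h2
    · intro w hw w' hw' he
      exact Prod.ext ((hS w hw).1.trans (hS w' hw').1.symm) he
  rw [Int.card_Icc] at h1
  have h2 : ((H : ℤ) ^ 3 + 1 - -((H : ℤ) ^ 3)).toNat = 2 * H ^ 3 + 1 := by
    have h3 : ((H : ℤ) ^ 3 + 1 - -((H : ℤ) ^ 3)) = ((2 * H ^ 3 + 1 : ℕ) : ℤ) := by
      push_cast
      ring
    rw [h3, Int.toNat_natCast]
  rw [h2] at h1
  exact h1

/-- Row AB. As `T44.ab_count` (copy its proof), without the range: pairs with `w.1 = 0` are at most `2H³ + 1`; for the others `large_all` instead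
of `T44.large_total`. -/
theorem ab_all : ∃ C : ℝ, 0 < C ∧ ∀ H : ℕ, 1 ≤ H → ∀ S : Finset (ℤ × ℤ),
    (∀ w ∈ S, |w.1| ≤ (H : ℤ) ∧ |w.2| ≤ (H : ℤ) ^ 3 ∧ w.2 ≠ 0 ∧ w.1 ^ 3 ≠ 27 * w.2 ∧
      ∃ x y : ℤ, x ≠ 0 ∧ y * (y + w.1 * x + w.2) = x ^ 3) →
    (S.card : ℝ) ≤ C * (H : ℝ) ^ (37 / 10 : ℝ) := by
  classical
  obtain ⟨C₁, hC₁, h₁⟩ := small_count
  obtain ⟨C₂, hC₂, h₂⟩ := mid_total
  obtain ⟨C₃, hC₃, h₃⟩ := large_all
  refine ⟨C₁ + 2 * C₂ + 2 * C₃ + 3, by positivity, fun H hH S hS => ?_⟩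
  have hH1 : (1 : ℝ) ≤ H := by exact_mod_cast hH
  set P0 : ℤ × ℤ → Prop := fun z => ∃ x y : ℤ, x ≠ 0 ∧
      |x| ≤ 36 * (H : ℤ) ^ 3 ∧ y * (y + z.1 * x + z.2) = x ^ 3 with hP0
  set Pm : ℤ × ℤ → Prop := fun w => ∃ (α β : ℕ) (p q : ℝ) (z : ℤ × ℤ × ℤ), Cl α β p q ∧
      Sol H α β z ∧ z.1 = w.1 ∧
      w.2 = (α : ℤ) * β * F α β z ∧ 0 < sS p q z ∧ sS p q z < 10 ^ 7 * (H : ℝ) ^ 20 with hPm
  set Pl : ℤ × ℤ → Prop := fun w => w.1 ≠ 0 ∧ ∃ (α β : ℕ) (p q : ℝ) (z : ℤ × ℤ × ℤ), Cl α β p q ∧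
      Sol H α β z ∧ z.1 = w.1 ∧
      w.2 = (α : ℤ) * β * F α β z ∧ 10 ^ 7 * (H : ℝ) ^ 20 ≤ sS p q z with hPl
  have hcov : S ⊆ (((((S.filter P0 ∪ S.filter Pm) ∪ S.filter Pl) ∪ S.filter fun w => Pm (-w)) ∪
      S.filter fun w => Pl (-w)) ∪ S.filter fun w => w.1 = 0) := by
    intro w hw
    obtain ⟨ha, hb, hb0, hab, x, y, hx0, hxy⟩ := hS w hw
    simp only [Finset.mem_union, Finset.mem_filter]
    by_cases hw0 : w.1 = 0
    · right
      exact ⟨hw, hw0⟩
    left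
    by_cases hsm : |x| ≤ 36 * (H : ℤ) ^ 3
    · left; left; left; left
      exact ⟨hw, x, y, hx0, hsm, hxy⟩
    rw [not_le] at hsm
    obtain ⟨α, β, u, v, hα, hβ, sα, sβ, cop, hu, hv, hxe, hbe⟩ := descent w.1 w.2 x y hx0 hxy
    set z : ℤ × ℤ × ℤ := (w.1, u, v) with hz
    have hαβ : (0 : ℤ) < (α : ℤ) * β := by
      have h1 : (0 : ℤ) < α := by exact_mod_cast hα
      have h2 : (0 : ℤ) < β := by exact_mod_cast hβ
      exact mul_pos h1 h2
    have hF0 : F α β z ≠ 0 := by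
      intro h0
      apply hb0
      rw [hbe, h0, mul_zero]
    have hsol : Sol H α β z := by
      refine ⟨ha, hF0, ?_, ?_, ?_⟩
      · rw [hbe, abs_mul, abs_of_pos hαβ] at hb
        exact hb
      · show w.1 ^ 3 ≠ 27 * ((α : ℤ) * β * F α β z)
        rw [← hbe]
        exact hab
      · show 36 * (H : ℤ) ^ 3 < |(α : ℤ) * β * u * v|
        rw [← hxe]
        exact hsm
    have hne : 1 < α * β := by
      rcases Nat.lt_or_ge 1 (α * β) with h1 | h1
      · exact h1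
      · exfalso
        have h2 : α * β = 1 := le_antisymm h1 (Nat.mul_pos hα hβ)
        have hα1 : α = 1 := Nat.eq_one_of_mul_eq_one_right h2
        have hβ1 : β = 1 := Nat.eq_one_of_mul_eq_one_left h2
        subst hα1
        subst hβ1
        exact class_one hH z hsol
    obtain ⟨p, q, hcl⟩ := cl_exists α β hα hβ sα sβ cop hne
    obtain ⟨e1, -, -, -, -, e2⟩ := size hcl hH z hsol
    have hH3 : (1 : ℝ) ≤ (H : ℝ) ^ 3 := one_le_pow₀ hH1
    have hS2 : 144 ≤ sS p q z ^ 2 := by linarith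
    have hxz : ((α : ℤ) * β * z.2.1 * z.2.2 : ℤ) = x := hxe.symm
    rcases lt_trichotomy (sS p q z) 0 with hneg | hzero | hpos
    · -- negative
      obtain ⟨hsol', hF', hSn⟩ := sol_neg z hsol
      have hb' : (-w).2 = (α : ℤ) * β * F α β (-z) := by
        rw [hF', Prod.snd_neg, hbe]
        ring
      have ha' : (-z).1 = (-w).1 := by
        rw [Prod.fst_neg, Prod.fst_neg]
      by_cases hcase : sS p q (-z) < 10 ^ 7 * (H : ℝ) ^ 20
      · left; right
        refine ⟨hw, α, β, p, q, -z, hcl, hsol', ha', hb', ?_, hcase⟩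
        rw [hSn]
        linarith
      · right
        refine ⟨hw, ?_, α, β, p, q, -z, hcl, hsol', ha', hb', not_lt.1 hcase⟩
        rw [Prod.fst_neg]
        exact neg_ne_zero.2 hw0
    · exfalso
      rw [hzero] at hS2
      norm_num at hS2
    · by_cases hcase : sS p q z < 10 ^ 7 * (H : ℝ) ^ 20
      · left; left; left; right
        exact ⟨hw, α, β, p, q, z, hcl, hsol, rfl, hbe, hpos, hcase⟩
      · left; left; right
        exact ⟨hw, hw0, α, β, p, q, z, hcl, hsol, rfl, hbe, not_lt.1 hcase⟩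
  have c0 : ((S.filter P0).card : ℝ) ≤ C₁ * (H : ℝ) ^ (37 / 10 : ℝ) := by
    refine (h₁ H hH (S.filter P0) ?_).trans ?_
    · intro w hw
      rw [Finset.mem_filter] at hw
      obtain ⟨ha, hb, -⟩ := hS w hw.1
      exact ⟨ha, hb, hw.2⟩
    · apply mul_le_mul_of_nonneg_left _ hC₁.le
      exact Real.rpow_le_rpow_of_exponent_le hH1 (by norm_num)
  have c1 : ((S.filter Pm).card : ℝ) ≤ C₂ * (H : ℝ) ^ (37 / 10 : ℝ) :=
    h₂ H hH _ fun w hw => (Finset.mem_filter.1 hw).2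
  have c2 : ((S.filter Pl).card : ℝ) ≤ C₃ * (H : ℝ) ^ (37 / 10 : ℝ) :=
    h₃ H hH _ fun w hw => (Finset.mem_filter.1 hw).2
  have c3 : ((S.filter fun w => Pm (-w)).card : ℝ) ≤ C₂ * (H : ℝ) ^ (37 / 10 : ℝ) := by
    have h4 : ((S.filter fun w => Pm (-w)).image fun w => -w).card =
        (S.filter fun w => Pm (-w)).card :=
      Finset.card_image_of_injective _ neg_injective
    rw [← h4]
    refine h₂ H hH _ fun w hw => ?_
    rw [Finset.mem_image] at hw
    obtain ⟨w', hw', rfl⟩ := hw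
    exact (Finset.mem_filter.1 hw').2
  have c4 : ((S.filter fun w => Pl (-w)).card : ℝ) ≤ C₃ * (H : ℝ) ^ (37 / 10 : ℝ) := by
    have h4 : ((S.filter fun w => Pl (-w)).image fun w => -w).card =
        (S.filter fun w => Pl (-w)).card :=
      Finset.card_image_of_injective _ neg_injective
    rw [← h4]
    refine h₃ H hH _ fun w hw => ?_
    rw [Finset.mem_image] at hw
    obtain ⟨w', hw', rfl⟩ := hw
    exact (Finset.mem_filter.1 hw').2
  have c5 : ((S.filter fun w => w.1 = 0).card : ℝ) ≤ 3 * (H : ℝ) ^ (37 / 10 : ℝ) := by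
    have h4 := ab_zero (H := H) (S.filter fun w => w.1 = 0) (by
      intro w hw
      rw [Finset.mem_filter] at hw
      exact ⟨hw.2, (hS w hw.1).2.1⟩)
    have h5 : ((S.filter fun w => w.1 = 0).card : ℝ) ≤ 2 * (H : ℝ) ^ 3 + 1 := by exact_mod_cast h4
    have h6 : (1 : ℝ) ≤ (H : ℝ) ^ 3 := one_le_pow₀ hH1
    have h7 : (H : ℝ) ^ 3 ≤ (H : ℝ) ^ (37 / 10 : ℝ) := by
      rw [← Real.rpow_natCast]
      exact Real.rpow_le_rpow_of_exponent_le hH1 (by norm_num)
    linarith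
  have hcard : S.card ≤ (S.filter P0).card + (S.filter Pm).card + (S.filter Pl).card +
      (S.filter fun w => Pm (-w)).card + (S.filter fun w => Pl (-w)).card +
      (S.filter fun w => w.1 = 0).card := by
    refine (Finset.card_le_card hcov).trans ?_
    refine (Finset.card_union_le _ _).trans (Nat.add_le_add_right ?_ _)
    refine (Finset.card_union_le _ _).trans (Nat.add_le_add_right ?_ _)
    refine (Finset.card_union_le _ _).trans (Nat.add_le_add_right ?_ _)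
    refine (Finset.card_union_le _ _).trans (Nat.add_le_add_right ?_ _)
    exact Finset.card_union_le _ _
  have hcard' : (S.card : ℝ) ≤ (S.filter P0).card + (S.filter Pm).card + (S.filter Pl).card +
      (S.filter fun w => Pm (-w)).card + (S.filter fun w => Pl (-w)).card +
      (S.filter fun w => w.1 = 0).card := by
    exact_mod_cast hcard
  linarith

end U44
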