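import Pool.Agent.LibU44.Z1

namespace U44
open T44

private theorem ev_term (d j k : ℕ) (hk : k < 3) (hjk : j + k ≤ d) (u P Q b A w E : ℂ)
    (hP : P ≠ 0) (hQ : Q ≠ 0) (h : P ^ 2 = b * Q) :
    u ^ (d - k - j) * (9 * A * (u * P) * w) ^ j * ((u * P) * E / Q) ^ k =
      (u * P) ^ d / P ^ (d + 2) * ((9 * A) ^ j * b ^ k * P ^ (j + 2 - k) * (w ^ j * E ^ k)) := by
  have hb : b = P ^ 2 / Q := by rw [h]; field_simp
  obtain ⟨e, rfl⟩ : ∃ e, d = j + k + e := ⟨d - (j + k), by omega⟩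
  have he : j + k + e - k - j = e := by omega
  rw [he, hb]
  have h1 : (u * P) ^ (j + k + e) / P ^ (j + k + e + 2) = u ^ (j + k + e) / P ^ 2 := by
    rw [mul_pow, pow_add P (j + k + e) 2]
    field_simp
  rw [h1]
  interval_cases k
  · simp only [Nat.sub_zero, pow_zero, mul_one, Nat.add_zero]
    simp only [mul_pow, pow_add]
    field_simp
  · have h2 : j + 2 - 1 = j + 1 := by omega
    rw [h2]
    simp only [mul_pow, pow_add, pow_one]
    field_simp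
  · have h2 : j + 2 - 2 = j := by omega
    rw [h2]
    simp only [mul_pow, pow_add]
    field_simp

/-- Row EV. `u₁ = W₁/p`, `v = W₁E/q`, `q = p²/β`, `a = 9AW₁ω`: `a^j u₁^(d-k-j) v^k = W₁^d (9Aω)^j E^k β^k p^(j+2-k)/p^(d+2)` for `j + k ≤ d`. -/
theorem Pol_eval {D α β : ℕ} {p q : ℝ} (h : Cl α β p q) (A u₁ : ℤ) (E : PowerSeries ℤ)
    (c : ℕ → ℕ → ℕ → ℤ) (h0 : ∀ m k j, 20 * D < j + k → c m k j = 0) (w : ℕ → ℤ) (ω : ℂ) :
    MvPolynomial.aeval ![9 * (A : ℂ) * (((u₁ : ℝ) * p : ℝ) : ℂ) * ω,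
      (((u₁ : ℝ) * p : ℝ) : ℂ) * eta E ω / (q : ℂ)] (Pol (20 * D) u₁ c w) =
    ((((u₁ : ℝ) * p) ^ (20 * D) / p ^ (20 * D + 2) : ℝ) : ℂ) *
      ∑ m ∈ Finset.range 3, (w m : ℂ) * Yf (20 * D) A β p E (c m) ω := by
  obtain ⟨_, _, _, _, _, _, hp, hq, hpq, _, _⟩ := h
  have hP : (p : ℂ) ≠ 0 := by exact_mod_cast hp.ne'
  have hQ : (q : ℂ) ≠ 0 := by exact_mod_cast hq.ne'
  have hPQ : (p : ℂ) ^ 2 = (β : ℂ) * (q : ℂ) := by exact_mod_cast hpq
  simp only [Pol, Yf, map_sum, map_mul, map_pow, Finset.mul_sum]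
  refine Finset.sum_congr rfl fun m _ => Finset.sum_congr rfl fun k hk =>
    Finset.sum_congr rfl fun j _ => ?_
  have hk3 : k < 3 := Finset.mem_range.1 hk
  by_cases hjk : j + k ≤ 20 * D
  · have key := ev_term (20 * D) j k hk3 hjk (u₁ : ℂ) (p : ℂ) (q : ℂ) (β : ℂ) (A : ℂ) ω
      (eta E ω) hP hQ hPQ
    simp only [MvPolynomial.aeval_X, Matrix.cons_val_zero,
      Matrix.cons_val_one, eq_intCast, map_intCast]
    push_cast
    linear_combination (w m : ℂ) * (c m k j : ℂ) * key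
  · rw [h0 m k j (by omega)]
    simp

end U44
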