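import Pool.Agent.LibU44.LB2

namespace U44

private theorem lb3_comb (A : ℤ) (E : PowerSeries ℤ) (β : ℕ) (p : ℝ)
    (c : ℕ → ℕ → ℕ → ℤ) (g : Fin 3 → ℝ) (N : ℕ) :
    ∑ i : Fin 3, g i * Yc A β p E (c (i : ℕ)) N =
      ∑ k ∈ Finset.range 3, ∑ j ∈ Finset.range (N + 1),
        (∑ i : Fin 3, g i * ((c (i : ℕ) k j : ℝ) * (9 * (A : ℝ)) ^ j * (β : ℝ) ^ k *
          p ^ (j + 2 - k))) * ((PowerSeries.coeff (N - j) (E ^ k) : ℤ) : ℝ) := by
  simp only [Yc, Finset.mul_sum, Finset.sum_mul]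
  rw [Finset.sum_comm]
  refine Finset.sum_congr rfl fun k _ => ?_
  rw [Finset.sum_comm]
  refine Finset.sum_congr rfl fun j _ => ?_
  refine Finset.sum_congr rfl fun i _ => ?_
  ring

/-- Row LB3. Real combinations of three `Yc`: `ord_poly` with `a k j = ∑_i g_i c i k j (9A)^j β^k p^(j+2-k)`, `d = 20D`. -/
theorem Yc_ord {H D : ℕ} {A B : ℤ} {E : PowerSeries ℤ} (h : Ser H A B E) (hAB : A ^ 3 ≠ 27 * B) (β : ℕ) (p : ℝ)
    (c : ℕ → ℕ → ℕ → ℤ) (h0 : ∀ m k j, 20 * D < j + k → c m k j = 0) (g : Fin 3 → ℝ)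
    (hg : ∃ N, ∑ i : Fin 3, g i * Yc A β p E (c (i : ℕ)) N ≠ 0) :
    ∃ N ≤ 60 * D + 6, ∑ i : Fin 3, g i * Yc A β p E (c (i : ℕ)) N ≠ 0 := by
  obtain ⟨N, hN, hne⟩ := ord_poly h hAB (20 * D)
    (fun k j => ∑ i : Fin 3, g i * ((c (i : ℕ) k j : ℝ) * (9 * (A : ℝ)) ^ j * (β : ℝ) ^ k *
          p ^ (j + 2 - k)))
    (fun k j hj => by
      refine Finset.sum_eq_zero fun i _ => ?_
      rw [h0 _ k j (by omega)]
      simp)
    (by
      by_contra hcon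
      push Not at hcon
      obtain ⟨N, hN⟩ := hg
      apply hN
      rw [lb3_comb]
      refine Finset.sum_eq_zero fun k hk => Finset.sum_eq_zero fun j _ => ?_
      rw [hcon k (Finset.mem_range.1 hk) j, zero_mul])
  refine ⟨N, by omega, ?_⟩
  rw [lb3_comb]
  exact hne

end U44
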