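import Pool.Agent.LibU44.Defs
import Pool.Agent.LibT44.A3

namespace U44
open T44

/-- Row Z1a. `1 ≤ p`, `p³ = αβ²`, and `αβ² ≤ H⁶`, `p ≤ H²`, `β ≤ H³` if `αβ ≤ H³`. (`p³ = p·βq = αβ²`.) -/
theorem cl_p {α β : ℕ} {p q : ℝ} (h : Cl α β p q) : 1 ≤ p ∧ p ^ 3 = ((α * β ^ 2 : ℕ) : ℝ) ∧
    q = p ^ 2 / β ∧ ∀ H : ℕ, α * β ≤ H ^ 3 → α * β ^ 2 ≤ H ^ 6 ∧ p ≤ (H : ℝ) ^ 2 ∧ β ≤ H ^ 3 := by
  obtain ⟨hα, hβ, -, -, -, -, hp, hq, e1, e2, e3⟩ := h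
  have hβR : (1 : ℝ) ≤ β := by exact_mod_cast hβ
  have hαR : (1 : ℝ) ≤ α := by exact_mod_cast hα
  have hp3 : p ^ 3 = ((α * β ^ 2 : ℕ) : ℝ) := by
    push_cast
    linear_combination p * e1 + β * e3
  have hp1 : 1 ≤ p := by
    by_contra hcon
    push Not at hcon
    have h1 : p ^ 3 < 1 := pow_lt_one₀ hp.le hcon (by norm_num)
    rw [hp3] at h1
    have h2 : (1 : ℝ) ≤ ((α * β ^ 2 : ℕ) : ℝ) := by
      have : 1 ≤ α * β ^ 2 := Nat.mul_pos hα (pow_pos hβ 2)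
      exact_mod_cast this
    linarith
  refine ⟨hp1, hp3, ?_, fun H hH => ?_⟩
  · rw [e1]
    field_simp
  · have hb : β ≤ H ^ 3 := (Nat.le_mul_of_pos_left β hα).trans hH
    have hab : α * β ^ 2 ≤ H ^ 6 := by
      calc α * β ^ 2 = (α * β) * β := by ring
        _ ≤ H ^ 3 * H ^ 3 := Nat.mul_le_mul hH hb
        _ = H ^ 6 := by ring
    refine ⟨hab, ?_, hb⟩
    by_contra hcon
    push Not at hcon
    have h1 : ((H : ℝ) ^ 2) ^ 3 < p ^ 3 := pow_lt_pow_left₀ hcon (by positivity) (by norm_num)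
    rw [hp3] at h1
    have h2 : ((α * β ^ 2 : ℕ) : ℝ) ≤ ((H ^ 6 : ℕ) : ℝ) := by exact_mod_cast hab
    push_cast at h1 h2
    have h3 : ((H : ℝ) ^ 2) ^ 3 = (H : ℝ) ^ 6 := by ring
    linarith

/-- Row Z1b. Sums. -/
theorem Z3_add {p M N x y : ℝ} (hx : Z3 p M x) (hy : Z3 p N y) : Z3 p (M + N) (x + y) := by
  obtain ⟨x₀, x₁, x₂, a0, a1, a2, ha⟩ := hx
  obtain ⟨y₀, y₁, y₂, b0, b1, b2, hb⟩ := hy
  have key : ∀ a b : ℤ, |(a : ℝ)| ≤ M → |(b : ℝ)| ≤ N → |((a + b : ℤ) : ℝ)| ≤ M + N := by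
    intro a b h1 h2
    rw [Int.cast_add]
    exact (abs_add_le _ _).trans (add_le_add h1 h2)
  refine ⟨x₀ + y₀, x₁ + y₁, x₂ + y₂, key _ _ a0 b0, key _ _ a1 b1, key _ _ a2 b2, ?_⟩
  rw [ha, hb]
  push_cast
  ring

private theorem z1_zero (p : ℝ) : Z3 p 0 0 :=
  ⟨0, 0, 0, by simp, by simp, by simp, by simp⟩

/-- Row Z1c. Finite sums. -/
theorem Z3_sum {ι : Type*} (s : Finset ι) {p : ℝ} (M x : ι → ℝ) (h : ∀ i ∈ s, Z3 p (M i) (x i)) :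
    Z3 p (∑ i ∈ s, M i) (∑ i ∈ s, x i) := by
  classical
  revert h
  refine Finset.induction_on s (fun _ => ?_) fun a s ha ih h => ?_
  · rw [Finset.sum_empty, Finset.sum_empty]
    exact z1_zero p
  · rw [Finset.sum_insert ha, Finset.sum_insert ha]
    exact Z3_add (h a (Finset.mem_insert_self a s))
      (ih fun i hi => h i (Finset.mem_insert_of_mem hi))

/-- Row Z1d. Integer multiples, monotonicity. -/
theorem Z3_int {p M N x : ℝ} (c : ℤ) (hx : Z3 p M x) (hc : |(c : ℝ)| * M ≤ N) : Z3 p N (c * x) := by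
  obtain ⟨x₀, x₁, x₂, a0, a1, a2, ha⟩ := hx
  have key : ∀ a : ℤ, |(a : ℝ)| ≤ M → |((c * a : ℤ) : ℝ)| ≤ N := by
    intro a h1
    rw [Int.cast_mul, abs_mul]
    exact (mul_le_mul_of_nonneg_left h1 (abs_nonneg _)).trans hc
  refine ⟨c * x₀, c * x₁, c * x₂, key _ a0, key _ a1, key _ a2, ?_⟩
  rw [ha]
  push_cast
  ring

/-- Row Z1e. Products: `p³ = π`, components `≤ (1 + 2π) M N`. -/
theorem Z3_mul {p M N x y : ℝ} {π : ℕ} (hπ : p ^ 3 = π) (h1 : 1 ≤ π) (hM : 0 ≤ M) (hN : 0 ≤ N) (hx : Z3 p M x)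
    (hy : Z3 p N y) : Z3 p (3 * π * M * N) (x * y) := by
  obtain ⟨x₀, x₁, x₂, a0, a1, a2, ha⟩ := hx
  obtain ⟨y₀, y₁, y₂, b0, b1, b2, hb⟩ := hy
  have hπ1 : (1 : ℝ) ≤ π := by exact_mod_cast h1
  have hMN : 0 ≤ M * N := mul_nonneg hM hN
  have key : ∀ a b : ℤ, |(a : ℝ)| ≤ M → |(b : ℝ)| ≤ N → |((a : ℝ) * b)| ≤ M * N := by
    intro a b h1 h2
    rw [abs_mul]
    exact mul_le_mul h1 h2 (abs_nonneg _) hM
  have hπMN : M * N ≤ π * (M * N) := le_mul_of_one_le_left hMN hπ1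
  have hπa : ∀ r : ℝ, |(π : ℝ) * r| = π * |r| := by
    intro r
    rw [abs_mul, abs_of_nonneg (by linarith : (0 : ℝ) ≤ π)]
  refine ⟨x₀ * y₀ + π * (x₁ * y₂ + x₂ * y₁), x₀ * y₁ + x₁ * y₀ + π * (x₂ * y₂),
    x₀ * y₂ + x₁ * y₁ + x₂ * y₀, ?_, ?_, ?_, ?_⟩
  · push_cast
    have k1 := key _ _ a0 b0
    have k2 := key _ _ a1 b2
    have k3 := key _ _ a2 b1
    have k4 := abs_add_le ((x₀ : ℝ) * y₀) (π * ((x₁ : ℝ) * y₂ + x₂ * y₁))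
    have k5 := abs_add_le ((x₁ : ℝ) * y₂) ((x₂ : ℝ) * y₁)
    rw [hπa] at k4
    have k6 : (π : ℝ) * |(x₁ : ℝ) * y₂ + x₂ * y₁| ≤ π * (M * N + M * N) :=
      mul_le_mul_of_nonneg_left (by linarith) (by linarith)
    linarith
  · push_cast
    have k1 := key _ _ a0 b1
    have k2 := key _ _ a1 b0
    have k3 := key _ _ a2 b2
    have k4 := abs_add_le ((x₀ : ℝ) * y₁ + x₁ * y₀) (π * ((x₂ : ℝ) * y₂))
    have k5 := abs_add_le ((x₀ : ℝ) * y₁) ((x₁ : ℝ) * y₀)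
    rw [hπa] at k4
    have k6 : (π : ℝ) * |(x₂ : ℝ) * y₂| ≤ π * (M * N) :=
      mul_le_mul_of_nonneg_left k3 (by linarith)
    linarith
  · push_cast
    have k1 := key _ _ a0 b2
    have k2 := key _ _ a1 b1
    have k3 := key _ _ a2 b0
    have k4 := abs_add_le ((x₀ : ℝ) * y₂ + x₁ * y₁) ((x₂ : ℝ) * y₀)
    have k5 := abs_add_le ((x₀ : ℝ) * y₂) ((x₁ : ℝ) * y₁)
    linarith
  · rw [ha, hb]
    push_cast
    linear_combination ((x₁ : ℝ) * y₂ + x₂ * y₁ + x₂ * y₂ * p) * hπ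

/-- Row Z1f. Powers of `p`: `p^e = π^(e/3) p^(e mod 3)`. -/
theorem Z3_pow {p : ℝ} {π : ℕ} (hπ : p ^ 3 = π) (h1 : 1 ≤ π) (e : ℕ) : Z3 p ((π : ℝ) ^ (e / 3)) (p ^ e) := by
  have h0 : (0 : ℝ) ≤ (π : ℝ) ^ (e / 3) := by positivity
  have hb : |(((π : ℤ) ^ (e / 3) : ℤ) : ℝ)| ≤ (π : ℝ) ^ (e / 3) := by
    push_cast
    rw [abs_of_nonneg h0]
  have hz : |((0 : ℤ) : ℝ)| ≤ (π : ℝ) ^ (e / 3) := by
    rw [Int.cast_zero, abs_zero]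
    exact h0
  have he : p ^ e = (π : ℝ) ^ (e / 3) * p ^ (e % 3) := by
    rw [← hπ, ← pow_mul, ← pow_add, Nat.div_add_mod]
  have hlt : e % 3 < 3 := Nat.mod_lt _ (by norm_num)
  have hcases : e % 3 = 0 ∨ e % 3 = 1 ∨ e % 3 = 2 := by omega
  rcases hcases with h | h | h
  · refine ⟨(π : ℤ) ^ (e / 3), 0, 0, hb, hz, hz, ?_⟩
    rw [he, h]
    push_cast
    ring
  · refine ⟨0, (π : ℤ) ^ (e / 3), 0, hz, hb, hz, ?_⟩
    rw [he, h]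
    push_cast
    ring
  · refine ⟨0, 0, (π : ℤ) ^ (e / 3), hz, hz, hb, ?_⟩
    rw [he, h]
    push_cast
    ring

/-- Row Z1g. `|x| ≤ M (1 + p + p²) ≤ 3 M p²`. -/
theorem Z3_abs {p M x : ℝ} (hp : 1 ≤ p) (hx : Z3 p M x) : |x| ≤ 3 * M * p ^ 2 := by
  obtain ⟨x₀, x₁, x₂, a0, a1, a2, ha⟩ := hx
  have hM : 0 ≤ M := (abs_nonneg _).trans a0
  have hp0 : 0 ≤ p := by linarith
  have hp2 : 1 ≤ p ^ 2 := one_le_pow₀ hp
  have hpp : p ≤ p ^ 2 := by nlinarith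
  rw [ha]
  have k1 := abs_add_le ((x₀ : ℝ) + x₁ * p) (x₂ * p ^ 2)
  have k2 := abs_add_le (x₀ : ℝ) (x₁ * p)
  have k3 : |(x₁ : ℝ) * p| ≤ M * p ^ 2 := by
    rw [abs_mul, abs_of_nonneg hp0]
    exact mul_le_mul a1 hpp hp0 hM
  have k4 : |(x₂ : ℝ) * p ^ 2| ≤ M * p ^ 2 := by
    rw [abs_mul, abs_of_nonneg (by positivity : (0 : ℝ) ≤ p ^ 2)]
    exact mul_le_mul_of_nonneg_right a2 (by positivity)
  have k5 : |(x₀ : ℝ)| ≤ M * p ^ 2 := a0.trans (le_mul_of_one_le_right hM hp2)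
  linarith

end U44
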