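import Pool.Agent.LibU44.PT1
import Pool.Agent.LibU44.Z1
import Pool.Agent.LibT44.B1

namespace U44
open T44

/-- the cubic relation `V³ - W³ - a V W = αβF` -/
theorem pt3_cubic {α β : ℕ} {p q : ℝ} (h : Cl α β p q) (z : ℤ × ℤ × ℤ) :
    ((z.2.2 : ℝ) * q) ^ 3 = ((z.2.1 : ℝ) * p) ^ 3 + z.1 * ((z.2.2 : ℝ) * q) * ((z.2.1 : ℝ) * p) +
      (((α : ℤ) * β * F α β z : ℤ) : ℝ) := by
  obtain ⟨-, -, -, -, -, -, -, -, h1, h2, h3⟩ := h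
  have hp3 : p ^ 3 = α * β * β := by
    calc p ^ 3 = p * p ^ 2 := by ring
      _ = β * (p * q) := by rw [h1]; ring
      _ = α * β * β := by rw [h3]; ring
  have hq3 : q ^ 3 = α * β * α := by
    calc q ^ 3 = q * q ^ 2 := by ring
      _ = α * (p * q) := by rw [h2]; ring
      _ = α * β * α := by rw [h3]; ring
  unfold F
  push_cast
  calc ((z.2.2 : ℝ) * q) ^ 3 = (z.2.2 : ℝ) ^ 3 * q ^ 3 := by ring
    _ = (z.2.2 : ℝ) ^ 3 * (α * β * α) := by rw [hq3]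
    _ = (z.2.1 : ℝ) ^ 3 * (α * β * β) + z.1 * (z.2.2 : ℝ) * z.2.1 * (α * β) +
        α * β * (α * z.2.2 ^ 3 - β * z.2.1 ^ 3 - z.1 * z.2.1 * z.2.2) := by ring
    _ = (z.2.1 : ℝ) ^ 3 * p ^ 3 + z.1 * (z.2.2 : ℝ) * z.2.1 * (p * q) +
        α * β * (α * z.2.2 ^ 3 - β * z.2.1 ^ 3 - z.1 * z.2.1 * z.2.2) := by rw [hp3, h3]
    _ = _ := by ring

theorem pt3_W {H : ℕ} (hH : 1 ≤ H) {W : ℝ} (hS : (10 * (H : ℝ)) ^ 10 ≤ W) : 10 ^ 10 * (H : ℝ) ≤ W := by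
  have hHr : (1 : ℝ) ≤ H := by exact_mod_cast hH
  calc 10 ^ 10 * (H : ℝ) = 10 ^ 10 * (H : ℝ) ^ 1 := by ring
    _ ≤ 10 ^ 10 * (H : ℝ) ^ 10 := by
        apply mul_le_mul_of_nonneg_left (pow_le_pow_right₀ hHr (by norm_num)) (by positivity)
    _ = (10 * (H : ℝ)) ^ 10 := by ring
    _ ≤ W := hS

theorem pt3_om {H : ℕ} (hH : 1 ≤ H) {W : ℝ} (hW : 10 ^ 10 * (H : ℝ) ≤ W) :
    ‖((1 / (9 * W) : ℝ) : ℂ)‖ * (10 ^ 5 * (H : ℝ)) ≤ 1 := by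
  have hHr : (1 : ℝ) ≤ H := by exact_mod_cast hH
  have hW0 : 0 < W := by linarith
  rw [Complex.norm_real, Real.norm_of_nonneg (by positivity), div_mul_eq_mul_div, div_le_one (by positivity)]
  linarith

/-- Row PT3. At `ω₁ = 1/(9W₁)` the branch passes through `z`: `V₁/W₁` is the root near `1` (`eta_uniq`; `V³ - W³ - AVW = αβF`,
`|V - W| ≤ H`, `W ≥ S/2 - H`). -/
theorem branch_at {H α β : ℕ} {p q : ℝ} (h : Cl α β p q) (hH : 1 ≤ H) (z : ℤ × ℤ × ℤ) (hz : Sol H α β z)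
    (hS : (10 * (H : ℝ)) ^ 10 ≤ (z.2.1 : ℝ) * p) (E : PowerSeries ℤ)
    (hE : Ser H z.1 ((α : ℤ) * β * F α β z) E) :
    eta E ((1 / (9 * ((z.2.1 : ℝ) * p)) : ℝ) : ℂ) =
      (((z.2.2 : ℝ) * q / ((z.2.1 : ℝ) * p) : ℝ) : ℂ) := by
  have hHr : (1 : ℝ) ≤ H := by exact_mod_cast hH
  obtain ⟨-, -, w3, -, -⟩ := wsize h hH z hz
  have hcub := pt3_cubic h z
  set W : ℝ := (z.2.1 : ℝ) * p with hW
  set V : ℝ := (z.2.2 : ℝ) * q with hV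
  have hWH := pt3_W hH hS
  have hW0 : 0 < W := by linarith
  symm
  refine eta_uniq hE hH hz.1 _ _ (pt3_om hH hWH) ?_ ?_
  · have e1 : ((V / W : ℝ) : ℂ) - 1 = (((V - W) / W : ℝ) : ℂ) := by
      push_cast
      have : (W : ℂ) ≠ 0 := by exact_mod_cast hW0.ne'
      field_simp
    rw [e1, Complex.norm_real, Real.norm_eq_abs, abs_div, abs_of_pos hW0, div_le_iff₀ hW0]
    linarith
  · have e2 : (V / W) ^ 3 = 1 + 9 * (z.1 : ℝ) * (1 / (9 * W)) * (V / W) +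
        729 * (((α : ℤ) * β * F α β z : ℤ) : ℝ) * (1 / (9 * W)) ^ 3 := by
      field_simp
      rw [hcub]
      ring
    exact_mod_cast congrArg (fun t : ℝ => (t : ℂ)) e2

theorem pt3_bracket {x y w : ℂ} (hx : ‖x - 1‖ ≤ 1 / 30) (hy : ‖y - 1‖ ≤ 1 / 30) (hw : ‖w‖ ≤ 1 / 1000) :
    x ^ 2 + x * y + y ^ 2 - w ≠ 0 ∧ ‖x ^ 2 + x * y + y ^ 2 - w‖ ≤ 4 := by
  set a := x - 1 with ha
  set b := y - 1 with hb
  have e : x ^ 2 + x * y + y ^ 2 - w = 3 + (3 * a + 3 * b + a ^ 2 + a * b + b ^ 2 - w) := by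
    rw [ha, hb]; ring
  have n1 : ‖3 * a + 3 * b + a ^ 2 + a * b + b ^ 2 - w‖ ≤ 1 / 2 := by
    have h3 : ‖(3 : ℂ)‖ = 3 := by norm_num
    have ha0 := norm_nonneg a
    have hb0 := norm_nonneg b
    calc ‖3 * a + 3 * b + a ^ 2 + a * b + b ^ 2 - w‖
        ≤ ‖3 * a + 3 * b + a ^ 2 + a * b + b ^ 2‖ + ‖w‖ := norm_sub_le _ _
      _ ≤ ‖3 * a + 3 * b + a ^ 2 + a * b‖ + ‖b ^ 2‖ + ‖w‖ := by gcongr; exact norm_add_le _ _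
      _ ≤ ‖3 * a + 3 * b + a ^ 2‖ + ‖a * b‖ + ‖b ^ 2‖ + ‖w‖ := by gcongr; exact norm_add_le _ _
      _ ≤ ‖3 * a + 3 * b‖ + ‖a ^ 2‖ + ‖a * b‖ + ‖b ^ 2‖ + ‖w‖ := by gcongr; exact norm_add_le _ _
      _ ≤ ‖3 * a‖ + ‖3 * b‖ + ‖a ^ 2‖ + ‖a * b‖ + ‖b ^ 2‖ + ‖w‖ := by gcongr; exact norm_add_le _ _
      _ = 3 * ‖a‖ + 3 * ‖b‖ + ‖a‖ ^ 2 + ‖a‖ * ‖b‖ + ‖b‖ ^ 2 + ‖w‖ := by
          rw [norm_mul, norm_mul, norm_mul, norm_pow, norm_pow, h3]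
      _ ≤ 1 / 2 := by
          have k1 := mul_le_mul hx hy hb0 (by norm_num : (0:ℝ) ≤ 1 / 30)
          have k2 := mul_le_mul hx hx ha0 (by norm_num : (0:ℝ) ≤ 1 / 30)
          have k3 := mul_le_mul hy hy hb0 (by norm_num : (0:ℝ) ≤ 1 / 30)
          nlinarith
  rw [e]
  constructor
  · intro h0
    have h1 : (3 : ℂ) = -(3 * a + 3 * b + a ^ 2 + a * b + b ^ 2 - w) := by linear_combination h0
    have h2 : ‖(3 : ℂ)‖ = ‖3 * a + 3 * b + a ^ 2 + a * b + b ^ 2 - w‖ := by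
      conv_lhs => rw [h1]
      exact norm_neg _
    have h3 : ‖(3 : ℂ)‖ = 3 := by norm_num
    rw [h3] at h2
    linarith
  · calc ‖3 + (3 * a + 3 * b + a ^ 2 + a * b + b ^ 2 - w)‖ ≤ ‖(3 : ℂ)‖ + _ := norm_add_le _ _
      _ ≤ 3 + 1 / 2 := by
          have h3 : ‖(3 : ℂ)‖ = 3 := by norm_num
          rw [h3]; linarith
      _ ≤ 4 := by norm_num

/-- Row PT4. With `v = W₁E/q`, `v₁ = W₁E₁/q`, `α/q² = 1/p`: `α(v² + vv₁ + v₁²) = (W₁²/p)(E² + EE₁ + E₁²)`, `|E - 1|, |E₁ - 1| ≤ 1/30`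
(so the bracket is within `0.3` of `3`), and `|a u₁| ≤ 9HW₁‖ω‖W₁/p ≤ 10^-4 W₁²/p`. -/
theorem Ap_bd {H α β : ℕ} {p q : ℝ} (h : Cl α β p q) (hH : 1 ≤ H) (z : ℤ × ℤ × ℤ) (hz : Sol H α β z)
    (hA : z.1 ≠ 0) (hS : (10 * (H : ℝ)) ^ 10 ≤ (z.2.1 : ℝ) * p) (E : PowerSeries ℤ)
    (hE : Ser H z.1 ((α : ℤ) * β * F α β z) E) (ω : ℂ) (hω : ‖ω‖ * (10 ^ 5 * (H : ℝ)) ≤ 1) :
    Ap α z.1 z.2.1 z.2.2 (9 * z.1 * (((z.2.1 : ℝ) * p : ℝ) : ℂ) * ω)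
      ((((z.2.1 : ℝ) * p : ℝ) : ℂ) * eta E ω / (q : ℂ)) ≠ 0 ∧
    ‖Ap α z.1 z.2.1 z.2.2 (9 * z.1 * (((z.2.1 : ℝ) * p : ℝ) : ℂ) * ω)
      ((((z.2.1 : ℝ) * p : ℝ) : ℂ) * eta E ω / (q : ℂ))‖ ≤ 4 * (H : ℝ) ^ 3 * ((z.2.1 : ℝ) * p) ^ 2 := by
  have hHr : (1 : ℝ) ≤ H := by exact_mod_cast hH
  have hb := branch_at h hH z hz hS E hE
  obtain ⟨hp1, -, -, -⟩ := cl_p h
  obtain ⟨-, -, -, -, -, -, hp0, hq0, -, hq2, -⟩ := h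
  set W : ℝ := (z.2.1 : ℝ) * p with hW
  have hWH := pt3_W hH hS
  have hW0 : 0 < W := by linarith
  have hom := pt3_om hH hWH
  obtain ⟨-, -, n1⟩ := eta_sum hE hH ω hω
  obtain ⟨-, -, n2⟩ := eta_sum hE hH _ hom
  set E₁ : ℂ := eta E ((1 / (9 * W) : ℝ) : ℂ) with hE₁
  set Eω : ℂ := eta E ω with hEω
  have hqC : (q : ℂ) ≠ 0 := by exact_mod_cast hq0.ne'
  have hpC : (p : ℂ) ≠ 0 := by exact_mod_cast hp0.ne'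
  have hWC : (W : ℂ) ≠ 0 := by exact_mod_cast hW0.ne'
  have hv1 : ((z.2.2 : ℤ) : ℂ) = (W : ℂ) * E₁ / q := by
    rw [hb]
    push_cast
    field_simp
  have hu1 : ((z.2.1 : ℤ) : ℂ) = (W : ℂ) / p := by
    rw [hW]
    push_cast
    field_simp
  have hαq : (α : ℂ) = (q : ℂ) ^ 2 / p := by
    rw [eq_div_iff hpC]
    exact_mod_cast hq2.symm
  have hw : ‖9 * (z.1 : ℂ) * ω‖ ≤ 1 / 1000 := by
    rw [norm_mul, norm_mul]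
    have a1 : ‖(9 : ℂ)‖ = 9 := by norm_num
    have a2 : ‖((z.1 : ℤ) : ℂ)‖ ≤ H := by
      rw [Complex.norm_intCast]
      have := hz.1
      have h3 : ((|z.1| : ℤ) : ℝ) ≤ ((H : ℤ) : ℝ) := by exact_mod_cast this
      simpa using h3
    rw [a1]
    have hn := norm_nonneg ω
    calc 9 * ‖((z.1 : ℤ) : ℂ)‖ * ‖ω‖ ≤ 9 * H * ‖ω‖ := by gcongr
      _ = (9 / 10 ^ 5) * (‖ω‖ * (10 ^ 5 * (H : ℝ))) := by ring
      _ ≤ (9 / 10 ^ 5) * 1 := by gcongr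
      _ ≤ 1 / 1000 := by norm_num
  have hkey : Ap α z.1 z.2.1 z.2.2 (9 * z.1 * (W : ℂ) * ω) ((W : ℂ) * Eω / (q : ℂ)) =
      (z.1 : ℂ) ^ 3 * ((W : ℂ) ^ 2 / p) * (Eω ^ 2 + Eω * E₁ + E₁ ^ 2 - 9 * (z.1 : ℂ) * ω) := by
    unfold Ap
    rw [hv1, hu1, hαq]
    field_simp
  obtain ⟨b1, b2⟩ := pt3_bracket n1 n2 hw
  have hA' : ((z.1 : ℤ) : ℂ) ≠ 0 := by exact_mod_cast hA
  rw [hkey]
  refine ⟨mul_ne_zero (mul_ne_zero (pow_ne_zero _ hA') (div_ne_zero (pow_ne_zero _ hWC) hpC)) b1, ?_⟩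
  rw [norm_mul, norm_mul, norm_pow, norm_div, norm_pow, Complex.norm_real, Complex.norm_real,
    Real.norm_of_nonneg hW0.le, Real.norm_of_nonneg hp0.le]
  have a2 : ‖((z.1 : ℤ) : ℂ)‖ ≤ H := by
    rw [Complex.norm_intCast]
    have := hz.1
    have h3 : ((|z.1| : ℤ) : ℝ) ≤ ((H : ℤ) : ℝ) := by exact_mod_cast this
    simpa using h3
  have a3 : W ^ 2 / p ≤ W ^ 2 := div_le_self (by positivity) hp1
  calc ‖((z.1 : ℤ) : ℂ)‖ ^ 3 * (W ^ 2 / p) * ‖Eω ^ 2 + Eω * E₁ + E₁ ^ 2 - 9 * (z.1 : ℂ) * ω‖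
      ≤ (H : ℝ) ^ 3 * W ^ 2 * 4 := by gcongr
    _ = 4 * (H : ℝ) ^ 3 * W ^ 2 := by ring

end U44
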