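import Pool.Agent.LibU44.S2
import Pool.Agent.LibU44.Z1

namespace U44
open T44

theorem yb_mono {p M N x : ℝ} (hx : Z3 p M x) (h : M ≤ N) : Z3 p N x := by
  obtain ⟨a, b, c, ha, hb, hc, e⟩ := hx
  exact ⟨a, b, c, ha.trans h, hb.trans h, hc.trans h, e⟩

theorem yb_zero {p M : ℝ} (h : 0 ≤ M) : Z3 p M 0 :=
  ⟨0, 0, 0, by simpa using h, by simpa using h, by simpa using h, by simp⟩

/-- one term -/
theorem yb_term {H D α β : ℕ} {p q : ℝ} (h : Cl α β p q) (hH : 2 ≤ H) (hab : α * β ≤ H ^ 3)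
    (A : ℤ) (hA : |A| ≤ H) (N k j : ℕ) (hk : k < 3) (hj : j ≤ 20 * D) (hjN : j ≤ N) (a b : ℤ)
    (ha : |(a : ℝ)| ≤ (10 * (H : ℝ)) ^ (2100 * D)) (hb : |b| ≤ 9 * (2000 * (H : ℤ)) ^ (N - j)) :
    Z3 p (9 * (10 * (H : ℝ)) ^ (2160 * D + 10 + 3 * N))
      ((a : ℝ) * (9 * (A : ℝ)) ^ j * (β : ℝ) ^ k * p ^ (j + 2 - k) * (b : ℝ)) := by
  obtain ⟨h1, h2, -, h3⟩ := cl_p h
  obtain ⟨h4, -, h5⟩ := h3 H hab
  have hβ1 : 1 ≤ β := h.2.1
  have hα1 : 1 ≤ α := h.1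
  have hπ1 : 1 ≤ α * β ^ 2 := Nat.succ_le_of_lt (Nat.mul_pos hα1 (pow_pos hβ1 2))
  have hHr : (2 : ℝ) ≤ (H : ℝ) := by exact_mod_cast hH
  obtain ⟨x, hx⟩ : ∃ x : ℝ, x = 10 * (H : ℝ) := ⟨_, rfl⟩
  rw [← hx] at ha ⊢
  have hx1 : 1 ≤ x := by rw [hx]; linarith
  have hHx : (H : ℝ) ≤ x := by rw [hx]; linarith
  have b1 : |9 * (A : ℝ)| ^ j ≤ x ^ (20 * D) := by
    have e1 : |9 * (A : ℝ)| ≤ x := by
      rw [abs_mul, abs_of_nonneg (by norm_num : (0 : ℝ) ≤ 9)]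
      have e2 : |(A : ℝ)| ≤ (H : ℝ) := by exact_mod_cast hA
      rw [hx]
      linarith
    exact (pow_le_pow_left₀ (abs_nonneg _) e1 j).trans (pow_le_pow_right₀ hx1 hj)
  have b2 : (β : ℝ) ^ k ≤ x ^ 6 := by
    have e1 : (β : ℝ) ≤ (H : ℝ) ^ 3 := by exact_mod_cast h5
    have e2 : (β : ℝ) ≤ x ^ 3 := e1.trans (pow_le_pow_left₀ (by positivity) hHx 3)
    have e3 : (β : ℝ) ^ k ≤ (x ^ 3) ^ k := pow_le_pow_left₀ (by positivity) e2 k
    refine e3.trans ?_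
    rw [← pow_mul]
    exact pow_le_pow_right₀ hx1 (by omega)
  have b3 : (((α * β ^ 2 : ℕ) : ℝ)) ^ ((j + 2 - k) / 3) ≤ x ^ (40 * D + 4) := by
    have e1 : ((α * β ^ 2 : ℕ) : ℝ) ≤ (H : ℝ) ^ 6 := by exact_mod_cast h4
    have e2 : ((α * β ^ 2 : ℕ) : ℝ) ≤ x ^ 6 := e1.trans (pow_le_pow_left₀ (by positivity) hHx 6)
    refine (pow_le_pow_left₀ (by positivity) e2 _).trans ?_
    rw [← pow_mul]
    exact pow_le_pow_right₀ hx1 (by omega)
  have b4 : |(b : ℝ)| ≤ 9 * x ^ (3 * N) := by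
    have e1 : |(b : ℝ)| ≤ 9 * (2000 * (H : ℝ)) ^ (N - j) := by exact_mod_cast hb
    have e2 : 2000 * (H : ℝ) ≤ x ^ 3 := by
      rw [hx]
      nlinarith [mul_nonneg (by linarith : (0 : ℝ) ≤ (H : ℝ)) (by nlinarith : (0 : ℝ) ≤ (H : ℝ) ^ 2 - 4)]
    have e3 : (2000 * (H : ℝ)) ^ (N - j) ≤ (x ^ 3) ^ (N - j) :=
      pow_le_pow_left₀ (by positivity) e2 _
    rw [← pow_mul] at e3
    have e4 : x ^ (3 * (N - j)) ≤ x ^ (3 * N) := pow_le_pow_right₀ hx1 (by omega)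
    linarith
  have key := Z3_int (N := 9 * x ^ (2160 * D + 10 + 3 * N)) (a * (9 * A) ^ j * (β : ℤ) ^ k * b)
    (Z3_pow h2 hπ1 (j + 2 - k)) (by
      push_cast
      rw [abs_mul, abs_mul, abs_mul, abs_pow, abs_of_nonneg (by positivity : (0 : ℝ) ≤ (β : ℝ) ^ k)]
      have e1 : x ^ (2160 * D + 10 + 3 * N) =
          x ^ (2100 * D) * x ^ (20 * D) * x ^ 6 * x ^ (3 * N) * x ^ (40 * D + 4) := by
        rw [← pow_add, ← pow_add, ← pow_add, ← pow_add]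
        congr 1
        ring
      have b3' := b3
      push_cast at b3'
      have p1 : |(a : ℝ)| * |9 * (A : ℝ)| ^ j ≤ x ^ (2100 * D) * x ^ (20 * D) :=
        mul_le_mul ha b1 (by positivity) (by positivity)
      have p2 : |(a : ℝ)| * |9 * (A : ℝ)| ^ j * (β : ℝ) ^ k ≤ x ^ (2100 * D) * x ^ (20 * D) * x ^ 6 :=
        mul_le_mul p1 b2 (by positivity) (by positivity)
      have p3 : |(a : ℝ)| * |9 * (A : ℝ)| ^ j * (β : ℝ) ^ k * |(b : ℝ)| ≤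
          x ^ (2100 * D) * x ^ (20 * D) * x ^ 6 * (9 * x ^ (3 * N)) :=
        mul_le_mul p2 b4 (by positivity) (by positivity)
      have p4 := mul_le_mul p3 b3' (by positivity) (by positivity)
      refine p4.trans (le_of_eq ?_)
      rw [e1]
      ring)
  have e5 : (a : ℝ) * (9 * (A : ℝ)) ^ j * (β : ℝ) ^ k * p ^ (j + 2 - k) * (b : ℝ) =
      ((a * (9 * A) ^ j * (β : ℤ) ^ k * b : ℤ) : ℝ) * p ^ (j + 2 - k) := by
    push_cast
    ring
  rw [e5]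
  exact key

/-- Row YB1. At most `3(20D+1)` nonzero terms, each an integer times a power of `p`: `|c| ≤ h^(2100D)`, `|9A|^j ≤ h^(20D)`, `β^k ≤ H⁶`,
`π^((j+2-k)/3) ≤ H^(40D+4)`, `9(2000H)^(N-j) ≤ 9 h^(3N)` (`h = 10H ≥ 20`, `2000H ≤ h³`). Total `≤ h^(2200D+3N)` (`Z3_pow, Z3_int, Z3_sum`). -/
theorem Yc_Z3 {H D α β : ℕ} {p q : ℝ} (h : Cl α β p q) (hH : 2 ≤ H) (hD : 1 ≤ D) (hab : α * β ≤ H ^ 3)
    (A : ℤ) (hA : |A| ≤ H) (E : PowerSeries ℤ)
    (hE : ∀ k < 3, ∀ n, |(PowerSeries.coeff n (E ^ k) : ℤ)| ≤ 9 * (2000 * (H : ℤ)) ^ n)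
    (c : ℕ → ℕ → ℤ) (h0 : ∀ k j, 20 * D < j + k → c k j = 0)
    (hc : ∀ k j, |(c k j : ℝ)| ≤ (10 * (H : ℝ)) ^ (2100 * D)) (N : ℕ) :
    Z3 p ((10 * (H : ℝ)) ^ (2200 * D + 3 * N)) (Yc A β p E c N) := by
  obtain ⟨B, hB⟩ : ∃ B : ℝ, B = 9 * (10 * (H : ℝ)) ^ (2160 * D + 10 + 3 * N) := ⟨_, rfl⟩
  have hB0 : 0 ≤ B := by rw [hB]; positivity
  have hHr : (2 : ℝ) ≤ (H : ℝ) := by exact_mod_cast hH
  have ht : ∀ k ∈ Finset.range 3, Z3 p ((20 * D + 1 : ℕ) * B)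
      (∑ j ∈ Finset.range (N + 1), (c k j : ℝ) * (9 * (A : ℝ)) ^ j * (β : ℝ) ^ k * p ^ (j + 2 - k) *
      ((PowerSeries.coeff (N - j) (E ^ k) : ℤ) : ℝ)) := by
    intro k hk
    rw [Finset.mem_range] at hk
    have h1 := Z3_sum (p := p) (Finset.range (N + 1)) (fun j => if j ≤ 20 * D then B else 0)
      (fun j => (c k j : ℝ) * (9 * (A : ℝ)) ^ j * (β : ℝ) ^ k * p ^ (j + 2 - k) *
        ((PowerSeries.coeff (N - j) (E ^ k) : ℤ) : ℝ)) (by
      intro j hj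
      rw [Finset.mem_range] at hj
      by_cases hj' : j ≤ 20 * D
      · rw [if_pos hj', hB]
        exact yb_term h hH hab A hA N k j hk hj' (by omega) _ _ (hc k j) (hE k hk _)
      · rw [if_neg hj']
        have h2 : c k j = 0 := h0 k j (by omega)
        simp only [h2, Int.cast_zero, zero_mul]
        exact yb_zero le_rfl)
    refine yb_mono h1 ?_
    rw [← Finset.sum_filter, Finset.sum_const, nsmul_eq_mul]
    refine mul_le_mul_of_nonneg_right ?_ hB0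
    have h3 : (Finset.range (N + 1)).filter (fun j => j ≤ 20 * D) ⊆ Finset.range (20 * D + 1) := by
      intro j hj
      rw [Finset.mem_filter] at hj
      rw [Finset.mem_range]
      omega
    have h4 := Finset.card_le_card h3
    rw [Finset.card_range] at h4
    exact_mod_cast h4
  have h1 := Z3_sum (p := p) (Finset.range 3) (fun _ => ((20 * D + 1 : ℕ) : ℝ) * B) _ ht
  unfold Yc
  refine yb_mono h1 ?_
  rw [Finset.sum_const, Finset.card_range, nsmul_eq_mul, hB]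
  obtain ⟨x, hx⟩ : ∃ x : ℝ, x = 10 * (H : ℝ) := ⟨_, rfl⟩
  rw [← hx]
  have hx20 : 20 ≤ x := by rw [hx]; linarith
  have hx1 : 1 ≤ x := by linarith
  have hx0 : 0 < x := by linarith
  have e1 : x ^ (2200 * D + 3 * N) = x ^ (40 * D - 10) * x ^ (2160 * D + 10 + 3 * N) := by
    rw [← pow_add]
    congr 1
    omega
  have e2 : (27 : ℝ) * (20 * D + 1) ≤ x ^ (40 * D - 10) := by
    have e3 : (D : ℝ) ≤ x ^ D := by
      have e4 : (D : ℝ) ≤ (2 : ℝ) ^ D := by exact_mod_cast Nat.lt_two_pow_self.le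
      exact e4.trans (pow_le_pow_left₀ (by norm_num) (by linarith) D)
    have e5 : (8000 : ℝ) ≤ x ^ 3 := by
      have := pow_le_pow_left₀ (by norm_num : (0 : ℝ) ≤ 20) hx20 3
      linarith
    have hD1 : (1 : ℝ) ≤ (D : ℝ) := by exact_mod_cast hD
    have e6 : (27 : ℝ) * (20 * D + 1) ≤ 8000 * D := by linarith
    have e7 : (8000 : ℝ) * D ≤ x ^ 3 * x ^ D := mul_le_mul e5 e3 (by positivity) (by positivity)
    rw [← pow_add] at e7
    exact e6.trans (e7.trans (pow_le_pow_right₀ hx1 (by omega)))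
  rw [e1]
  push_cast
  have e8 : 0 < x ^ (2160 * D + 10 + 3 * N) := by positivity
  nlinarith [mul_le_mul_of_nonneg_right e2 e8.le]

/-- shift of a power series -/
theorem yb_shift (a : ℕ → ℂ) (ω S : ℂ) (j : ℕ) (h : HasSum (fun n : ℕ => a n * ω ^ n) S) :
    HasSum (fun N : ℕ => if j ≤ N then a (N - j) * ω ^ N else 0) (ω ^ j * S) := by
  have h1 : HasSum ((fun N : ℕ => if j ≤ N then a (N - j) * ω ^ N else 0) ∘ fun n => n + j)
      (ω ^ j * S) := by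
    have e : ((fun N : ℕ => if j ≤ N then a (N - j) * ω ^ N else 0) ∘ fun n => n + j) =
        fun n => ω ^ j * (a n * ω ^ n) := by
      funext n
      simp only [Function.comp_apply]
      rw [if_pos (Nat.le_add_left j n), Nat.add_sub_cancel, pow_add]
      ring
    rw [e]
    exact h.mul_left (ω ^ j)
  refine ((add_left_injective j).hasSum_iff fun N hN => ?_).1 h1
  rw [if_neg]
  intro hj
  exact hN ⟨N - j, Nat.sub_add_cancel hj⟩

/-- Row YB2. Finite linear combination of shifts of `eta_sum`. -/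
theorem Yf_hasSum {H D : ℕ} {A B : ℤ} {E : PowerSeries ℤ} (h : Ser H A B E) (hH : 1 ≤ H) (β : ℕ) (p : ℝ)
    (c : ℕ → ℕ → ℤ) (h0 : ∀ k j, 20 * D < j + k → c k j = 0) (ω : ℂ)
    (hω : ‖ω‖ * (10 ^ 5 * (H : ℝ)) ≤ 1) :
    HasSum (fun N : ℕ => ((Yc A β p E c N : ℝ) : ℂ) * ω ^ N) (Yf (20 * D) A β p E c ω) := by
  obtain ⟨hs, -, -⟩ := eta_sum h hH ω hω
  have h1 : HasSum (fun N : ℕ => ∑ k ∈ Finset.range 3, ∑ j ∈ Finset.range (20 * D + 1),
      ((c k j : ℂ) * (9 * (A : ℂ)) ^ j * (β : ℂ) ^ k * (p : ℂ) ^ (j + 2 - k)) *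
        (if j ≤ N then ((PowerSeries.coeff (N - j) (E ^ k) : ℤ) : ℂ) * ω ^ N else 0))
      (Yf (20 * D) A β p E c ω) := by
    unfold Yf
    refine hasSum_sum fun k hk => hasSum_sum fun j _ => ?_
    exact (yb_shift (fun n => ((PowerSeries.coeff n (E ^ k) : ℤ) : ℂ)) ω _ j
      (hs k (Finset.mem_range.1 hk))).mul_left _
  have e : (fun N : ℕ => ((Yc A β p E c N : ℝ) : ℂ) * ω ^ N) =
      fun N : ℕ => ∑ k ∈ Finset.range 3, ∑ j ∈ Finset.range (20 * D + 1),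
        ((c k j : ℂ) * (9 * (A : ℂ)) ^ j * (β : ℂ) ^ k * (p : ℂ) ^ (j + 2 - k)) *
          (if j ≤ N then ((PowerSeries.coeff (N - j) (E ^ k) : ℤ) : ℂ) * ω ^ N else 0) := by
    funext N
    unfold Yc
    push_cast
    rw [Finset.sum_mul]
    refine Finset.sum_congr rfl fun k _ => ?_
    rw [Finset.sum_mul]
    simp only [mul_ite, mul_zero]
    rw [← Finset.sum_filter]
    symm
    have e1 : ∀ j ∈ (Finset.range (20 * D + 1)).filter (fun j => j ≤ N),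
        (c k j : ℂ) * (9 * (A : ℂ)) ^ j * (β : ℂ) ^ k * (p : ℂ) ^ (j + 2 - k) *
          (((PowerSeries.coeff (N - j) (E ^ k) : ℤ) : ℂ) * ω ^ N) =
        (c k j : ℂ) * (9 * (A : ℂ)) ^ j * (β : ℂ) ^ k * (p : ℂ) ^ (j + 2 - k) *
          ((PowerSeries.coeff (N - j) (E ^ k) : ℤ) : ℂ) * ω ^ N := fun j _ => by ring
    rw [Finset.sum_congr rfl e1]
    refine Finset.sum_subset (fun j hj => ?_) fun j hj hj' => ?_
    · rw [Finset.mem_filter] at hj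
      rw [Finset.mem_range]
      omega
    · rw [Finset.mem_range] at hj
      rw [Finset.mem_filter, Finset.mem_range, not_and] at hj'
      have h2 : c k j = 0 := h0 k j (by
        by_contra h3
        exact hj' (by omega) (by omega))
      simp only [h2, Int.cast_zero, zero_mul]
  rw [e]
  exact h1

end U44
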