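import Pool.Agent.LibU44.ZE
import Pool.Agent.LibU44.LB3
import Pool.Agent.LibU44.YB
import Pool.Agent.LibU44.PT3
import Pool.Agent.LibU44.EV

namespace U44
open T44

theorem c1_aeval_diff (Q : MvPolynomial (Fin 2) ℤ) (a v : ℂ → ℂ) (s : Set ℂ) (ha : DifferentiableOn ℂ a s)
    (hv : DifferentiableOn ℂ v s) : DifferentiableOn ℂ (fun ω => MvPolynomial.aeval ![a ω, v ω] Q) s := by
  induction Q using MvPolynomial.induction_on with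
  | C r =>
    simp only [MvPolynomial.aeval_C]
    exact differentiableOn_const _
  | add f g hf hg =>
    simp only [map_add]
    exact hf.add hg
  | mul_X f i hf =>
    simp only [map_mul, MvPolynomial.aeval_X]
    refine hf.mul ?_
    fin_cases i
    · simpa using ha
    · simpa using hv

theorem c1_ball {H : ℕ} (hH : 2 ≤ H) {ω : ℂ} (hω : ω ∈ Metric.ball (0 : ℂ) (1 / (10 * (H : ℝ)) ^ 5)) :
    ‖ω‖ * (10 ^ 5 * (H : ℝ)) ≤ 1 := by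
  have h2 : (2 : ℝ) ≤ H := by exact_mod_cast hH
  have h1 : ‖ω‖ < 1 / (10 * (H : ℝ)) ^ 5 := by simpa using hω
  have h3 : (0 : ℝ) < (10 * (H : ℝ)) ^ 5 := by positivity
  have h4 : ‖ω‖ * (10 * (H : ℝ)) ^ 5 < 1 := by
    rwa [lt_div_iff₀ h3] at h1
  have h5 : (10 : ℝ) ^ 5 * H ≤ (10 * (H : ℝ)) ^ 5 := by
    rw [mul_pow]
    have : (H : ℝ) ≤ (H : ℝ) ^ 5 := le_self_pow₀ (by linarith) (by norm_num)
    nlinarith
  nlinarith [norm_nonneg ω]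

/-- Row C1. High order of vanishing at `z₁` is impossible. `zero_estimate` with `y i = Yc ... (c i)` (`Yc_Z3`, `Yc_ord`; `A³ ≠ 27B` is in
`Sol`), `W₁ = u₁p`, and `k(ω) = (p^(20D+2)/W₁^(20D)) (9AW₁)^N aeval![a(ω), v(ω)] Q / Ap(a(ω),v(ω))^N`, `a(ω) = 9AW₁ω`, `v(ω) = W₁E(ω)/q`:
on the ball `‖ω‖·10^5H ≤ 1` (`h^5 ≥ 10^5 H`), `Gc = 0` (`branch`), `Ap ≠ 0` (`Ap_bd`), `a(ω) - A = 9AW₁(ω - 1/(9W₁))`, `Pol_eval`,
`Ff (Yc ..) 0 ω = Yf .. ω` (`Yf_hasSum`), `eta_diff` and polynomials are differentiable. -/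
theorem case_one {H D α β : ℕ} {p q : ℝ} (h : Cl α β p q) (hH : 2 ≤ H) (hD : 50 ≤ D) (z : ℤ × ℤ × ℤ)
    (hz : Sol H α β z) (hA : z.1 ≠ 0) (E : PowerSeries ℤ) (hE : Ser H z.1 ((α : ℤ) * β * F α β z) E)
    (c : ℕ → ℕ → ℕ → ℤ) (h0 : ∀ m k j, 20 * D < j + k → c m k j = 0)
    (hc : ∀ m k j, |(c m k j : ℝ)| ≤ (10 * (H : ℝ)) ^ (2100 * D)) (w : ℕ → ℤ)
    (hw : ∃ N, ∑ i : Fin 3, (w (i : ℕ) : ℝ) * Yc z.1 β p E (c (i : ℕ)) N ≠ 0)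
    (hW : (10 * (H : ℝ)) ^ 200000 ≤ (z.2.1 : ℝ) * p) (N : ℕ) (hN : D + 16 ≤ 8 * N)
    (Q : MvPolynomial (Fin 2) ℤ)
    (hQ : ∀ a v : ℂ, Gc α β z.1 z.2.1 (F α β z) a v = 0 → Ap α z.1 z.2.1 z.2.2 a v ^ N *
      MvPolynomial.aeval ![a, v] (Pol (20 * D) z.2.1 c w) =
        (a - z.1) ^ N * MvPolynomial.aeval ![a, v] Q) : False := by
  have hH1 : 1 ≤ H := by omega
  have hp1 : 1 ≤ p := (cl_p h).1
  have hp0 : 0 < p := by linarith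
  have hab : α * β ≤ H ^ 3 := (wsize h hH1 z hz).2.2.2.2
  have hAH : |z.1| ≤ (H : ℤ) := hz.1
  have h10 : (1 : ℝ) ≤ 10 * (H : ℝ) := by
    have : (2 : ℝ) ≤ H := by exact_mod_cast hH
    linarith
  have hW10 : (10 * (H : ℝ)) ^ 10 ≤ (z.2.1 : ℝ) * p :=
    (pow_le_pow_right₀ h10 (by norm_num)).trans hW
  obtain ⟨W, hWd⟩ : ∃ W : ℝ, W = (z.2.1 : ℝ) * p := ⟨_, rfl⟩
  have hW0 : 0 < W := by
    rw [hWd]
    exact lt_of_lt_of_le (by positivity) hW10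
  have hWc : (W : ℂ) ≠ 0 := by exact_mod_cast hW0.ne'
  have hpc : (p : ℂ) ≠ 0 := by exact_mod_cast hp0.ne'
  have hAc : (z.1 : ℂ) ≠ 0 := by exact_mod_cast hA
  have hEk : ∀ k < 3, ∀ n, |(PowerSeries.coeff n (E ^ k) : ℤ)| ≤ 9 * (2000 * (H : ℤ)) ^ n :=
    fun k hk n => ser_pow hE hH1 k hk n
  -- the analytic functions
  let a : ℂ → ℂ := fun ω => 9 * (z.1 : ℂ) * (W : ℂ) * ω
  let v : ℂ → ℂ := fun ω => (W : ℂ) * eta E ω / (q : ℂ)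
  have hbr : ∀ ω : ℂ, ‖ω‖ * (10 ^ 5 * (H : ℝ)) ≤ 1 →
      Gc α β z.1 z.2.1 (F α β z) (a ω) (v ω) = 0 := by
    intro ω hω
    have := branch h hH1 z E hE ω hω
    simpa only [a, v, hWd] using this
  have hap : ∀ ω : ℂ, ‖ω‖ * (10 ^ 5 * (H : ℝ)) ≤ 1 → Ap α z.1 z.2.1 z.2.2 (a ω) (v ω) ≠ 0 := by
    intro ω hω
    have := (Ap_bd h hH1 z hz hA hW10 E hE ω hω).1
    simpa only [a, v, hWd] using this
  have hpe : ∀ ω : ℂ, MvPolynomial.aeval ![a ω, v ω] (Pol (20 * D) z.2.1 c w) =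
      ((W ^ (20 * D) / p ^ (20 * D + 2) : ℝ) : ℂ) *
        ∑ m ∈ Finset.range 3, (w m : ℂ) * Yf (20 * D) z.1 β p E (c m) ω := by
    intro ω
    have := Pol_eval h z.1 z.2.1 E c h0 w ω
    simpa only [a, v, hWd] using this
  have hball : ∀ ω ∈ Metric.ball (0 : ℂ) (1 / (10 * (H : ℝ)) ^ 5), ‖ω‖ * (10 ^ 5 * (H : ℝ)) ≤ 1 :=
    fun ω hω => c1_ball hH hω
  have hsub : Metric.ball (0 : ℂ) (1 / (10 * (H : ℝ)) ^ 5) ⊆
      Metric.ball 0 (1 / (10 ^ 5 * (H : ℝ))) := by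
    apply Metric.ball_subset_ball
    have h2 : (2 : ℝ) ≤ H := by exact_mod_cast hH
    apply one_div_le_one_div_of_le (by positivity)
    rw [mul_pow]
    have : (H : ℝ) ≤ (H : ℝ) ^ 5 := le_self_pow₀ (by linarith) (by norm_num)
    nlinarith
  have had : DifferentiableOn ℂ a (Metric.ball (0 : ℂ) (1 / (10 * (H : ℝ)) ^ 5)) :=
    (differentiableOn_const _).mul differentiableOn_id
  have hvd : DifferentiableOn ℂ v (Metric.ball (0 : ℂ) (1 / (10 * (H : ℝ)) ^ 5)) :=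
    (((differentiableOn_const _).mul ((eta_diff hE hH1).mono hsub))).div_const _
  let k : ℂ → ℂ := fun ω => ((p ^ (20 * D + 2) / W ^ (20 * D) : ℝ) : ℂ) *
    (9 * (z.1 : ℂ) * (W : ℂ)) ^ N * MvPolynomial.aeval ![a ω, v ω] Q /
      (Ap α z.1 z.2.1 z.2.2 (a ω) (v ω)) ^ N
  have hk : DifferentiableOn ℂ k (Metric.ball 0 (1 / (10 * (H : ℝ)) ^ 5)) := by
    refine DifferentiableOn.div ?_ ?_ ?_
    · exact (differentiableOn_const _).mul (c1_aeval_diff Q a v _ had hvd)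
    · refine DifferentiableOn.pow ?_ N
      unfold Ap
      refine (differentiableOn_const _).mul (((differentiableOn_const _).mul ?_).sub
        (had.mul (differentiableOn_const _)))
      exact ((hvd.pow 2).add (hvd.mul (differentiableOn_const _))).add (differentiableOn_const _)
    · intro ω hω
      exact pow_ne_zero _ (hap ω (hball ω hω))
  refine zero_estimate (D := D) h hH hD hab (fun i => Yc z.1 β p E (c (i : ℕ)))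
    (fun i M => Yc_Z3 h hH (by omega) hab z.1 hAH E hEk (c (i : ℕ)) (h0 _) (hc _) M)
    (fun g hg => Yc_ord hE hz.2.2.2.1 β p c h0 g hg)
    (fun i => (w (i : ℕ) : ℝ)) hw W (by rw [hWd]; exact hW) N hN k hk ?_
  intro ω hω
  have hω' := hball ω hω
  have hY : ∀ i : Fin 3, Ff (Yc z.1 β p E (c (i : ℕ))) 0 ω = Yf (20 * D) z.1 β p E (c (i : ℕ)) ω := by
    intro i
    unfold Ff
    simp only [pow_zero, one_mul]
    exact (Yf_hasSum hE hH1 β p (c (i : ℕ)) (h0 _) ω hω').tsum_eq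
  have e1 : ∑ i : Fin 3, (((w (i : ℕ) : ℝ)) : ℂ) * Ff (Yc z.1 β p E (c (i : ℕ))) 0 ω =
      ∑ m ∈ Finset.range 3, (w m : ℂ) * Yf (20 * D) z.1 β p E (c m) ω := by
    rw [Finset.sum_range]
    refine Finset.sum_congr rfl fun i _ => ?_
    rw [hY i]
    push_cast
    rfl
  rw [e1]
  have e2 := hQ (a ω) (v ω) (hbr ω hω')
  rw [hpe ω] at e2
  obtain ⟨S, hS⟩ : ∃ S, S = ∑ m ∈ Finset.range 3, (w m : ℂ) * Yf (20 * D) z.1 β p E (c m) ω := ⟨_, rfl⟩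
  rw [← hS] at e2 ⊢
  have hapN : (Ap α z.1 z.2.1 z.2.2 (a ω) (v ω)) ^ N ≠ 0 := pow_ne_zero _ (hap ω hω')
  have e3 : a ω - z.1 = (9 * (z.1 : ℂ) * (W : ℂ)) * (ω - ((1 / (9 * W) : ℝ) : ℂ)) := by
    simp only [a]
    push_cast
    field_simp
  rw [e3, mul_pow] at e2
  have hWN : ((W : ℂ)) ^ (20 * D) ≠ 0 := pow_ne_zero _ hWc
  have hpN : ((p : ℂ)) ^ (20 * D + 2) ≠ 0 := pow_ne_zero _ hpc
  simp only [k]
  push_cast at e2 ⊢
  rw [eq_comm, ← mul_div_assoc, div_eq_iff hapN]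
  have e4 : S = (p : ℂ) ^ (20 * D + 2) / (W : ℂ) ^ (20 * D) * ((W : ℂ) ^ (20 * D) / (p : ℂ) ^ (20 * D + 2) * S) := by
    field_simp
  calc (ω - 1 / (9 * (W : ℂ))) ^ N * ((p : ℂ) ^ (20 * D + 2) / (W : ℂ) ^ (20 * D) *
        (9 * (z.1 : ℂ) * (W : ℂ)) ^ N * MvPolynomial.aeval ![a ω, v ω] Q)
      = (p : ℂ) ^ (20 * D + 2) / (W : ℂ) ^ (20 * D) * ((9 * (z.1 : ℂ) * (W : ℂ)) ^ N *
          (ω - 1 / (9 * (W : ℂ))) ^ N * MvPolynomial.aeval ![a ω, v ω] Q) := by ring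
    _ = (p : ℂ) ^ (20 * D + 2) / (W : ℂ) ^ (20 * D) * (Ap α z.1 z.2.1 z.2.2 (a ω) (v ω) ^ N *
          ((W : ℂ) ^ (20 * D) / (p : ℂ) ^ (20 * D + 2) * S)) := by rw [e2]
    _ = S * Ap α z.1 z.2.1 z.2.2 (a ω) (v ω) ^ N := by
        conv_rhs => rw [e4]
        ring

end U44
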