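import Pool.Agent.LibU44.Defs

namespace U44

/-- Row ZA1. Tail bound. -/
theorem tail (t : ℕ → ℝ) (M b : ℝ) (hM : 0 ≤ M) (hb : 0 < b) (ht : ∀ n, |t n| ≤ M * b ^ n) (n₀ : ℕ)
    (h0 : ∀ n < n₀, t n = 0) (ω : ℂ) (hω : ‖ω‖ * b ≤ 1 / 2) :
    ‖∑' n : ℕ, ((t n : ℝ) : ℂ) * ω ^ n‖ ≤ 2 * M * (b * ‖ω‖) ^ n₀ := by
  set r : ℝ := b * ‖ω‖ with hr
  have hr0 : 0 ≤ r := by positivity
  have hr1 : r ≤ 1 / 2 := by rw [hr, mul_comm]; exact hω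
  have hbd : ∀ n, ‖((t n : ℝ) : ℂ) * ω ^ n‖ ≤ M * r ^ n := by
    intro n
    rw [norm_mul, norm_pow, Complex.norm_real, Real.norm_eq_abs, hr, mul_pow, ← mul_assoc]
    exact mul_le_mul_of_nonneg_right (ht n) (by positivity)
  have hgeo : Summable (fun n : ℕ => M * r ^ n) :=
    (summable_geometric_of_lt_one hr0 (by linarith)).mul_left M
  have hsum : Summable (fun n : ℕ => ((t n : ℝ) : ℂ) * ω ^ n) := Summable.of_norm_bounded hgeo hbd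
  rw [← hsum.sum_add_tsum_nat_add n₀]
  have hz : ∑ i ∈ Finset.range n₀, ((t i : ℝ) : ℂ) * ω ^ i = 0 := by
    refine Finset.sum_eq_zero fun i hi => ?_
    rw [h0 i (Finset.mem_range.1 hi)]; simp
  rw [hz, zero_add]
  have hgeo2 : HasSum (fun n : ℕ => M * r ^ n₀ * r ^ n) (M * r ^ n₀ * (1 - r)⁻¹) :=
    (hasSum_geometric_of_lt_one hr0 (by linarith)).mul_left _
  have h1 : ‖∑' n : ℕ, ((t (n + n₀) : ℝ) : ℂ) * ω ^ (n + n₀)‖ ≤ M * r ^ n₀ * (1 - r)⁻¹ := by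
    refine tsum_of_norm_bounded hgeo2 fun n => ?_
    refine (hbd (n + n₀)).trans (le_of_eq ?_)
    rw [pow_add]; ring
  refine h1.trans ?_
  have h2 : (1 - r)⁻¹ ≤ 2 := by
    rw [inv_le_comm₀ (by linarith) (by norm_num)]; linarith
  have h3 : 0 ≤ M * r ^ n₀ := by positivity
  nlinarith

end U44
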