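import Pool.Agent.LibU44.YB
import Pool.Agent.LibU44.PT3
import Pool.Agent.LibU44.EV
import Pool.Agent.LibU44.ZA1

namespace U44
open T44

theorem c2a_fin {D : ℕ} (hD : 50 ≤ D) {X W W2 s T a b : ℝ} (hX : 20 ≤ X) (hW : 1 ≤ W)
    (hs : 0 ≤ s) (hsW : s * W ≤ X ^ 4) (hW3 : W2 ≤ W ^ (11 * D + 11))
    (_ha0 : 0 ≤ a) (ha : 2 * a ≤ X) (hb : 2 * b * W ^ (22 * D) ≤ X ^ 6)
    (hT : T ≤ 3 * W2 * (2 * X ^ (2200 * D + 7) * s ^ (33 * D)) +
      a * (2 * X ^ (2200 * D + 8) * s ^ (22 * D)) + b * (2 * X ^ (2200 * D + 4))) :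
    T * W ^ (22 * D) ≤ X ^ (2360 * D) * W ^ 11 := by
  have hX0 : 0 < X := by linarith
  have hX1 : 1 ≤ X := by linarith
  have hW0 : 0 < W := by linarith
  have hsW0 : 0 ≤ s * W := mul_nonneg hs hW0.le
  have A1 : W2 * s ^ (33 * D) * W ^ (22 * D) ≤ W ^ 11 * X ^ (132 * D) := by
    calc W2 * s ^ (33 * D) * W ^ (22 * D) ≤ W ^ (11 * D + 11) * s ^ (33 * D) * W ^ (22 * D) :=
          mul_le_mul_of_nonneg_right (mul_le_mul_of_nonneg_right hW3 (by positivity))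
            (by positivity)
      _ = W ^ 11 * (s * W) ^ (33 * D) := by
          rw [mul_pow, pow_add, show 33 * D = 11 * D + 22 * D by ring, pow_add W, pow_add s]
          ring
      _ ≤ W ^ 11 * (X ^ 4) ^ (33 * D) :=
          mul_le_mul_of_nonneg_left (pow_le_pow_left₀ hsW0 hsW _) (by positivity)
      _ = W ^ 11 * X ^ (132 * D) := by
          rw [← pow_mul, show 4 * (33 * D) = 132 * D by ring]
  have A2 : s ^ (22 * D) * W ^ (22 * D) ≤ X ^ (88 * D) := by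
    rw [← mul_pow]
    refine (pow_le_pow_left₀ hsW0 hsW _).trans (le_of_eq ?_)
    rw [← pow_mul, show 4 * (22 * D) = 88 * D by ring]
  have hWp : 0 ≤ W ^ (22 * D) := by positivity
  have B1 : 3 * W2 * (2 * X ^ (2200 * D + 7) * s ^ (33 * D)) * W ^ (22 * D) ≤
      6 * X ^ (2332 * D + 7) * W ^ 11 := by
    calc _ = 6 * X ^ (2200 * D + 7) * (W2 * s ^ (33 * D) * W ^ (22 * D)) := by ring
      _ ≤ 6 * X ^ (2200 * D + 7) * (W ^ 11 * X ^ (132 * D)) :=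
          mul_le_mul_of_nonneg_left A1 (by positivity)
      _ = 6 * X ^ (2332 * D + 7) * W ^ 11 := by
          rw [show 2332 * D + 7 = (2200 * D + 7) + 132 * D by ring, pow_add]
          ring
  have B2 : a * (2 * X ^ (2200 * D + 8) * s ^ (22 * D)) * W ^ (22 * D) ≤ X ^ (2288 * D + 9) := by
    calc _ = (2 * a) * (X ^ (2200 * D + 8) * (s ^ (22 * D) * W ^ (22 * D))) := by ring
      _ ≤ X * (X ^ (2200 * D + 8) * X ^ (88 * D)) := by
          refine mul_le_mul ha (mul_le_mul_of_nonneg_left A2 (by positivity)) (by positivity)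
            hX0.le
      _ = X ^ (2288 * D + 9) := by
          rw [show 2288 * D + 9 = 1 + ((2200 * D + 8) + 88 * D) by ring, pow_add X 1, pow_one,
            pow_add X (2200 * D + 8)]
  have B3 : b * (2 * X ^ (2200 * D + 4)) * W ^ (22 * D) ≤ X ^ (2200 * D + 10) := by
    calc _ = (2 * b * W ^ (22 * D)) * X ^ (2200 * D + 4) := by ring
      _ ≤ X ^ 6 * X ^ (2200 * D + 4) := mul_le_mul_of_nonneg_right hb (by positivity)
      _ = X ^ (2200 * D + 10) := by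
          rw [← pow_add, show 6 + (2200 * D + 4) = 2200 * D + 10 by ring]
  have hW11 : 1 ≤ W ^ 11 := one_le_pow₀ hW
  have C2 : X ^ (2288 * D + 9) ≤ X ^ (2332 * D + 7) * W ^ 11 :=
    (pow_le_pow_right₀ hX1 (by omega)).trans (le_mul_of_one_le_right (by positivity) hW11)
  have C3 : X ^ (2200 * D + 10) ≤ X ^ (2332 * D + 7) * W ^ 11 :=
    (pow_le_pow_right₀ hX1 (by omega)).trans (le_mul_of_one_le_right (by positivity) hW11)
  have C4 : 8 * X ^ (2332 * D + 7) ≤ X ^ (2360 * D) := by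
    calc 8 * X ^ (2332 * D + 7) ≤ X * X ^ (2332 * D + 7) :=
          mul_le_mul_of_nonneg_right (by linarith) (by positivity)
      _ = X ^ (2332 * D + 8) := by rw [← pow_succ']
      _ ≤ X ^ (2360 * D) := pow_le_pow_right₀ hX1 (by omega)
  have C5 : 8 * X ^ (2332 * D + 7) * W ^ 11 ≤ X ^ (2360 * D) * W ^ 11 :=
    mul_le_mul_of_nonneg_right C4 (by positivity)
  calc T * W ^ (22 * D) ≤ (3 * W2 * (2 * X ^ (2200 * D + 7) * s ^ (33 * D)) +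
      a * (2 * X ^ (2200 * D + 8) * s ^ (22 * D)) + b * (2 * X ^ (2200 * D + 4))) *
        W ^ (22 * D) := mul_le_mul_of_nonneg_right hT hWp
    _ ≤ X ^ (2360 * D) * W ^ 11 := by
        rw [add_mul, add_mul]
        linarith

/-- Row C2a (smallness). `h = 10H`. `Y_m := Yf (c m) ω`. By `u₂ = W₂/p`, `v₂ = β(W₂ + (a₂-ξ₂)/3)/p²`:
`3p² ∑ w_m Y_m = 3W₂ (pY₁ + βY₂) + a₂(3p²Y₀ + βY₂) - ξ₂βY₂`. Coefficients of `Yc`: `≤ 3p²h^(2200D+3N) ≤ h^(2204D)(h³)^N` (`Yc_Z3`, `Z3_abs`),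
`tail` with `b = h³`, `b‖ω‖ ≤ h⁴/W₁`: `|pY₁+βY₂| ≤ 2h^(2208D)(h⁴/W₁)^(33D)`, `|3p²Y₀+βY₂| ≤ 2h^(2209D)(h⁴/W₁)^(22D)`, `|Y₂| ≤ 2h^(2204D)`,
`|ξ₂| ≤ 5H³/S₂²`, `S₂ ≥ W₂ ≥ W₁^(11D)`, `W₂ ≤ W₁^(11D+11)`; `Pol_eval`: total
`≤ W₁^(20D)·(6h^(2340D)W₁^(11-22D) + 2h^(2298D)W₁^(-22D) + 10 h^(2210D) W₁^(-22D))`. -/
theorem small_value {H D α β : ℕ} {p q : ℝ} (h : Cl α β p q) (hH : 2 ≤ H) (hD : 50 ≤ D) (z z₂ : ℤ × ℤ × ℤ)
    (hz : Sol H α β z) (hz₂ : Sol H α β z₂) (hA : z.1 ≠ 0) (E : PowerSeries ℤ)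
    (hE : Ser H z.1 ((α : ℤ) * β * F α β z) E)
    (c : ℕ → ℕ → ℕ → ℤ) (h0 : ∀ m k j, 20 * D < j + k → c m k j = 0)
    (hc : ∀ m k j, |(c m k j : ℝ)| ≤ (10 * (H : ℝ)) ^ (2100 * D))
    (hv0 : ∀ N < 33 * D, p * Yc z.1 β p E (c 1) N + β * Yc z.1 β p E (c 2) N = 0)
    (hv1 : ∀ N < 22 * D, 3 * p ^ 2 * Yc z.1 β p E (c 0) N + β * Yc z.1 β p E (c 2) N = 0)
    (w : ℕ → ℤ) (hw0 : w 0 = z₂.1) (hw1 : w 1 = z₂.2.1) (hw2 : w 2 = z₂.2.2)
    (hW : (10 * (H : ℝ)) ^ 200000 ≤ (z.2.1 : ℝ) * p)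
    (hW2 : ((z.2.1 : ℝ) * p) ^ (11 * D) ≤ (z₂.2.1 : ℝ) * p)
    (hW3 : (z₂.2.1 : ℝ) * p ≤ ((z.2.1 : ℝ) * p) ^ (11 * D + 11)) (ω : ℂ)
    (hω : ‖ω‖ * ((z.2.1 : ℝ) * p) ≤ 10 * H) :
    ‖MvPolynomial.aeval ![9 * (z.1 : ℂ) * (((z.2.1 : ℝ) * p : ℝ) : ℂ) * ω,
      (((z.2.1 : ℝ) * p : ℝ) : ℂ) * eta E ω / (q : ℂ)] (Pol (20 * D) z.2.1 c w)‖ *
      ((z.2.1 : ℝ) * p) ^ (2 * D) ≤ (10 * (H : ℝ)) ^ (2360 * D) * ((z.2.1 : ℝ) * p) ^ 11 := by
  have hH1 : 1 ≤ H := by omega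
  have hHr : (2 : ℝ) ≤ H := by exact_mod_cast hH
  have hH0 : (0 : ℝ) < H := by linarith
  obtain ⟨hp1, -, -, hcl⟩ := cl_p h
  have hp0 : 0 < p := by linarith
  have hp2 : p ^ 2 = β * q := h.2.2.2.2.2.2.2.2.1
  have habH : α * β ≤ H ^ 3 := by
    have h1 := hz.2.2.1
    have h2 : 1 ≤ |F α β z| := Int.one_le_abs hz.2.1
    have h3 : (0 : ℤ) ≤ (α : ℤ) * β := by positivity
    have h4 : (α : ℤ) * β ≤ (H : ℤ) ^ 3 := by nlinarith
    exact_mod_cast h4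
  obtain ⟨-, hpH, hβH⟩ := hcl H habH
  have hβr : (β : ℝ) ≤ (H : ℝ) ^ 3 := by exact_mod_cast hβH
  have hβ0 : (0 : ℝ) ≤ β := Nat.cast_nonneg _
  set X : ℝ := 10 * (H : ℝ) with hX
  have hX20 : 20 ≤ X := by linarith
  have hX0 : 0 < X := by linarith
  have hX1 : 1 ≤ X := by linarith
  set W : ℝ := (z.2.1 : ℝ) * p with hWdef
  have hX6W : X ^ 6 ≤ W := (pow_le_pow_right₀ hX1 (by norm_num)).trans hW
  have hW1 : 1 ≤ W := (one_le_pow₀ hX1).trans hX6W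
  have hW0 : 0 < W := by linarith
  have hn : 0 ≤ ‖ω‖ := norm_nonneg _
  have hω5 : ‖ω‖ * X ^ 5 ≤ 1 := by
    have h1 : ‖ω‖ * X ^ 5 * W ≤ 1 * W := by
      calc ‖ω‖ * X ^ 5 * W = ‖ω‖ * W * X ^ 5 := by ring
        _ ≤ X * X ^ 5 := mul_le_mul_of_nonneg_right hω (by positivity)
        _ = X ^ 6 := by ring
        _ ≤ 1 * W := by rw [one_mul]; exact hX6W
    exact le_of_mul_le_mul_right h1 hW0
  have hω1 : ‖ω‖ * (10 ^ 5 * (H : ℝ)) ≤ 1 := by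
    refine le_trans (mul_le_mul_of_nonneg_left ?_ hn) hω5
    have h1 : (20 : ℝ) ^ 4 ≤ X ^ 4 := pow_le_pow_left₀ (by norm_num) hX20 4
    calc (10 : ℝ) ^ 5 * H = 10 ^ 4 * X := by rw [hX]; ring
      _ ≤ X ^ 4 * X := mul_le_mul_of_nonneg_right (by linarith) hX0.le
      _ = X ^ 5 := by ring
  have hω2 : ‖ω‖ * X ^ 3 ≤ 1 / 2 := by
    have h1 : 2 * (‖ω‖ * X ^ 3) ≤ ‖ω‖ * X ^ 5 := by
      have h2 : 2 * X ^ 3 ≤ X ^ 5 := by
        have h3 : 2 ≤ X ^ 2 := by nlinarith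
        calc 2 * X ^ 3 ≤ X ^ 2 * X ^ 3 := mul_le_mul_of_nonneg_right h3 (by positivity)
          _ = X ^ 5 := by ring
      calc 2 * (‖ω‖ * X ^ 3) = ‖ω‖ * (2 * X ^ 3) := by ring
        _ ≤ ‖ω‖ * X ^ 5 := mul_le_mul_of_nonneg_left h2 hn
    linarith
  have hAH : |z.1| ≤ (H : ℤ) := hz.1
  -- coefficients
  have hYc : ∀ m N, |Yc z.1 β p E (c m) N| ≤ X ^ (2200 * D + 4) * (X ^ 3) ^ N := by
    intro m N
    have h1 := Yc_Z3 h hH (by omega : 1 ≤ D) habH z.1 hAH E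
      (fun k hk n => ser_pow hE hH1 k hk n) (c m) (h0 m) (hc m) N
    refine (Z3_abs hp1 h1).trans ?_
    have h2 : p ^ 2 ≤ (H : ℝ) ^ 4 := by
      calc p ^ 2 ≤ ((H : ℝ) ^ 2) ^ 2 := pow_le_pow_left₀ hp0.le hpH 2
        _ = (H : ℝ) ^ 4 := by ring
    have h3 : 3 * p ^ 2 ≤ X ^ 4 := by
      have : X ^ 4 = 10000 * (H : ℝ) ^ 4 := by rw [hX]; ring
      rw [this]
      have : 0 ≤ (H : ℝ) ^ 4 := by positivity
      linarith
    calc 3 * X ^ (2200 * D + 3 * N) * p ^ 2 = (3 * p ^ 2) * X ^ (2200 * D + 3 * N) := by ring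
      _ ≤ X ^ 4 * X ^ (2200 * D + 3 * N) := mul_le_mul_of_nonneg_right h3 (by positivity)
      _ = X ^ (2200 * D + 4) * (X ^ 3) ^ N := by
          rw [← pow_mul, ← pow_add, ← pow_add]
          congr 1
          ring
  have hsum : ∀ m, HasSum (fun N : ℕ => ((Yc z.1 β p E (c m) N : ℝ) : ℂ) * ω ^ N)
      (Yf (20 * D) z.1 β p E (c m) ω) := fun m =>
    Yf_hasSum hE hH1 β p (c m) (h0 m) ω hω1
  set Y : ℕ → ℂ := fun m => Yf (20 * D) z.1 β p E (c m) ω with hY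
  have hs0 : 0 ≤ X ^ 3 * ‖ω‖ := by positivity
  have hpH3 : p + β ≤ X ^ 3 := by
    have : X ^ 3 = 1000 * (H : ℝ) ^ 3 := by rw [hX]; ring
    rw [this]
    have h2 : (H : ℝ) ^ 2 ≤ (H : ℝ) ^ 3 := pow_le_pow_right₀ (by linarith) (by norm_num)
    have : 0 ≤ (H : ℝ) ^ 3 := by positivity
    linarith
  have hpH4 : 3 * p ^ 2 + β ≤ X ^ 4 := by
    have : X ^ 4 = 10000 * (H : ℝ) ^ 4 := by rw [hX]; ring
    rw [this]
    have h2 : (H : ℝ) ^ 3 ≤ (H : ℝ) ^ 4 := pow_le_pow_right₀ (by linarith) (by norm_num)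
    have h3 : p ^ 2 ≤ (H : ℝ) ^ 4 := by
      calc p ^ 2 ≤ ((H : ℝ) ^ 2) ^ 2 := pow_le_pow_left₀ hp0.le hpH 2
        _ = (H : ℝ) ^ 4 := by ring
    have : 0 ≤ (H : ℝ) ^ 4 := by positivity
    linarith
  have T1 : ‖(p : ℂ) * Y 1 + β * Y 2‖ ≤
      2 * X ^ (2200 * D + 7) * (X ^ 3 * ‖ω‖) ^ (33 * D) := by
    have e1 : HasSum (fun N : ℕ =>
        ((p * Yc z.1 β p E (c 1) N + β * Yc z.1 β p E (c 2) N : ℝ) : ℂ) * ω ^ N)
        ((p : ℂ) * Y 1 + β * Y 2) := by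
      have h3 := ((hsum 1).mul_left (p : ℂ)).add ((hsum 2).mul_left (β : ℂ))
      have e2 : (fun N : ℕ =>
          ((p * Yc z.1 β p E (c 1) N + β * Yc z.1 β p E (c 2) N : ℝ) : ℂ) * ω ^ N) =
          fun N : ℕ => (p : ℂ) * (((Yc z.1 β p E (c 1) N : ℝ) : ℂ) * ω ^ N) +
            (β : ℂ) * (((Yc z.1 β p E (c 2) N : ℝ) : ℂ) * ω ^ N) := by
        funext N
        push_cast
        ring
      rw [e2]
      exact h3
    rw [← e1.tsum_eq]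
    refine tail _ _ (X ^ 3) (by positivity) (by positivity) (fun N => ?_) (33 * D) hv0 ω hω2
    have g1 := hYc 1 N
    have g2 := hYc 2 N
    calc |p * Yc z.1 β p E (c 1) N + β * Yc z.1 β p E (c 2) N| ≤
        p * |Yc z.1 β p E (c 1) N| + β * |Yc z.1 β p E (c 2) N| := by
          refine (abs_add_le _ _).trans ?_
          rw [abs_mul p, abs_mul (β : ℝ), abs_of_pos hp0, abs_of_nonneg hβ0]
      _ ≤ p * (X ^ (2200 * D + 4) * (X ^ 3) ^ N) + β * (X ^ (2200 * D + 4) * (X ^ 3) ^ N) :=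
          add_le_add (mul_le_mul_of_nonneg_left g1 hp0.le) (mul_le_mul_of_nonneg_left g2 hβ0)
      _ = (p + β) * (X ^ (2200 * D + 4) * (X ^ 3) ^ N) := by ring
      _ ≤ X ^ 3 * (X ^ (2200 * D + 4) * (X ^ 3) ^ N) :=
          mul_le_mul_of_nonneg_right hpH3 (by positivity)
      _ = X ^ (2200 * D + 7) * (X ^ 3) ^ N := by
          rw [← mul_assoc, ← pow_add, show 3 + (2200 * D + 4) = 2200 * D + 7 by ring]
  have T2 : ‖3 * (p : ℂ) ^ 2 * Y 0 + β * Y 2‖ ≤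
      2 * X ^ (2200 * D + 8) * (X ^ 3 * ‖ω‖) ^ (22 * D) := by
    have e1 : HasSum (fun N : ℕ =>
        ((3 * p ^ 2 * Yc z.1 β p E (c 0) N + β * Yc z.1 β p E (c 2) N : ℝ) : ℂ) * ω ^ N)
        (3 * (p : ℂ) ^ 2 * Y 0 + β * Y 2) := by
      have h3 := ((hsum 0).mul_left (3 * (p : ℂ) ^ 2)).add ((hsum 2).mul_left (β : ℂ))
      have e2 : (fun N : ℕ =>
          ((3 * p ^ 2 * Yc z.1 β p E (c 0) N + β * Yc z.1 β p E (c 2) N : ℝ) : ℂ) * ω ^ N) =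
          fun N : ℕ => 3 * (p : ℂ) ^ 2 * (((Yc z.1 β p E (c 0) N : ℝ) : ℂ) * ω ^ N) +
            (β : ℂ) * (((Yc z.1 β p E (c 2) N : ℝ) : ℂ) * ω ^ N) := by
        funext N
        push_cast
        ring
      rw [e2]
      exact h3
    rw [← e1.tsum_eq]
    refine tail _ _ (X ^ 3) (by positivity) (by positivity) (fun N => ?_) (22 * D) hv1 ω hω2
    have g1 := hYc 0 N
    have g2 := hYc 2 N
    calc |3 * p ^ 2 * Yc z.1 β p E (c 0) N + β * Yc z.1 β p E (c 2) N| ≤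
        3 * p ^ 2 * |Yc z.1 β p E (c 0) N| + β * |Yc z.1 β p E (c 2) N| := by
          refine (abs_add_le _ _).trans ?_
          rw [abs_mul (3 * p ^ 2), abs_mul (β : ℝ),
            abs_of_nonneg (by positivity : (0 : ℝ) ≤ 3 * p ^ 2), abs_of_nonneg hβ0]
      _ ≤ 3 * p ^ 2 * (X ^ (2200 * D + 4) * (X ^ 3) ^ N) +
          β * (X ^ (2200 * D + 4) * (X ^ 3) ^ N) :=
          add_le_add (mul_le_mul_of_nonneg_left g1 (by positivity))
            (mul_le_mul_of_nonneg_left g2 hβ0)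
      _ = (3 * p ^ 2 + β) * (X ^ (2200 * D + 4) * (X ^ 3) ^ N) := by ring
      _ ≤ X ^ 4 * (X ^ (2200 * D + 4) * (X ^ 3) ^ N) :=
          mul_le_mul_of_nonneg_right hpH4 (by positivity)
      _ = X ^ (2200 * D + 8) * (X ^ 3) ^ N := by
          rw [← mul_assoc, ← pow_add, show 4 + (2200 * D + 4) = 2200 * D + 8 by ring]
  have T3 : ‖Y 2‖ ≤ 2 * X ^ (2200 * D + 4) := by
    have h1 := tail _ (X ^ (2200 * D + 4)) (X ^ 3) (by positivity) (by positivity)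
      (fun N => hYc 2 N) 0 (fun n hn => absurd hn (Nat.not_lt_zero _)) ω hω2
    rw [(hsum 2).tsum_eq, pow_zero, mul_one] at h1
    exact h1
  -- the second solution
  set W2 : ℝ := (z₂.2.1 : ℝ) * p with hW2def
  obtain ⟨-, hxi, -, hdD, -, -⟩ := size h hH1 z₂ hz₂
  set ξ : ℝ := xX p q z₂ with hξ
  have hWW2 : W ≤ W2 := by
    refine le_trans ?_ hW2
    calc W = W ^ 1 := (pow_one W).symm
      _ ≤ W ^ (11 * D) := pow_le_pow_right₀ hW1 (by omega)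
  have hW20 : 0 < W2 := by linarith
  have hXW : X ≤ W := by
    refine le_trans ?_ hX6W
    calc X = X ^ 1 := (pow_one X).symm
      _ ≤ X ^ 6 := pow_le_pow_right₀ hX1 (by norm_num)
  have hS2 : W2 ≤ sS p q z₂ := by
    have h1 := (abs_le.1 (le_trans (le_of_eq rfl) (show |dD p q z₂| ≤ (H + 1 / 25) / 3 by
      linarith))).1
    unfold dD at h1
    unfold sS
    have : (z₂.2.1 : ℝ) * p = W2 := rfl
    linarith
  have hξW : |ξ| * W ^ (22 * D) ≤ 5 * (H : ℝ) ^ 3 := by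
    refine le_trans (mul_le_mul_of_nonneg_left ?_ (abs_nonneg _)) hxi
    calc W ^ (22 * D) = (W ^ (11 * D)) ^ 2 := by rw [← pow_mul]; congr 1; ring
      _ ≤ W2 ^ 2 := pow_le_pow_left₀ (by positivity) hW2 2
      _ ≤ sS p q z₂ ^ 2 := pow_le_pow_left₀ hW20.le hS2 2
  have ha2 : |(z₂.1 : ℝ)| ≤ H := by
    have := hz₂.1
    exact_mod_cast this
  set T : ℝ := ‖∑ m ∈ Finset.range 3, (w m : ℂ) * Y m‖ with hT
  have hT0 : 0 ≤ T := norm_nonneg _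
  have hid : 3 * (p : ℂ) ^ 2 * ∑ m ∈ Finset.range 3, (w m : ℂ) * Y m =
      3 * (W2 : ℂ) * (p * Y 1 + β * Y 2) + (z₂.1 : ℂ) * (3 * (p : ℂ) ^ 2 * Y 0 + β * Y 2) -
        (ξ : ℂ) * β * Y 2 := by
    have e1 : (p : ℂ) ^ 2 = β * q := by exact_mod_cast congrArg (fun x : ℝ => (x : ℂ)) hp2
    rw [Finset.sum_range_succ, Finset.sum_range_succ, Finset.sum_range_succ,
      Finset.sum_range_zero, hw0, hw1, hw2, hξ, hW2def, xX, dD]
    push_cast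
    linear_combination (3 * (z₂.2.2 : ℂ) * Y 2) * e1
  have hTb : T ≤ 3 * W2 * (2 * X ^ (2200 * D + 7) * (X ^ 3 * ‖ω‖) ^ (33 * D)) +
      H * (2 * X ^ (2200 * D + 8) * (X ^ 3 * ‖ω‖) ^ (22 * D)) +
      |ξ| * β * (2 * X ^ (2200 * D + 4)) := by
    have h1 : T ≤ 3 * p ^ 2 * T := by
      have : 1 ≤ 3 * p ^ 2 := by nlinarith
      exact le_mul_of_one_le_left hT0 this
    have h2 : 3 * p ^ 2 * T = ‖3 * (p : ℂ) ^ 2 * ∑ m ∈ Finset.range 3, (w m : ℂ) * Y m‖ := by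
      rw [norm_mul, norm_mul, norm_pow, Complex.norm_real, Real.norm_of_nonneg hp0.le,
        Complex.norm_ofNat]
    rw [h2, hid] at h1
    refine h1.trans ((norm_sub_le _ _).trans (add_le_add ((norm_add_le _ _).trans
      (add_le_add ?_ ?_)) ?_))
    · rw [norm_mul, norm_mul, Complex.norm_real, Real.norm_of_nonneg hW20.le,
        Complex.norm_ofNat]
      exact mul_le_mul_of_nonneg_left T1 (by positivity)
    · rw [norm_mul, Complex.norm_intCast]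
      exact mul_le_mul ha2 T2 (norm_nonneg _) hH0.le
    · rw [norm_mul, norm_mul, Complex.norm_real, Real.norm_eq_abs, Complex.norm_natCast]
      exact mul_le_mul_of_nonneg_left T3 (by positivity)
  have hfin := c2a_fin hD hX20 hW1 hs0 (by
      calc X ^ 3 * ‖ω‖ * W = X ^ 3 * (‖ω‖ * W) := by ring
        _ ≤ X ^ 3 * X := mul_le_mul_of_nonneg_left hω (by positivity)
        _ = X ^ 4 := by ring) hW3 hH0.le (by rw [hX]; linarith)
    (by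
      calc 2 * (|ξ| * β) * W ^ (22 * D) = 2 * β * (|ξ| * W ^ (22 * D)) := by ring
        _ ≤ 2 * β * (5 * (H : ℝ) ^ 3) := mul_le_mul_of_nonneg_left hξW (by positivity)
        _ ≤ 2 * (H : ℝ) ^ 3 * (5 * (H : ℝ) ^ 3) :=
            mul_le_mul_of_nonneg_right (by linarith) (by positivity)
        _ = 10 * (H : ℝ) ^ 6 := by ring
        _ ≤ 1000000 * (H : ℝ) ^ 6 := by
            have : 0 ≤ (H : ℝ) ^ 6 := by positivity
            linarith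
        _ = X ^ 6 := by rw [hX]; ring) hTb
  rw [Pol_eval h z.1 z.2.1 E c h0 w ω, norm_mul, Complex.norm_real]
  have hpp : 1 ≤ p ^ (20 * D + 2) := one_le_pow₀ hp1
  have hfr : ‖((z.2.1 : ℝ) * p) ^ (20 * D) / p ^ (20 * D + 2)‖ ≤ W ^ (20 * D) := by
    rw [Real.norm_of_nonneg (by positivity)]
    exact div_le_self (by positivity) hpp
  calc _ ≤ W ^ (20 * D) * T * W ^ (2 * D) :=
        mul_le_mul_of_nonneg_right (mul_le_mul_of_nonneg_right hfr (norm_nonneg _))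
          (by positivity)
    _ = T * W ^ (22 * D) := by
        rw [show 22 * D = 20 * D + 2 * D by ring, pow_add]
        ring
    _ ≤ _ := hfin

end U44
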