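import Pool.Agent.LibU44.S2

namespace U44

/-- Row S2c. The sum is complex differentiable. -/
theorem eta_diff {H : ℕ} {A B : ℤ} {E : PowerSeries ℤ} (h : Ser H A B E) (hH : 1 ≤ H) :
    DifferentiableOn ℂ (eta E) (Metric.ball 0 (1 / (10 ^ 5 * (H : ℝ)))) := by
  have hH0 : (0 : ℝ) < (H : ℝ) := by exact_mod_cast hH
  have hu : Summable fun n : ℕ => 3 * ((1 : ℝ) / 100) ^ n :=
    (summable_geometric_of_lt_one (by norm_num) (by norm_num)).mul_left 3
  have key := Complex.differentiableOn_tsum_of_summable_norm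
    (F := fun (n : ℕ) (ω : ℂ) => ((PowerSeries.coeff n E : ℤ) : ℂ) * ω ^ n)
    (U := Metric.ball 0 (1 / (10 ^ 5 * (H : ℝ)))) hu
    (fun n => ((differentiable_const _).mul (differentiable_id.pow n)).differentiableOn)
    Metric.isOpen_ball (by
      intro n ω hω
      rw [mem_ball_zero_iff] at hω
      have h1 : |(PowerSeries.coeff n E : ℤ)| ≤ 3 * (1000 * (H : ℤ)) ^ n := h.2.2 n
      have h2 : |((PowerSeries.coeff n E : ℤ) : ℝ)| ≤ 3 * (1000 * (H : ℝ)) ^ n := by exact_mod_cast h1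
      rw [norm_mul, norm_pow, Complex.norm_intCast]
      calc |((PowerSeries.coeff n E : ℤ) : ℝ)| * ‖ω‖ ^ n
          ≤ (3 * (1000 * (H : ℝ)) ^ n) * (1 / (10 ^ 5 * (H : ℝ))) ^ n := by
            gcongr
        _ = 3 * ((1 : ℝ) / 100) ^ n := by
            rw [mul_assoc, ← mul_pow]
            congr 2
            field_simp
            norm_num)
  exact key

/-- Row S2d. Uniqueness: `x, y` both roots near `1`: `(x - y)(x² + xy + y² - 9Aω) = 0` and
`|x² + xy + y²| ≥ 2.7 > |9Aω|`. -/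
theorem eta_uniq {H : ℕ} {A B : ℤ} {E : PowerSeries ℤ} (h : Ser H A B E) (hH : 1 ≤ H) (hA : |A| ≤ H) (ω x : ℂ)
    (hω : ‖ω‖ * (10 ^ 5 * (H : ℝ)) ≤ 1) (hx : ‖x - 1‖ ≤ 1 / 30)
    (hx3 : x ^ 3 = 1 + 9 * A * ω * x + 729 * B * ω ^ 3) : x = eta E ω := by
  obtain ⟨_, hy3, hy⟩ := eta_sum h hH ω hω
  set y := eta E ω with hy_def
  have hH0 : (0 : ℝ) < (H : ℝ) := by exact_mod_cast hH
  have h1 : (x - y) * (x ^ 2 + x * y + y ^ 2 - 9 * A * ω) = 0 := by
    linear_combination hx3 - hy3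
  rcases mul_eq_zero.1 h1 with h2 | h2
  · exact sub_eq_zero.1 h2
  · exfalso
    have hA' : ‖(A : ℂ)‖ ≤ (H : ℝ) := by
      rw [Complex.norm_intCast]
      exact_mod_cast hA
    have h3 : ‖(9 : ℂ) * A * ω‖ ≤ 1 := by
      rw [norm_mul, norm_mul]
      have h4 : ‖(9 : ℂ)‖ = 9 := by norm_num
      rw [h4]
      have h5 : ‖(A : ℂ)‖ * ‖ω‖ ≤ (H : ℝ) * ‖ω‖ := by gcongr
      nlinarith [norm_nonneg ω]
    have h6 : (3 : ℂ) = 9 * A * ω - 3 * (x - 1) - 3 * (y - 1) - (x - 1) * (x - 1) - (x - 1) * (y - 1)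
        - (y - 1) * (y - 1) := by
      linear_combination h2
    have h7 : ‖(3 : ℂ)‖ ≤ 1 + 3 * (1 / 30) + 3 * (1 / 30) + 1 / 30 * (1 / 30) + 1 / 30 * (1 / 30)
        + 1 / 30 * (1 / 30) := by
      rw [h6]
      have n3 : ‖(3 : ℂ)‖ = 3 := by norm_num
      have e1 : ‖(3 : ℂ) * (x - 1)‖ ≤ 3 * (1 / 30) := by
        rw [norm_mul, n3]; gcongr
      have e2 : ‖(3 : ℂ) * (y - 1)‖ ≤ 3 * (1 / 30) := by
        rw [norm_mul, n3]; gcongr
      have e3 : ‖(x - 1) * (x - 1)‖ ≤ 1 / 30 * (1 / 30) := by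
        rw [norm_mul]; gcongr
      have e4 : ‖(x - 1) * (y - 1)‖ ≤ 1 / 30 * (1 / 30) := by
        rw [norm_mul]; gcongr
      have e5 : ‖(y - 1) * (y - 1)‖ ≤ 1 / 30 * (1 / 30) := by
        rw [norm_mul]; gcongr
      refine (norm_sub_le _ _).trans (add_le_add ?_ e5)
      refine (norm_sub_le _ _).trans (add_le_add ?_ e4)
      refine (norm_sub_le _ _).trans (add_le_add ?_ e3)
      refine (norm_sub_le _ _).trans (add_le_add ?_ e2)
      exact (norm_sub_le _ _).trans (add_le_add h3 e1)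
    have n3 : ‖(3 : ℂ)‖ = 3 := by norm_num
    rw [n3] at h7
    norm_num at h7

end U44
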