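import Pool.Agent.LibU44.YB
import Pool.Agent.LibU44.S3
import Pool.Agent.LibU44.PT3
import Pool.Agent.LibU44.EV
import Pool.Agent.LibU44.C2a

namespace U44
open T44

/-- The final inequality. -/
private theorem c2b_final {g W : ℝ} {D n : ℕ} (hg : 20 ≤ g) (hD : 50 ≤ D) (hn : 5 * n ≤ D)
    (hW : g ^ 200000 ≤ W) (h : W ^ (2 * D) ≤ (g ^ 3 * W ^ 2) ^ n * (g ^ (2360 * D) * W ^ 11)) :
    False := by
  have hg1 : 1 ≤ g := by linarith
  have hg0 : 0 < g := by linarith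
  have hW1 : 1 ≤ W := (one_le_pow₀ hg1).trans hW
  have hW0 : 0 < W := by linarith
  have hb1 : 1 ≤ g ^ 3 * W ^ 2 := by
    have h1 : 1 ≤ g ^ 3 := one_le_pow₀ hg1
    have h2 : 1 ≤ W ^ 2 := one_le_pow₀ hW1
    exact one_le_mul_of_one_le_of_one_le h1 h2
  have h5 : (W ^ (2 * D)) ^ 5 ≤ ((g ^ 3 * W ^ 2) ^ n * (g ^ (2360 * D) * W ^ 11)) ^ 5 :=
    pow_le_pow_left₀ (by positivity) h 5
  have h6 : ((g ^ 3 * W ^ 2) ^ n) ^ 5 ≤ (g ^ 3 * W ^ 2) ^ D := by
    rw [← pow_mul]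
    exact pow_le_pow_right₀ hb1 (by omega)
  have h7 : ((g ^ 3 * W ^ 2) ^ n * (g ^ (2360 * D) * W ^ 11)) ^ 5 ≤
      (g ^ 3 * W ^ 2) ^ D * (g ^ (2360 * D) * W ^ 11) ^ 5 := by
    rw [mul_pow]
    exact mul_le_mul_of_nonneg_right h6 (by positivity)
  have h8 : (g ^ 3 * W ^ 2) ^ D * (g ^ (2360 * D) * W ^ 11) ^ 5 =
      g ^ (11803 * D) * W ^ (2 * D + 55) := by
    rw [mul_pow, mul_pow, ← pow_mul, ← pow_mul, ← pow_mul, ← pow_mul]
    have e1 : 11803 * D = 3 * D + 2360 * D * 5 := by ring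
    have e2 : 2 * D + 55 = 2 * D + 11 * 5 := by norm_num
    rw [e1, e2, pow_add, pow_add W]
    ac_rfl
  have h9 : W ^ (6 * D) * W ^ (2 * D + 55) ≤ (W ^ (2 * D)) ^ 5 := by
    rw [← pow_add, ← pow_mul]
    exact pow_le_pow_right₀ hW1 (by omega)
  have h10 : W ^ (6 * D) * W ^ (2 * D + 55) ≤ g ^ (11803 * D) * W ^ (2 * D + 55) := by
    rw [← h8]
    exact h9.trans (h5.trans h7)
  have h11 : W ^ (6 * D) ≤ g ^ (11803 * D) := le_of_mul_le_mul_right h10 (by positivity)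
  have h12 : g ^ (200000 * (6 * D)) ≤ W ^ (6 * D) := by
    rw [pow_mul]
    exact pow_le_pow_left₀ (by positivity) hW _
  have h13 : g ^ (11803 * D) < g ^ (200000 * (6 * D)) :=
    pow_lt_pow_right₀ (by linarith) (by omega)
  linarith

/-- Differentiability of the values of a polynomial. -/
private theorem c2b_diff (Q : MvPolynomial (Fin 2) ℤ) {f g : ℂ → ℂ} {s : Set ℂ}
    (hf : DifferentiableOn ℂ f s) (hg : DifferentiableOn ℂ g s) :
    DifferentiableOn ℂ (fun ω => MvPolynomial.aeval ![f ω, g ω] Q) s := by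
  induction Q using MvPolynomial.induction_on with
  | C a =>
    simp only [MvPolynomial.aeval_C]
    exact differentiableOn_const _
  | add P Q hP hQ =>
    simp only [map_add]
    exact hP.add hQ
  | mul_X P i hP =>
    simp only [map_mul, MvPolynomial.aeval_X]
    refine hP.mul ?_
    fin_cases i
    · exact hf
    · exact hg

/-- The values at integer points. -/
private theorem c2b_val (Q : MvPolynomial (Fin 2) ℤ) (x y : ℤ) :
    MvPolynomial.aeval ![(x : ℂ), (y : ℂ)] Q = ((MvPolynomial.eval ![x, y] Q : ℤ) : ℂ) := by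
  induction Q using MvPolynomial.induction_on with
  | C a => simp
  | add P Q hP hQ => rw [map_add, map_add, hP, hQ, Int.cast_add]
  | mul_X P i hP =>
    rw [map_mul, map_mul, hP, Int.cast_mul, MvPolynomial.aeval_X, MvPolynomial.eval_X]
    fin_cases i <;> rfl

/-- Row C2b. Low order of vanishing is impossible. On `‖ω - ω₁‖ = 1/(9|A|W₁)`, `ω₁ = 1/(9W₁)`: `|a(ω) - A| = 1`, `‖ω‖ W₁ ≤ 2/9`, so by the
maximum principle for `aeval![a(ω),v(ω)] Q` and `hQ`: `1 ≤ |Q(A,v₁)| ≤ (4H³W₁²)^n · sup ‖Pol‖` (`branch_at`: `v(ω₁) = v₁`),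
`≤ (h³W₁²)^n h^(2360D) W₁^(11-2D)`, `5n ≤ D`: fifth powers: `W₁^(10D) ≤ h^(3D) W₁^(2D) h^(11800D) W₁^55`, `W₁^(8D-55) ≤ h^(11803D)`, `D ≥ 50`:
`W₁^(6D) ≤ W₁^(8D-55)`, contradiction to `W₁ ≥ h^200000`. -/
theorem case_two {H D α β : ℕ} {p q : ℝ} (h : Cl α β p q) (hH : 2 ≤ H) (hD : 50 ≤ D) (z z₂ : ℤ × ℤ × ℤ)
    (hz : Sol H α β z) (hz₂ : Sol H α β z₂) (hA : z.1 ≠ 0) (E : PowerSeries ℤ)
    (hE : Ser H z.1 ((α : ℤ) * β * F α β z) E)
    (c : ℕ → ℕ → ℕ → ℤ) (h0 : ∀ m k j, 20 * D < j + k → c m k j = 0)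
    (hc : ∀ m k j, |(c m k j : ℝ)| ≤ (10 * (H : ℝ)) ^ (2100 * D))
    (hv0 : ∀ N < 33 * D, p * Yc z.1 β p E (c 1) N + β * Yc z.1 β p E (c 2) N = 0)
    (hv1 : ∀ N < 22 * D, 3 * p ^ 2 * Yc z.1 β p E (c 0) N + β * Yc z.1 β p E (c 2) N = 0)
    (w : ℕ → ℤ) (hw0 : w 0 = z₂.1) (hw1 : w 1 = z₂.2.1) (hw2 : w 2 = z₂.2.2)
    (hW : (10 * (H : ℝ)) ^ 200000 ≤ (z.2.1 : ℝ) * p)
    (hW2 : ((z.2.1 : ℝ) * p) ^ (11 * D) ≤ (z₂.2.1 : ℝ) * p)
    (hW3 : (z₂.2.1 : ℝ) * p ≤ ((z.2.1 : ℝ) * p) ^ (11 * D + 11)) (n : ℕ) (hn : 5 * n ≤ D)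
    (Q : MvPolynomial (Fin 2) ℤ) (hQ1 : MvPolynomial.eval ![z.1, z.2.2] Q ≠ 0)
    (hQ : ∀ a v : ℂ, Gc α β z.1 z.2.1 (F α β z) a v = 0 → Ap α z.1 z.2.1 z.2.2 a v ^ n *
      MvPolynomial.aeval ![a, v] (Pol (20 * D) z.2.1 c w) =
        (a - z.1) ^ n * MvPolynomial.aeval ![a, v] Q) : False := by
  obtain ⟨hp1, -, hqp, -⟩ := cl_p h
  have hβ : (0 : ℝ) < β := by
    have := h.2.1
    exact_mod_cast this
  have hq0 : 0 < q := h.2.2.2.2.2.2.2.1
  have hp0 : 0 < p := by linarith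
  have hH1 : 1 ≤ H := by omega
  have hHr : (2 : ℝ) ≤ H := by exact_mod_cast hH
  set g : ℝ := 10 * (H : ℝ) with hg
  have hg20 : 20 ≤ g := by rw [hg]; linarith
  have hg1 : 1 ≤ g := by linarith
  have hW10 : g ^ 10 ≤ (z.2.1 : ℝ) * p := (pow_le_pow_right₀ hg1 (by norm_num)).trans hW
  have hbr := branch_at h hH1 z hz hW10 E hE
  have hAp := fun ω hω => Ap_bd h hH1 z hz hA hW10 E hE ω hω
  have hGc := fun ω hω => branch h hH1 z E hE ω hω
  have hsm := fun ω hω => small_value h hH hD z z₂ hz hz₂ hA E hE c h0 hc hv0 hv1 w hw0 hw1 hw2 hW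
    hW2 hW3 ω hω
  set W : ℝ := (z.2.1 : ℝ) * p with hWdef
  have hWg : g ≤ W := by
    refine le_trans ?_ hW10
    exact le_self_pow₀ hg1 (by norm_num)
  have hW0 : 0 < W := by linarith
  have hWbig : 2 * (10 ^ 5 * (H : ℝ)) < 9 * W := by
    have h1 : g ^ 10 = g ^ 9 * g := by ring
    have h2 : (20 : ℝ) ^ 9 ≤ g ^ 9 := pow_le_pow_left₀ (by norm_num) hg20 9
    have h3 : (20 : ℝ) ^ 9 * g ≤ g ^ 9 * g := mul_le_mul_of_nonneg_right h2 (by linarith)
    have h4 : (20 : ℝ) ^ 9 * g ≤ W := by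
      rw [← h1] at h3
      exact h3.trans hW10
    rw [hg] at h4
    norm_num at h4 ⊢
    linarith
  have hAr : (1 : ℝ) ≤ |(z.1 : ℝ)| := by
    rw [← Int.cast_abs]
    exact_mod_cast Int.one_le_abs hA
  have hA0 : (0 : ℝ) < |(z.1 : ℝ)| := by linarith
  -- the disc
  set ω₁ : ℂ := ((1 / (9 * W) : ℝ) : ℂ) with hω₁
  set r : ℝ := 1 / (9 * |(z.1 : ℝ)| * W) with hr
  have hr0 : 0 < r := by positivity
  have hr1 : r ≤ 1 / (9 * W) := by
    rw [hr]
    apply one_div_le_one_div_of_le (by positivity)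
    have := mul_le_mul_of_nonneg_right hAr (by positivity : (0 : ℝ) ≤ 9 * W)
    linarith
  have hnorm : ∀ ω ∈ Metric.closedBall ω₁ r, ‖ω‖ ≤ 2 / (9 * W) := by
    intro ω hω
    rw [Metric.mem_closedBall, dist_eq_norm] at hω
    have h1 : ‖ω‖ ≤ ‖ω - ω₁‖ + ‖ω₁‖ := by
      have := norm_add_le (ω - ω₁) ω₁
      rwa [sub_add_cancel] at this
    have h2 : ‖ω₁‖ = 1 / (9 * W) := by
      rw [hω₁, Complex.norm_real, Real.norm_eq_abs, abs_of_pos (by positivity)]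
    rw [h2] at h1
    have h3 : 2 / (9 * W) = 1 / (9 * W) + 1 / (9 * W) := by ring
    rw [h3]
    linarith
  have hin : ∀ ω ∈ Metric.closedBall ω₁ r, ‖ω‖ * (10 ^ 5 * (H : ℝ)) < 1 := by
    intro ω hω
    have h1 := hnorm ω hω
    have h2 : ‖ω‖ * (10 ^ 5 * (H : ℝ)) ≤ 2 / (9 * W) * (10 ^ 5 * (H : ℝ)) :=
      mul_le_mul_of_nonneg_right h1 (by positivity)
    refine h2.trans_lt ?_
    rw [div_mul_eq_mul_div, div_lt_one (by positivity)]
    linarith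
  -- the function
  set a : ℂ → ℂ := fun ω => 9 * (z.1 : ℂ) * ((W : ℝ) : ℂ) * ω with ha
  set v : ℂ → ℂ := fun ω => ((W : ℝ) : ℂ) * eta E ω / (q : ℂ) with hv
  set k : ℂ → ℂ := fun ω => MvPolynomial.aeval ![a ω, v ω] Q with hk
  have hsub : Metric.closedBall ω₁ r ⊆ Metric.ball 0 (1 / (10 ^ 5 * (H : ℝ))) := by
    intro ω hω
    rw [Metric.mem_ball, dist_zero_right, lt_div_iff₀ (by positivity)]
    exact hin ω hω
  have hdv : DifferentiableOn ℂ v (Metric.ball 0 (1 / (10 ^ 5 * (H : ℝ)))) :=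
    ((eta_diff hE hH1).const_mul _).div_const _
  have hda : DifferentiableOn ℂ a (Metric.ball 0 (1 / (10 ^ 5 * (H : ℝ)))) :=
    (differentiable_id.const_mul _).differentiableOn
  have hdk : DifferentiableOn ℂ k (Metric.ball 0 (1 / (10 ^ 5 * (H : ℝ)))) := c2b_diff Q hda hdv
  have hdc : DiffContOnCl ℂ k (Metric.ball ω₁ r) := by
    refine ⟨hdk.mono (Metric.ball_subset_closedBall.trans hsub), ?_⟩
    exact (hdk.continuousOn.mono hsub).mono Metric.closure_ball_subset_closedBall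
  -- the value at the centre
  have hcen : k ω₁ = ((MvPolynomial.eval ![z.1, z.2.2] Q : ℤ) : ℂ) := by
    have h1 : a ω₁ = (z.1 : ℂ) := by
      rw [ha, hω₁]
      have : ((W : ℝ) : ℂ) ≠ 0 := by exact_mod_cast hW0.ne'
      push_cast
      field_simp
    have h2 : v ω₁ = (z.2.2 : ℂ) := by
      rw [hv]
      show ((W : ℝ) : ℂ) * eta E ω₁ / (q : ℂ) = _
      rw [hbr]
      have e1 : ((W : ℝ) : ℂ) ≠ 0 := by exact_mod_cast hW0.ne'
      have e2 : ((q : ℝ) : ℂ) ≠ 0 := by exact_mod_cast hq0.ne'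
      push_cast
      field_simp
    rw [hk]
    show MvPolynomial.aeval ![a ω₁, v ω₁] Q = _
    rw [h1, h2]
    exact c2b_val Q z.1 z.2.2
  have hone : 1 ≤ ‖k ω₁‖ := by
    rw [hcen, Complex.norm_intCast]
    rw [← Int.cast_abs]
    exact_mod_cast Int.one_le_abs hQ1
  -- the bound on the circle
  set M : ℝ := (g ^ 3 * W ^ 2) ^ n * (g ^ (2360 * D) * W ^ 11) / W ^ (2 * D) with hM
  have hfr : ∀ ω ∈ frontier (Metric.ball ω₁ r), ‖k ω‖ ≤ M := by
    intro ω hω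
    rw [frontier_ball ω₁ hr0.ne'] at hω
    have hωc : ω ∈ Metric.closedBall ω₁ r := Metric.sphere_subset_closedBall hω
    have hω' := (hin ω hωc).le
    have h1 := hQ (a ω) (v ω) (hGc ω hω')
    have h2 : ‖a ω - z.1‖ = 1 := by
      have h3 : a ω - z.1 = 9 * (z.1 : ℂ) * ((W : ℝ) : ℂ) * (ω - ω₁) := by
        rw [ha, hω₁]
        have : ((W : ℝ) : ℂ) ≠ 0 := by exact_mod_cast hW0.ne'
        push_cast
        field_simp
      have h4 : ‖ω - ω₁‖ = r := by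
        rw [← dist_eq_norm]
        exact hω
      rw [h3, norm_mul, norm_mul, norm_mul, h4, Complex.norm_intCast, Complex.norm_real,
        Real.norm_eq_abs, abs_of_pos hW0, hr]
      have h5 : ‖(9 : ℂ)‖ = 9 := by simp
      rw [h5]
      field_simp
    have h3 : ‖k ω‖ = ‖Ap α z.1 z.2.1 z.2.2 (a ω) (v ω)‖ ^ n *
        ‖MvPolynomial.aeval ![a ω, v ω] (Pol (20 * D) z.2.1 c w)‖ := by
      have h4 := congrArg norm h1
      rw [norm_mul, norm_mul, norm_pow, norm_pow, h2, one_pow, one_mul] at h4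
      exact h4.symm
    have h4 : ‖Ap α z.1 z.2.1 z.2.2 (a ω) (v ω)‖ ≤ g ^ 3 * W ^ 2 := by
      refine (hAp ω hω').2.trans ?_
      apply mul_le_mul_of_nonneg_right _ (by positivity)
      rw [hg, mul_pow]
      have : (0 : ℝ) ≤ (H : ℝ) ^ 3 := by positivity
      norm_num
      linarith
    have h5 : ‖ω‖ * W ≤ g := by
      have h6 := mul_le_mul_of_nonneg_right (hnorm ω hωc) hW0.le
      have h7 : 2 / (9 * W) * W = 2 / 9 := by field_simp
      rw [h7] at h6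
      linarith
    have h6 := hsm ω h5
    rw [h3, hM, le_div_iff₀ (by positivity), mul_assoc]
    exact mul_le_mul (pow_le_pow_left₀ (norm_nonneg _) h4 n) h6 (by positivity) (by positivity)
  have hmax : ‖k ω₁‖ ≤ M := by
    refine Complex.norm_le_of_forall_mem_frontier_norm_le Metric.isBounded_ball hdc hfr ?_
    exact subset_closure (Metric.mem_ball_self hr0)
  refine c2b_final hg20 hD hn hW ?_
  have h1 := hone.trans hmax
  rw [hM, le_div_iff₀ (by positivity), one_mul] at h1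
  exact h1

end U44
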