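import Mathlib
import Pool.Agent.LibT44.Defs

/-! Theorem U (MP_a1107e): a class `(α, β)` has no two very large solutions `z₁, z₂` (`a₁, a₂ ≠ 0`) with
`sS z₂ ≥ (sS z₁)^700`. Thue-Siegel method on the plane cubic `E : A³ F(z) = e₁ a³` through `z₁ = (A, u₁, v₁)`.
Notation: `V = vq`, `W = up`, `B = αβ e₁`, `e₁ = F(z₁)`, `h = 10H`. Near the point at infinity `a = 0` the curve is
`V = W E(ω)`, `a = 9 A W ω`, with a power series `E = 1 + ... ∈ ℤ⟦X⟧`, `E³ = 1 + 9A X E + 729 B X³`; `z₁` is the value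
`ω = 1/(9W₁)`. -/

namespace U44

/-- `x = x₀ + x₁ p + x₂ p²` with integers `|x_i| ≤ M` -/
def Z3 (p M x : ℝ) : Prop :=
  ∃ x₀ x₁ x₂ : ℤ, |(x₀ : ℝ)| ≤ M ∧ |(x₁ : ℝ)| ≤ M ∧ |(x₂ : ℝ)| ≤ M ∧ x = x₀ + x₁ * p + x₂ * p ^ 2

/-- the branch at infinity of the cubic -/
def Ser (H : ℕ) (A B : ℤ) (E : PowerSeries ℤ) : Prop :=
  PowerSeries.constantCoeff E = 1 ∧
  E ^ 3 = 1 + PowerSeries.C (9 * A) * PowerSeries.X * E +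
    PowerSeries.C (729 * B) * PowerSeries.X ^ 3 ∧
  ∀ n, |(PowerSeries.coeff n E : ℤ)| ≤ 3 * (1000 * (H : ℤ)) ^ n

/-- the sum of the series `E` -/
noncomputable def eta (E : PowerSeries ℤ) (ω : ℂ) : ℂ :=
  ∑' n : ℕ, ((PowerSeries.coeff n E : ℤ) : ℂ) * ω ^ n

/-- the coefficients of `Yf` -/
noncomputable def Yc (A : ℤ) (β : ℕ) (p : ℝ) (E : PowerSeries ℤ) (c : ℕ → ℕ → ℤ) (N : ℕ) : ℝ :=
  ∑ k ∈ Finset.range 3, ∑ j ∈ Finset.range (N + 1),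
    (c k j : ℝ) * (9 * (A : ℝ)) ^ j * (β : ℝ) ^ k * p ^ (j + 2 - k) *
      ((PowerSeries.coeff (N - j) (E ^ k) : ℤ) : ℝ)

/-- `∑_{k ≤ 2} ∑_{j ≤ d} c k j (9A)^j β^k p^(j+2-k) ω^j E(ω)^k` -/
noncomputable def Yf (d : ℕ) (A : ℤ) (β : ℕ) (p : ℝ) (E : PowerSeries ℤ) (c : ℕ → ℕ → ℤ) (ω : ℂ) : ℂ :=
  ∑ k ∈ Finset.range 3, ∑ j ∈ Finset.range (d + 1),
    (c k j : ℂ) * (9 * (A : ℂ)) ^ j * (β : ℂ) ^ k * (p : ℂ) ^ (j + 2 - k) * (ω ^ j * eta E ω ^ k)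

/-- `∑ n^l f(n) ω^n` -/
noncomputable def Ff (f : ℕ → ℝ) (l : ℕ) (ω : ℂ) : ℂ :=
  ∑' n : ℕ, ((n : ℂ) ^ l * ((f n : ℝ) : ℂ)) * ω ^ n

/-- coefficients of the Wronskian (Euler derivative) of three power series -/
noncomputable def Wc (f : Fin 3 → ℕ → ℝ) (m : ℕ) : ℝ :=
  ∑ x ∈ Finset.HasAntidiagonal.antidiagonal m, ∑ y ∈ Finset.HasAntidiagonal.antidiagonal x.2,
    f 0 x.1 * f 1 y.1 * f 2 y.2 *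
      (((y.1 : ℝ) - x.1) * ((y.2 : ℝ) - x.1) * ((y.2 : ℝ) - y.1))

/-- the Wronskian -/
noncomputable def Wf (f : Fin 3 → ℕ → ℝ) (ω : ℂ) : ℂ :=
  Matrix.det (Matrix.of fun l i : Fin 3 => Ff (f i) (l : ℕ) ω)

/-- the auxiliary polynomial `P(a, u₁, v; w) = ∑_m w_m φ_m(a, u₁, v)` as a polynomial in `X 0 = a`, `X 1 = v` -/
noncomputable def Pol (d : ℕ) (u₁ : ℤ) (c : ℕ → ℕ → ℕ → ℤ) (w : ℕ → ℤ) : MvPolynomial (Fin 2) ℤ :=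
  ∑ m ∈ Finset.range 3, ∑ k ∈ Finset.range 3, ∑ j ∈ Finset.range (d + 1),
    MvPolynomial.C (w m * c m k j * u₁ ^ (d - k - j)) * MvPolynomial.X 0 ^ j * MvPolynomial.X 1 ^ k

/-- the cubic, as a function of `a, v` (`u = u₁` fixed) -/
def Gc (α β : ℕ) (A u₁ e₁ : ℤ) (a v : ℂ) : ℂ :=
  (A : ℂ) ^ 3 * (α * v ^ 3 - a * u₁ * v - β * (u₁ : ℂ) ^ 3) - e₁ * a ^ 3

/-- `(G(a,v) - G(a,v₁))/(v - v₁)` -/
def Ap (α : ℕ) (A u₁ v₁ : ℤ) (a v : ℂ) : ℂ :=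
  (A : ℂ) ^ 3 * (α * (v ^ 2 + v * v₁ + (v₁ : ℂ) ^ 2) - a * u₁)

end U44
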