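import Pool.Agent.LibU44.Defs

namespace U44

/-- Row IN1. Division at an integer point. Induction on `P`. -/
theorem mv_div (A v₁ : ℤ) (P : MvPolynomial (Fin 2) ℤ) : ∃ Q R : MvPolynomial (Fin 2) ℤ,
    P = (MvPolynomial.X 0 - MvPolynomial.C A) * Q + (MvPolynomial.X 1 - MvPolynomial.C v₁) * R +
      MvPolynomial.C (MvPolynomial.eval ![A, v₁] P) := by
  induction P using MvPolynomial.induction_on with
  | C a => exact ⟨0, 0, by simp⟩
  | add p q hp hq =>
    obtain ⟨Q, R, h⟩ := hp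
    obtain ⟨Q', R', h'⟩ := hq
    refine ⟨Q + Q', R + R', ?_⟩
    rw [map_add, map_add]
    linear_combination h + h'
  | mul_X p i hp =>
    obtain ⟨Q, R, h⟩ := hp
    fin_cases i
    · refine ⟨Q * MvPolynomial.X 0 + MvPolynomial.C (MvPolynomial.eval ![A, v₁] p),
        R * MvPolynomial.X 0, ?_⟩
      have e1 : MvPolynomial.eval ![A, v₁] (p * MvPolynomial.X 0) =
          MvPolynomial.eval ![A, v₁] p * A := by
        rw [map_mul, MvPolynomial.eval_X]
        rfl
      show p * MvPolynomial.X 0 = _ + MvPolynomial.C (MvPolynomial.eval ![A, v₁]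
        (p * MvPolynomial.X 0))
      rw [e1, map_mul]
      linear_combination MvPolynomial.X 0 * h
    · refine ⟨Q * MvPolynomial.X 1,
        R * MvPolynomial.X 1 + MvPolynomial.C (MvPolynomial.eval ![A, v₁] p), ?_⟩
      have e1 : MvPolynomial.eval ![A, v₁] (p * MvPolynomial.X 1) =
          MvPolynomial.eval ![A, v₁] p * v₁ := by
        rw [map_mul, MvPolynomial.eval_X]
        rfl
      show p * MvPolynomial.X 1 = _ + MvPolynomial.C (MvPolynomial.eval ![A, v₁]
        (p * MvPolynomial.X 1))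
      rw [e1, map_mul]
      linear_combination MvPolynomial.X 1 * h

/-- Row IN2 (divided derivatives along the curve are integral). With `G(a,v) = A³(αv³ - a u₁ v - βu₁³) - e₁a³`, `G(A,v₁) = 0`:
`G = (v - v₁) Ap(a,v) + (a - A) Bp(a)`, `Bp = -A³u₁v₁ - e₁(a² + aA + A²)`. Induction on `N`: if `Q(A,v₁) = 0`, then `Q = (a-A)Q' + (v-v₁)Q''`
(`mv_div`), and on `G = 0`: `Ap·Q = (a-A)(Ap·Q' - Bp·Q'')`; `Ap`, `Bp` are integer polynomials in `a, v`. -/
theorem int_chain (α β : ℕ) (A u₁ v₁ e₁ : ℤ) (hz : (α : ℤ) * v₁ ^ 3 - β * u₁ ^ 3 - A * u₁ * v₁ = e₁)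
    (P : MvPolynomial (Fin 2) ℤ) (N : ℕ) :
    (∃ n < N, ∃ Q : MvPolynomial (Fin 2) ℤ, MvPolynomial.eval ![A, v₁] Q ≠ 0 ∧
      ∀ a v : ℂ, Gc α β A u₁ e₁ a v = 0 → Ap α A u₁ v₁ a v ^ n * MvPolynomial.aeval ![a, v] P =
        (a - A) ^ n * MvPolynomial.aeval ![a, v] Q) ∨
    (∃ Q : MvPolynomial (Fin 2) ℤ, ∀ a v : ℂ, Gc α β A u₁ e₁ a v = 0 →
      Ap α A u₁ v₁ a v ^ N * MvPolynomial.aeval ![a, v] P = (a - A) ^ N * MvPolynomial.aeval ![a, v] Q) := by
  induction N with
  | zero =>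
    right
    exact ⟨P, fun a v _ => by simp⟩
  | succ N ih =>
    rcases ih with ⟨n, hn, Q, hQ, h⟩ | ⟨Q, h⟩
    · left
      exact ⟨n, by omega, Q, hQ, h⟩
    · by_cases hQ : MvPolynomial.eval ![A, v₁] Q = 0
      · right
        obtain ⟨Q', Q'', hd⟩ := mv_div A v₁ Q
        rw [hQ, map_zero, add_zero] at hd
        refine ⟨(MvPolynomial.C (A ^ 3) * (MvPolynomial.C (α : ℤ) * (MvPolynomial.X 1 ^ 2 +
          MvPolynomial.X 1 * MvPolynomial.C v₁ + MvPolynomial.C (v₁ ^ 2)) -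
          MvPolynomial.X 0 * MvPolynomial.C u₁)) * Q' -
          (MvPolynomial.C (-(A ^ 3 * u₁ * v₁)) - MvPolynomial.C e₁ * (MvPolynomial.X 0 ^ 2 +
            MvPolynomial.X 0 * MvPolynomial.C A + MvPolynomial.C (A ^ 2))) * Q'', ?_⟩
        intro a v hG
        have h1 := h a v hG
        have e0 : MvPolynomial.aeval ![a, v] (MvPolynomial.X 0 : MvPolynomial (Fin 2) ℤ) = a := by
          rw [MvPolynomial.aeval_X]
          rfl
        have e1 : MvPolynomial.aeval ![a, v] (MvPolynomial.X 1 : MvPolynomial (Fin 2) ℤ) = v := by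
          rw [MvPolynomial.aeval_X]
          rfl
        have eC : ∀ c : ℤ, MvPolynomial.aeval ![a, v] (MvPolynomial.C c : MvPolynomial (Fin 2) ℤ) =
            (c : ℂ) := by
          intro c
          rw [MvPolynomial.aeval_C]
          rfl
        have h2 : MvPolynomial.aeval ![a, v] Q = (a - A) * MvPolynomial.aeval ![a, v] Q' +
            (v - v₁) * MvPolynomial.aeval ![a, v] Q'' := by
          rw [hd]
          simp only [map_add, map_mul, map_sub, e0, e1, eC]
        have hzc : (α : ℂ) * v₁ ^ 3 - β * u₁ ^ 3 - A * u₁ * v₁ = e₁ := by exact_mod_cast hz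
        simp only [map_add, map_mul, map_sub, map_pow, e0, e1, eC]
        push_cast
        rw [pow_succ, pow_succ]
        unfold Gc at hG
        have h3 : Ap α A u₁ v₁ a v * (v - v₁) = -((a - A) * (-((A : ℂ) ^ 3 * u₁ * v₁) -
            e₁ * (a ^ 2 + a * A + (A : ℂ) ^ 2))) := by
          unfold Ap
          linear_combination hG - (A : ℂ) ^ 3 * hzc
        have h4 : (A : ℂ) ^ 3 * (α * (v ^ 2 + v * v₁ + (v₁ : ℂ) ^ 2) - a * u₁) =
            Ap α A u₁ v₁ a v := rfl
        rw [h4]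
        calc Ap α A u₁ v₁ a v ^ N * Ap α A u₁ v₁ a v * MvPolynomial.aeval ![a, v] P
            = Ap α A u₁ v₁ a v * (Ap α A u₁ v₁ a v ^ N * MvPolynomial.aeval ![a, v] P) := by ring
          _ = Ap α A u₁ v₁ a v * ((a - A) ^ N * ((a - A) * MvPolynomial.aeval ![a, v] Q' +
            (v - v₁) * MvPolynomial.aeval ![a, v] Q'')) := by rw [h1, h2]
          _ = (a - A) ^ N * (Ap α A u₁ v₁ a v * (a - A) * MvPolynomial.aeval ![a, v] Q' +
            (Ap α A u₁ v₁ a v * (v - v₁)) * MvPolynomial.aeval ![a, v] Q'') := by ring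
          _ = _ := by
            rw [h3]
            ring
      · left
        exact ⟨N, by omega, Q, hQ, h⟩

end U44
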