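import Pool.Agent.LibU44.S2

namespace U44

private theorem lb1_int (c1 c0 a b : Polynomial ℝ) (hb : b ≠ 0)
    (h : a ^ 3 = c1 * a * b ^ 2 + c0 * b ^ 3) : ∃ r : Polynomial ℝ, r ^ 3 = c1 * r + c0 := by
  let K := FractionRing (Polynomial ℝ)
  have hbK : algebraMap (Polynomial ℝ) K b ≠ 0 := by
    intro h0
    exact hb ((map_eq_zero_iff _ (IsFractionRing.injective (Polynomial ℝ) K)).1 h0)
  set y : K := algebraMap (Polynomial ℝ) K a / algebraMap (Polynomial ℝ) K b with hy
  have hyeq : y ^ 3 = algebraMap (Polynomial ℝ) K c1 * y + algebraMap (Polynomial ℝ) K c0 := by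
    have h1 := congrArg (algebraMap (Polynomial ℝ) K) h
    simp only [map_add, map_mul, map_pow] at h1
    have hab : y * algebraMap (Polynomial ℝ) K b = algebraMap (Polynomial ℝ) K a :=
      div_mul_cancel₀ _ hbK
    rw [← hab] at h1
    apply mul_right_cancel₀ (pow_ne_zero 3 hbK)
    linear_combination h1
  have hint : IsIntegral (Polynomial ℝ) y := by
    refine ⟨Polynomial.X ^ 3 + (-(Polynomial.C c1 * Polynomial.X) - Polynomial.C c0), ?_, ?_⟩
    · apply Polynomial.monic_X_pow_add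
      have : (-(Polynomial.C c1 * Polynomial.X) - Polynomial.C c0).degree ≤ 1 := by
        compute_degree
      exact lt_of_le_of_lt this (by norm_num)
    · simp only [Polynomial.eval₂_add, Polynomial.eval₂_pow, Polynomial.eval₂_X,
        Polynomial.eval₂_sub, Polynomial.eval₂_neg, Polynomial.eval₂_mul, Polynomial.eval₂_C]
      rw [hyeq]
      ring
  obtain ⟨r, hr⟩ := IsIntegrallyClosed.isIntegral_iff.1 hint
  refine ⟨r, ?_⟩
  apply IsFractionRing.injective (Polynomial ℝ) K
  simp only [map_add, map_mul, map_pow]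
  rw [hr]
  exact hyeq

/-- Row LB1. The cubic `Y³ = 9A X Y + 1 + 729 B X³` has no root in `ℝ(X)`. Divide by the gcd: `a, b` coprime, `b ∣ a³`, so `b` is a
constant; then a polynomial root, of degree `≤ 1` (leading terms), `λX + μ`: `μ³ = 1`, `3λμ² = 9Aμ`, `λ³ = 729B`: `27A³ = 729B`. -/
theorem no_root (A B : ℤ) (hAB : A ^ 3 ≠ 27 * B) (a b : Polynomial ℝ) (hb : b ≠ 0) :
    a ^ 3 ≠ Polynomial.C (9 * (A : ℝ)) * Polynomial.X * a * b ^ 2 +
      (1 + Polynomial.C (729 * (B : ℝ)) * Polynomial.X ^ 3) * b ^ 3 := by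
  intro h
  obtain ⟨r, hr⟩ := lb1_int _ _ a b hb h
  have hdeg : r.natDegree ≤ 1 := by
    by_contra hn
    push Not at hn
    have h1 : (r ^ 3).natDegree = 3 * r.natDegree := Polynomial.natDegree_pow r 3
    have h2 : (Polynomial.C (9 * (A : ℝ)) * Polynomial.X * r +
        (1 + Polynomial.C (729 * (B : ℝ)) * Polynomial.X ^ 3)).natDegree ≤
        max (1 + r.natDegree) 3 := by
      refine (Polynomial.natDegree_add_le _ _).trans (max_le_max ?_ ?_)
      · refine (Polynomial.natDegree_mul_le).trans (Nat.add_le_add_right ?_ _)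
        compute_degree
      · compute_degree
    rw [← hr, h1] at h2
    rcases le_max_iff.1 h2 with h3 | h3 <;> omega
  obtain ⟨l, m, hlm⟩ := Polynomial.exists_eq_X_add_C_of_natDegree_le_one hdeg
  have hev : ∀ x : ℝ, (l * x + m) ^ 3 = 9 * (A : ℝ) * x * (l * x + m) +
      (1 + 729 * (B : ℝ) * x ^ 3) := by
    intro x
    have h1 := congrArg (Polynomial.eval x) hr
    rw [hlm] at h1
    simpa using h1
  have e0 := hev 0
  have e1 := hev 1
  have e2 := hev (-1)
  have e3 := hev 2
  have hm3 : m ^ 3 = 1 := by nlinarith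
  have hm : m = 1 := by
    have : (m - 1) * (m ^ 2 + m + 1) = 0 := by nlinarith
    rcases mul_eq_zero.1 this with h1 | h1
    · linarith
    · nlinarith [sq_nonneg (m + 1 / 2)]
  subst hm
  have h2 : 3 * l ^ 2 - 9 * (A : ℝ) * l = 0 := by nlinarith
  have h3 : l ^ 3 - 729 * (B : ℝ) = 0 := by nlinarith
  have h4 : 3 * l - 9 * (A : ℝ) = 0 := by nlinarith
  have h5 : l = 3 * (A : ℝ) := by linarith
  rw [h5] at h3
  apply hAB
  have h6 : (A : ℝ) ^ 3 = 27 * (B : ℝ) := by nlinarith
  exact_mod_cast h6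

end U44
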