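import Pool.Agent.LibU44.LB1

namespace U44

/-- the norm of `f₀ + f₁E + f₂E²`, `E³ = PE + Q` -/
def lb2_N {R : Type*} [CommRing R] (f0 f1 f2 P Q : R) : R :=
  f0 * ((f0 + f2 * P) ^ 2 - f1 * (f2 * Q + f1 * P)) - f1 * (f2 * Q * (f0 + f2 * P) - f1 ^ 2 * Q) +
    f2 * (f2 * Q * (f2 * Q + f1 * P) - f1 * Q * (f0 + f2 * P))

theorem lb2_norm {R : Type*} [CommRing R] (f0 f1 f2 P Q E : R) (hE : E ^ 3 = P * E + Q) :
    (f0 + f1 * E + f2 * E ^ 2) * (((f0 + f2 * P) ^ 2 - f1 * (f2 * Q + f1 * P)) +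
      (f2 ^ 2 * Q - f0 * f1) * E + (f1 ^ 2 - f0 * f2 - f2 ^ 2 * P) * E ^ 2) = lb2_N f0 f1 f2 P Q := by
  unfold lb2_N
  linear_combination (f1 * (f1 ^ 2 - f0 * f2 - f2 ^ 2 * P) + f2 * (f2 ^ 2 * Q - f0 * f1) +
    f2 * (f1 ^ 2 - f0 * f2 - f2 ^ 2 * P) * E) * hE

theorem lb2_mul {R : Type*} [CommRing R] (f0 f1 f2 P Q : R) :
    (f2 ^ 2 * Q - f0 * f1) ^ 3 - P * (f2 ^ 2 * Q - f0 * f1) * (f0 * f2 - f1 ^ 2 + f2 ^ 2 * P) ^ 2 +
      Q * (f0 * f2 - f1 ^ 2 + f2 ^ 2 * P) ^ 3 =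
    lb2_N f0 f1 f2 P Q * (-f1 ^ 3 + P * f1 * f2 ^ 2 + Q * f2 ^ 3) := by
  unfold lb2_N
  ring

theorem lb2_two {A B : ℤ} (hAB : A ^ 3 ≠ 27 * B) (g0 g1 : Polynomial ℝ)
    (h : g0 ^ 3 - Polynomial.C (9 * (A : ℝ)) * Polynomial.X * g0 * g1 ^ 2 +
      (1 + Polynomial.C (729 * (B : ℝ)) * Polynomial.X ^ 3) * g1 ^ 3 = 0) : g0 = 0 ∧ g1 = 0 := by
  have h1 : g1 = 0 := by
    by_contra h1
    refine no_root A B hAB (-g0) g1 h1 ?_
    linear_combination (-1 : Polynomial ℝ) * h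
  subst h1
  refine ⟨?_, rfl⟩
  have h2 : g0 ^ 3 = 0 := by linear_combination h
  exact pow_eq_zero_iff (by norm_num) |>.1 h2

theorem lb2_ne {A B : ℤ} (hAB : A ^ 3 ≠ 27 * B) (f0 f1 f2 : Polynomial ℝ)
    (h : lb2_N f0 f1 f2 (Polynomial.C (9 * (A : ℝ)) * Polynomial.X)
      (1 + Polynomial.C (729 * (B : ℝ)) * Polynomial.X ^ 3) = 0) : f0 = 0 ∧ f1 = 0 ∧ f2 = 0 := by
  by_cases h2 : f2 = 0
  · subst h2
    obtain ⟨h3, h4⟩ := lb2_two hAB f0 f1 (by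
      unfold lb2_N at h
      linear_combination h)
    exact ⟨h3, h4, rfl⟩
  · exfalso
    have h3 := lb2_mul f0 f1 f2 (Polynomial.C (9 * (A : ℝ)) * Polynomial.X)
      (1 + Polynomial.C (729 * (B : ℝ)) * Polynomial.X ^ 3)
    rw [h, zero_mul] at h3
    obtain ⟨h4, h5⟩ := lb2_two hAB _ _ h3
    refine no_root A B hAB f1 f2 h2 ?_
    linear_combination (-f2) * h4 - f1 * h5

/-- the polynomial with the coefficients `a` -/
noncomputable def lb2_f (d : ℕ) (a : ℕ → ℝ) : Polynomial ℝ :=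
  ∑ j ∈ Finset.range (d + 1), Polynomial.monomial j (a j)

theorem lb2_coeff (d : ℕ) (a : ℕ → ℝ) (ha : ∀ j, d < j → a j = 0) (j : ℕ) :
    (lb2_f d a).coeff j = a j := by
  unfold lb2_f
  rw [Polynomial.finsetSum_coeff]
  simp only [Polynomial.coeff_monomial]
  rw [Finset.sum_ite_eq']
  split_ifs with h
  · rfl
  · rw [Finset.mem_range, not_lt] at h
    exact (ha j (by omega)).symm

theorem lb2_deg (d : ℕ) (a : ℕ → ℝ) : (lb2_f d a).natDegree ≤ d := by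
  apply Polynomial.natDegree_sum_le_of_forall_le
  intro j hj
  have := Finset.mem_range.1 hj
  exact (Polynomial.natDegree_monomial_le _).trans (by omega)

theorem lb2_sub {p q : Polynomial ℝ} {n : ℕ} (hp : p.natDegree ≤ n) (hq : q.natDegree ≤ n) :
    (p - q).natDegree ≤ n := (Polynomial.natDegree_sub_le_of_le hp hq).trans (by simp)

theorem lb2_add {p q : Polynomial ℝ} {n : ℕ} (hp : p.natDegree ≤ n) (hq : q.natDegree ≤ n) :
    (p + q).natDegree ≤ n := (Polynomial.natDegree_add_le_of_le hp hq).trans (by simp)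

theorem lb2_m {p q : Polynomial ℝ} {m n k : ℕ} (hp : p.natDegree ≤ m) (hq : q.natDegree ≤ n)
    (h : m + n ≤ k) : (p * q).natDegree ≤ k := (Polynomial.natDegree_mul_le_of_le hp hq).trans h

theorem lb2_Ndeg (d : ℕ) {f0 f1 f2 P Q : Polynomial ℝ} (h0 : f0.natDegree ≤ d) (h1 : f1.natDegree ≤ d)
    (h2 : f2.natDegree ≤ d) (hP : P.natDegree ≤ 1) (hQ : Q.natDegree ≤ 3) :
    (lb2_N f0 f1 f2 P Q).natDegree ≤ 3 * d + 6 := by
  have a1 : (f0 + f2 * P).natDegree ≤ d + 1 := lb2_add (h0.trans (by omega)) (lb2_m h2 hP le_rfl)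
  have a2 : (f2 * Q + f1 * P).natDegree ≤ d + 3 := lb2_add (lb2_m h2 hQ le_rfl) (lb2_m h1 hP (by omega))
  have q2 : (f2 * Q).natDegree ≤ d + 3 := lb2_m h2 hQ le_rfl
  have q1 : (f1 * Q).natDegree ≤ d + 3 := lb2_m h1 hQ le_rfl
  have s1 : (f1 ^ 2 * Q).natDegree ≤ 2 * d + 4 := by
    rw [sq, mul_assoc]
    exact lb2_m h1 q1 (by omega)
  have t1 : (f0 * ((f0 + f2 * P) ^ 2 - f1 * (f2 * Q + f1 * P))).natDegree ≤ 3 * d + 6 := by
    refine lb2_m h0 (n := 2 * d + 3) (lb2_sub ?_ (lb2_m h1 a2 (by omega))) (by omega)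
    rw [sq]
    exact lb2_m a1 a1 (by omega)
  have t2 : (f1 * (f2 * Q * (f0 + f2 * P) - f1 ^ 2 * Q)).natDegree ≤ 3 * d + 6 :=
    lb2_m h1 (n := 2 * d + 4) (lb2_sub (lb2_m q2 a1 (by omega)) s1) (by omega)
  have t3 : (f2 * (f2 * Q * (f2 * Q + f1 * P) - f1 * Q * (f0 + f2 * P))).natDegree ≤ 3 * d + 6 :=
    lb2_m h2 (n := 2 * d + 6) (lb2_sub (lb2_m q2 a2 (by omega)) (lb2_m q1 a1 (by omega))) (by omega)
  exact lb2_add (lb2_sub t1 t2) t3

/-- Row LB2. A nonzero real polynomial combination `f₀ + f₁E + f₂E²`, `deg f_k ≤ d`, has order `≤ 3d + 6`. With `P = 9AX`,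
`Q = 1 + 729BX³` the norm is the polynomial
`N = f₀((f₀+f₂P)² - f₁(f₂Q+f₁P)) - f₁(f₂Q(f₀+f₂P) - f₁²Q) + f₂(f₂Q(f₂Q+f₁P) - f₁Q(f₀+f₂P))` of degree `≤ 3d + 6`, and `N` is a multiple of
`f₀ + f₁E + f₂E²` in `ℝ⟦X⟧` (cofactors; `E³ = PE + Q`). `N ≠ 0`: if `f₂ = 0`, `N = f₀³ - Pf₀f₁² + Qf₁³` (`no_root` with `a = -f₀`, `b = f₁`, or
`f₁ = 0`). If `f₂ ≠ 0`, multiply by `h = f₂E - f₁`: `(f₀+f₁E+f₂E²)h = g₀ + g₁E` with `g₀ = f₂²Q - f₀f₁`, `g₁ = f₀f₂ - f₁² + f₂²P`, and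
`N(f)N(h) = N(fh)` (polynomial identity): `N(f) = 0` would give `g₀³ - P g₀g₁² + Qg₁³ = 0`, so `g₀ = g₁ = 0`, and then
`f₁³ = P f₁f₂² + Q f₂³` (from `f₀f₁ = f₂²Q`, `f₁² = f₀f₂ + f₂²P`), contradiction to `no_root`. -/
theorem ord_poly {H : ℕ} {A B : ℤ} {E : PowerSeries ℤ} (h : Ser H A B E) (hAB : A ^ 3 ≠ 27 * B) (d : ℕ)
    (a : ℕ → ℕ → ℝ) (ha : ∀ k j, d < j → a k j = 0) (hne : ∃ k < 3, ∃ j, a k j ≠ 0) :
    ∃ N ≤ 3 * d + 6, ∑ k ∈ Finset.range 3, ∑ j ∈ Finset.range (N + 1),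
      a k j * ((PowerSeries.coeff (N - j) (E ^ k) : ℤ) : ℝ) ≠ 0 := by
  by_contra hcon
  push Not at hcon
  obtain ⟨-, hE, -⟩ := h
  set φ := PowerSeries.map (Int.castRingHom ℝ) with hφ
  set Er : PowerSeries ℝ := φ E with hEr
  set P : Polynomial ℝ := Polynomial.C (9 * (A : ℝ)) * Polynomial.X with hP
  set Q : Polynomial ℝ := 1 + Polynomial.C (729 * (B : ℝ)) * Polynomial.X ^ 3 with hQ
  set f : ℕ → Polynomial ℝ := fun k => lb2_f d (a k) with hf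
  have hEr3 : Er ^ 3 = (P : PowerSeries ℝ) * Er + (Q : PowerSeries ℝ) := by
    have e1 : φ (PowerSeries.C (9 * A)) = PowerSeries.C (9 * (A : ℝ)) := by
      rw [hφ, PowerSeries.map_C]; congr 1; simp
    have e2 : φ (PowerSeries.C (729 * B)) = PowerSeries.C (729 * (B : ℝ)) := by
      rw [hφ, PowerSeries.map_C]; congr 1; simp
    have e3 : φ PowerSeries.X = PowerSeries.X := by rw [hφ, PowerSeries.map_X]
    have h1 := congrArg φ hE
    rw [RingHom.map_pow φ, RingHom.map_add φ, RingHom.map_add φ, RingHom.map_mul φ, RingHom.map_mul φ,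
      RingHom.map_mul φ, RingHom.map_one φ, RingHom.map_pow φ, e1, e2, e3] at h1
    rw [hEr, h1, hP, hQ, Polynomial.coe_mul, Polynomial.coe_add, Polynomial.coe_mul, Polynomial.coe_pow,
      Polynomial.coe_C, Polynomial.coe_C, Polynomial.coe_X, Polynomial.coe_one]
    ring
  have hco : ∀ k N, PowerSeries.coeff N ((f k : PowerSeries ℝ) * Er ^ k) =
      ∑ j ∈ Finset.range (N + 1), a k j * ((PowerSeries.coeff (N - j) (E ^ k) : ℤ) : ℝ) := by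
    intro k N
    rw [PowerSeries.coeff_mul, Finset.Nat.sum_antidiagonal_eq_sum_range_succ_mk]
    refine Finset.sum_congr rfl fun j _ => ?_
    rw [Polynomial.coeff_coe, hf, lb2_coeff d (a k) (ha k) j, hEr, ← map_pow, hφ, PowerSeries.coeff_map]
    rfl
  set Y : PowerSeries ℝ := (f 0 : PowerSeries ℝ) + (f 1 : PowerSeries ℝ) * Er + (f 2 : PowerSeries ℝ) * Er ^ 2
    with hY
  have hYc : ∀ N ≤ 3 * d + 6, PowerSeries.coeff N Y = 0 := by
    intro N hN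
    rw [← hcon N hN, Finset.sum_range_succ, Finset.sum_range_succ, Finset.sum_range_succ, Finset.sum_range_zero,
      zero_add, ← hco 0 N, ← hco 1 N, ← hco 2 N, hY, map_add, map_add, pow_zero, mul_one, pow_one]
  have hYd : (PowerSeries.X : PowerSeries ℝ) ^ (3 * d + 7) ∣ Y :=
    PowerSeries.X_pow_dvd_iff.2 fun m hm => hYc m (by omega)
  have hN := lb2_norm (f 0 : PowerSeries ℝ) (f 1 : PowerSeries ℝ) (f 2 : PowerSeries ℝ) (P : PowerSeries ℝ)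
    (Q : PowerSeries ℝ) Er hEr3
  have hNc : lb2_N (f 0 : PowerSeries ℝ) (f 1 : PowerSeries ℝ) (f 2 : PowerSeries ℝ) (P : PowerSeries ℝ)
      (Q : PowerSeries ℝ) = ((lb2_N (f 0) (f 1) (f 2) P Q : Polynomial ℝ) : PowerSeries ℝ) := by
    unfold lb2_N
    simp only [Polynomial.coe_mul, Polynomial.coe_add, Polynomial.coe_sub, Polynomial.coe_pow]
  have hNd : (PowerSeries.X : PowerSeries ℝ) ^ (3 * d + 7) ∣
      ((lb2_N (f 0) (f 1) (f 2) P Q : Polynomial ℝ) : PowerSeries ℝ) := by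
    rw [← hNc, ← hN]
    exact Dvd.dvd.mul_right hYd _
  have hPd : P.natDegree ≤ 1 := by
    rw [hP]
    exact lb2_m (m := 0) (n := 1) (Polynomial.natDegree_C _).le Polynomial.natDegree_X_le (by norm_num)
  have hQd : Q.natDegree ≤ 3 := by
    rw [hQ]
    exact lb2_add (by simp) (lb2_m (m := 0) (n := 3) (Polynomial.natDegree_C _).le (Polynomial.natDegree_X_pow_le 3)
      (by norm_num))
  have hN0 : lb2_N (f 0) (f 1) (f 2) P Q = 0 := by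
    ext m
    rw [Polynomial.coeff_zero]
    rcases lt_or_ge m (3 * d + 7) with hm | hm
    · rw [← Polynomial.coeff_coe]
      exact PowerSeries.X_pow_dvd_iff.1 hNd m hm
    · exact Polynomial.coeff_eq_zero_of_natDegree_lt
        (lt_of_le_of_lt (lb2_Ndeg d (lb2_deg _ _) (lb2_deg _ _) (lb2_deg _ _) hPd hQd) (by omega))
  obtain ⟨g0, g1, g2⟩ := lb2_ne hAB _ _ _ hN0
  obtain ⟨k, hk, j, hj⟩ := hne
  apply hj
  have hkj : (f k).coeff j = a k j := lb2_coeff d (a k) (ha k) j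
  have hk0 : f k = 0 := by
    have : k = 0 ∨ k = 1 ∨ k = 2 := by omega
    rcases this with rfl | rfl | rfl
    · exact g0
    · exact g1
    · exact g2
  rw [← hkj, hk0, Polynomial.coeff_zero]

end U44
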