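import Pool.Agent.LibU44.S2

namespace U44

/-- Row LB4. A nonzero integer combination is a nonzero series: if `C k j = ∑_m w_m c m k j` is not always `0`, let `j` be minimal with
some `C k j ≠ 0`; the coefficient number `j` is `(9A)^j p^j (C₀ p² + C₁ β p + C₂ β²) ≠ 0` by `indep` (hypothesis `hp`). -/
theorem Yc_ne {H : ℕ} {A B : ℤ} {E : PowerSeries ℤ} (h : Ser H A B E) (hA : A ≠ 0) (β : ℕ) (hβ : 1 ≤ β) (p : ℝ)
    (hp0 : 0 < p) (hp : ∀ x₀ x₁ x₂ : ℤ, (x₀ : ℝ) + x₁ * p + x₂ * p ^ 2 = 0 → x₀ = 0 ∧ x₁ = 0 ∧ x₂ = 0)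
    (c : ℕ → ℕ → ℕ → ℤ) (w : ℕ → ℤ) (k₀ j₀ : ℕ) (hk : k₀ < 3)
    (hne : ∑ m ∈ Finset.range 3, w m * c m k₀ j₀ ≠ 0) :
    ∃ N, ∑ i : Fin 3, (w (i : ℕ) : ℝ) * Yc A β p E (c (i : ℕ)) N ≠ 0 := by
  classical
  set C : ℕ → ℕ → ℤ := fun k j => ∑ m ∈ Finset.range 3, w m * c m k j with hC
  have hex : ∃ j, ∃ k < 3, C k j ≠ 0 := ⟨j₀, k₀, hk, hne⟩
  obtain ⟨N, ⟨k, hk3, hkN⟩, hmin⟩ : ∃ N, (∃ k < 3, C k N ≠ 0) ∧ ∀ j < N, ∀ k < 3, C k j = 0 := by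
    refine ⟨Nat.find hex, Nat.find_spec hex, ?_⟩
    intro j hj k hk
    by_contra hcon
    exact Nat.find_min hex hj ⟨k, hk, hcon⟩
  refine ⟨N, ?_⟩
  have h1 : ∑ i : Fin 3, (w (i : ℕ) : ℝ) * Yc A β p E (c (i : ℕ)) N =
      ∑ k ∈ Finset.range 3, ∑ j ∈ Finset.range (N + 1), (C k j : ℝ) * ((9 * (A : ℝ)) ^ j *
        (β : ℝ) ^ k * p ^ (j + 2 - k) * ((PowerSeries.coeff (N - j) (E ^ k) : ℤ) : ℝ)) := by
    rw [Fin.sum_univ_eq_sum_range (fun m => (w m : ℝ) * Yc A β p E (c m) N) 3]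
    simp only [Yc, Finset.mul_sum]
    rw [Finset.sum_comm]
    refine Finset.sum_congr rfl fun k _ => ?_
    rw [Finset.sum_comm]
    refine Finset.sum_congr rfl fun j _ => ?_
    rw [hC]
    push_cast
    rw [Finset.sum_mul]
    refine Finset.sum_congr rfl fun m _ => ?_
    ring
  have h2 : ∀ k < 3, ∑ j ∈ Finset.range (N + 1), (C k j : ℝ) * ((9 * (A : ℝ)) ^ j *
        (β : ℝ) ^ k * p ^ (j + 2 - k) * ((PowerSeries.coeff (N - j) (E ^ k) : ℤ) : ℝ)) =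
      (C k N : ℝ) * ((9 * (A : ℝ)) ^ N * (β : ℝ) ^ k * p ^ (N + 2 - k)) := by
    intro k hk
    rw [Finset.sum_eq_single N]
    · rw [Nat.sub_self, PowerSeries.coeff_zero_eq_constantCoeff, map_pow, h.1, one_pow,
        Int.cast_one, mul_one]
    · intro j hj hjN
      rw [hmin j (by have := Finset.mem_range.1 hj; omega) k hk]
      simp
    · intro hN
      exact absurd (Finset.mem_range.2 (Nat.lt_succ_self N)) hN
  have h3 : ∑ i : Fin 3, (w (i : ℕ) : ℝ) * Yc A β p E (c (i : ℕ)) N =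
      (9 * (A : ℝ)) ^ N * p ^ N * (((C 2 N * (β : ℤ) ^ 2 : ℤ) : ℝ) + ((C 1 N * (β : ℤ) : ℤ) : ℝ) * p +
        ((C 0 N : ℤ) : ℝ) * p ^ 2) := by
    rw [h1, Finset.sum_range_succ, Finset.sum_range_succ, Finset.sum_range_one,
      h2 0 (by norm_num), h2 1 (by norm_num), h2 2 (by norm_num)]
    have e1 : N + 2 - 1 = N + 1 := by omega
    have e2 : N + 2 - 2 = N := by omega
    have e3 : N + 2 - 0 = N + 2 := by omega
    rw [e1, e2, e3]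
    push_cast
    ring
  rw [h3]
  have hA' : (9 * (A : ℝ)) ≠ 0 := mul_ne_zero (by norm_num) (Int.cast_ne_zero.2 hA)
  refine mul_ne_zero (mul_ne_zero (pow_ne_zero _ hA') (pow_ne_zero _ hp0.ne')) ?_
  intro hz
  obtain ⟨a0, a1, a2⟩ := hp _ _ _ hz
  have hβ0 : (β : ℤ) ≠ 0 := by exact_mod_cast (show β ≠ 0 by omega)
  have b2 : C 2 N = 0 := (mul_eq_zero.1 a0).resolve_right (pow_ne_zero _ hβ0)
  have b1 : C 1 N = 0 := (mul_eq_zero.1 a1).resolve_right hβ0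
  interval_cases k
  · exact hkN a2
  · exact hkN b1
  · exact hkN b2

end U44
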