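import Pool.Agent.LibU44.GC
import Pool.Agent.LibT44.H3b

namespace U44
open T44

/-- the coordinates of a point of `S` -/
theorem lt_pt {H : ℕ} {w : ℤ × ℤ} {α β : ℕ} {p q : ℝ} {z : ℤ × ℤ × ℤ}
    (hcl : Cl α β p q) (hsol : Sol H α β z) (h1 : z.1 = w.1) (h2 : w.2 = (α : ℤ) * β * F α β z) :
    |w.1| ≤ (H : ℤ) ∧ |w.2| ≤ (H : ℤ) ^ 3 ∧ w.2 ≠ 0 ∧ (α, β) ∈ Prs (H ^ 3) := by
  obtain ⟨hα, hβ, -, -, -, -, -, -, -, -, -⟩ := hcl
  obtain ⟨k1, k2, k3, -, -⟩ := hsol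
  have hα' : (1 : ℤ) ≤ α := by exact_mod_cast hα
  have hβ' : (1 : ℤ) ≤ β := by exact_mod_cast hβ
  have hab : (0 : ℤ) < (α : ℤ) * β := by positivity
  refine ⟨by rw [← h1]; exact k1, ?_, ?_, ?_⟩
  · rw [h2, abs_mul, abs_of_pos hab]
    exact k3
  · rw [h2]
    exact mul_ne_zero hab.ne' k2
  · have hF : 1 ≤ |F α β z| := Int.one_le_abs k2
    have h3 : (α : ℤ) * β ≤ (H : ℤ) ^ 3 := by nlinarith
    have h4 : α * β ≤ H ^ 3 := by exact_mod_cast h3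
    unfold Prs
    rw [Finset.mem_filter, Finset.mem_product, Finset.mem_Icc, Finset.mem_Icc]
    refine ⟨⟨⟨hα, ?_⟩, ⟨hβ, ?_⟩⟩, h4⟩
    · exact (Nat.le_mul_of_pos_right _ hβ).trans h4
    · exact (Nat.le_mul_of_pos_left _ hα).trans h4

/-- the gigantic solutions -/
theorem lt_big (H : ℕ) (hH2 : 2 ≤ H) (S : Finset (ℤ × ℤ))
    (hS : ∀ w ∈ S, w.1 ≠ 0 ∧ ∃ (α β : ℕ) (p q : ℝ) (z : ℤ × ℤ × ℤ), Cl α β p q ∧ Sol H α β z ∧
      z.1 = w.1 ∧ w.2 = (α : ℤ) * β * F α β z ∧ (10 * (H : ℝ)) ^ 300000 ≤ sS p q z) :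
    (S.card : ℝ) ≤ 1000 * (H : ℝ) ^ (37 / 10 : ℝ) := by
  classical
  have hne : ∀ w ∈ S, w.1 ≠ 0 := fun w hw => (hS w hw).1
  have hS' : ∀ w ∈ S, ∃ (α β : ℕ) (p q : ℝ) (z : ℤ × ℤ × ℤ), Cl α β p q ∧ Sol H α β z ∧
      z.1 = w.1 ∧ w.2 = (α : ℤ) * β * F α β z ∧ (10 * (H : ℝ)) ^ 300000 ≤ sS p q z :=
    fun w hw => (hS w hw).2
  choose! α β p q z hz using hS'
  have hH : 1 ≤ H := by omega
  have hH1 : (1 : ℝ) ≤ H := by exact_mod_cast hH
  have hH0 : (0 : ℝ) < H := by linarith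
  set t : ℝ := (H : ℝ) ^ (3 / 10 : ℝ) with ht
  have ht1 : 1 ≤ t := Real.one_le_rpow hH1 (by norm_num)
  set s : ℝ := (H : ℝ) ^ (1 / 10 : ℝ) with hs
  have hs1 : 1 ≤ s := Real.one_le_rpow hH1 (by norm_num)
  set J : ℕ := ⌈t⌉₊ with hJ
  have hJ1 : 1 ≤ J := Nat.one_le_ceil_iff.2 (by linarith)
  have hJt : t ≤ J := Nat.le_ceil t
  have hJ2 : (J : ℝ) ≤ 2 * t := by
    have := Nat.ceil_lt_add_one (by linarith : (0 : ℝ) ≤ t)
    linarith
  have hcard := Finset.card_filter_add_card_filter_not (s := S)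
    (fun w : ℤ × ℤ => ∃ j : ℕ, J < j ∧ (j : ℤ) ^ 3 ∣ w.2)
  set S1 := S.filter (fun w : ℤ × ℤ => ∃ j : ℕ, J < j ∧ (j : ℤ) ^ 3 ∣ w.2) with hS1
  set S2 := S.filter (fun w : ℤ × ℤ => ¬ ∃ j : ℕ, J < j ∧ (j : ℤ) ^ 3 ∣ w.2) with hS2
  have hb : ∀ w ∈ S, |w.1| ≤ (H : ℤ) ∧ |w.2| ≤ (H : ℤ) ^ 3 ∧ w.2 ≠ 0 ∧
      (α w, β w) ∈ Prs (H ^ 3) := by
    intro w hw
    obtain ⟨hcl, hsol, h1, h2, -⟩ := hz w hw
    exact lt_pt hcl hsol h1 h2
  -- the multiples of large cubes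
  have hA : (S1.card : ℝ) ≤ 6 * (H : ℝ) ^ (37 / 10 : ℝ) := by
    have h1 := cube_mult H J hH hJ1 S1 (fun w hw => by
      rw [hS1, Finset.mem_filter] at hw
      obtain ⟨k1, k2, k3, -⟩ := hb w hw.1
      exact ⟨k1, k2, k3, hw.2⟩)
    refine h1.trans ?_
    have h2 : t ^ 2 ≤ (J : ℝ) ^ 2 := by nlinarith
    have h3 : 6 * (H : ℝ) ^ 4 / (J : ℝ) ^ 2 ≤ 6 * (H : ℝ) ^ 4 / t ^ 2 :=
      div_le_div_of_nonneg_left (by positivity) (by positivity) h2
    refine h3.trans ?_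
    rw [div_le_iff₀ (by positivity)]
    have h4 : t ^ 2 = (H : ℝ) ^ (6 / 10 : ℝ) := by
      rw [ht, ← Real.rpow_natCast, ← Real.rpow_mul hH0.le]
      norm_num
    have h5 : (H : ℝ) ^ 4 ≤ (H : ℝ) ^ (37 / 10 : ℝ) * t ^ 2 := by
      rw [h4, ← Real.rpow_add hH0, ← Real.rpow_natCast]
      exact Real.rpow_le_rpow_of_exponent_le hH1 (by norm_num)
    nlinarith
  -- the classes
  have hB : (S2.card : ℝ) ≤ 968 * (H : ℝ) ^ (37 / 10 : ℝ) := by
    have hfib := Finset.card_eq_sum_card_fiberwise (s := S2) (t := Prs (H ^ 3))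
      (f := fun w => (α w, β w)) (fun w hw => by
        have hw' : w ∈ S2 := hw
        rw [hS2, Finset.mem_filter] at hw'
        exact (hb w hw'.1).2.2.2)
    have hone : ∀ c ∈ Prs (H ^ 3),
        (((S2.filter (fun w => (α w, β w) = c)).card : ℕ) : ℝ) ≤ J * 44 := by
      intro c _
      rcases (S2.filter (fun w => (α w, β w) = c)).eq_empty_or_nonempty with he | ⟨w0, hw0⟩
      · rw [he]
        simp only [Finset.card_empty, Nat.cast_zero]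
        positivity
      · rw [Finset.mem_filter] at hw0
        have hw0S : w0 ∈ S := (Finset.mem_filter.1 hw0.1).1
        have hinj : Set.InjOn z (S2.filter (fun w => (α w, β w) = c) : Finset (ℤ × ℤ)) := by
          intro w hw w' hw' e
          rw [Finset.mem_coe, Finset.mem_filter] at hw hw'
          have hwS : w ∈ S := (Finset.mem_filter.1 hw.1).1
          have hwS' : w' ∈ S := (Finset.mem_filter.1 hw'.1).1
          obtain ⟨-, -, h1, h2, -⟩ := hz w hwS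
          obtain ⟨-, -, h1', h2', -⟩ := hz w' hwS'
          have e1 : (α w, β w) = (α w', β w') := hw.2.trans hw'.2.symm
          rw [Prod.mk.injEq] at e1
          refine Prod.ext ?_ ?_
          · rw [← h1, ← h1', e]
          · rw [h2, h2', e, e1.1, e1.2]
        rw [← Finset.card_image_of_injOn hinj]
        refine gigantic (hz w0 hw0S).1 hH2 J _ ?_
        intro z' hz'
        rw [Finset.mem_image] at hz'
        obtain ⟨w, hw, rfl⟩ := hz'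
        rw [Finset.mem_filter] at hw
        have hwS2 := Finset.mem_filter.1 hw.1
        obtain ⟨hcl, hsol, h1, h2, h3⟩ := hz w hwS2.1
        have e1 : (α w, β w) = (α w0, β w0) := hw.2.trans hw0.2.symm
        rw [Prod.mk.injEq] at e1
        have hcl' := hcl
        rw [e1.1, e1.2] at hcl'
        obtain ⟨ep, eq⟩ := h3b_pq hcl' (hz w0 hw0S).1
        rw [← e1.1, ← e1.2, ← ep, ← eq]
        refine ⟨hsol, ?_, h3, ?_⟩
        · rw [h1]
          exact hne w hwS2.1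
        · by_contra hcon
          exact hwS2.2 ⟨_, not_le.1 hcon, by rw [h2]; exact h3b_gcd _ _ _⟩
    have hsum : (S2.card : ℝ) ≤ (Prs (H ^ 3)).card * (J * 44) := by
      rw [hfib]
      push_cast
      calc ∑ c ∈ Prs (H ^ 3), (((S2.filter (fun w => (α w, β w) = c)).card : ℕ) : ℝ)
          ≤ ∑ _c ∈ Prs (H ^ 3), (J : ℝ) * 44 := Finset.sum_le_sum hone
        _ = (Prs (H ^ 3)).card * (J * 44) := by
          rw [Finset.sum_const, nsmul_eq_mul]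
    have hprs := prs_card (H ^ 3) (Nat.one_le_pow _ _ hH)
    push_cast at hprs
    have hlog : Real.log ((H : ℝ) ^ 3) = 3 * Real.log H := by
      rw [Real.log_pow]
      norm_num
    rw [hlog] at hprs
    have hl : Real.log H ≤ t / (3 / 10) := Real.log_le_rpow_div hH0.le (by norm_num)
    have hl2 : 1 + 3 * Real.log H ≤ 11 * t := by
      have : t / (3 / 10) = 10 / 3 * t := by ring
      linarith
    have hP : ((Prs (H ^ 3)).card : ℝ) ≤ (H : ℝ) ^ 3 * (11 * t) :=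
      hprs.trans (mul_le_mul_of_nonneg_left hl2 (by positivity))
    have hJs : (J : ℝ) * 44 ≤ 2 * t * (44 * s) := by nlinarith
    have hfin : ((Prs (H ^ 3)).card : ℝ) * (J * 44) ≤
        (H : ℝ) ^ 3 * (11 * t) * (2 * t * (44 * s)) :=
      mul_le_mul hP hJs (by positivity) (by positivity)
    have he : (H : ℝ) ^ 3 * (11 * t) * (2 * t * (44 * s)) = 968 * (H : ℝ) ^ (37 / 10 : ℝ) := by
      have h1 : (H : ℝ) ^ (37 / 10 : ℝ) = (H : ℝ) ^ 3 * t * t * s := by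
        rw [ht, hs, ← Real.rpow_natCast, ← Real.rpow_add hH0, ← Real.rpow_add hH0,
          ← Real.rpow_add hH0]
        norm_num
      rw [h1]
      ring
    exact hsum.trans (hfin.trans he.le)
  have hc : (S.card : ℝ) = S1.card + S2.card := by
    rw [← hcard]
    push_cast
    ring
  rw [hc]
  have h0 : 0 ≤ (H : ℝ) ^ (37 / 10 : ℝ) := by positivity
  linarith

/-- the trivial bound -/
theorem lt_triv (H : ℕ) (hH : 1 ≤ H) (S : Finset (ℤ × ℤ))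
    (hS : ∀ w ∈ S, |w.1| ≤ (H : ℤ) ∧ |w.2| ≤ (H : ℤ) ^ 3) : (S.card : ℝ) ≤ 9 * (H : ℝ) ^ 4 := by
  have h1 : S ⊆ Finset.Icc (-(H : ℤ)) H ×ˢ Finset.Icc (-(H : ℤ) ^ 3) ((H : ℤ) ^ 3) := by
    intro w hw
    obtain ⟨k1, k2⟩ := hS w hw
    rw [abs_le] at k1 k2
    rw [Finset.mem_product, Finset.mem_Icc, Finset.mem_Icc]
    exact ⟨k1, k2⟩
  have h2 := Finset.card_le_card h1
  rw [Finset.card_product, Int.card_Icc, Int.card_Icc] at h2
  have e1 : ((H : ℤ) + 1 - -(H : ℤ)).toNat = 2 * H + 1 := by omega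
  have e2 : ((H : ℤ) ^ 3 + 1 - -(H : ℤ) ^ 3).toNat = 2 * H ^ 3 + 1 := by
    have : (H : ℤ) ^ 3 + 1 - -(H : ℤ) ^ 3 = ((2 * H ^ 3 + 1 : ℕ) : ℤ) := by
      push_cast
      ring
    rw [this, Int.toNat_natCast]
  rw [e1, e2] at h2
  have h3 : (S.card : ℝ) ≤ (2 * (H : ℝ) + 1) * (2 * (H : ℝ) ^ 3 + 1) := by exact_mod_cast h2
  have hH1 : (1 : ℝ) ≤ H := by exact_mod_cast hH
  have h4 : (1 : ℝ) ≤ (H : ℝ) ^ 3 := one_le_pow₀ hH1
  nlinarith

/-- `(10H)^300000 ≤ exp (exp (H^(1/10) + 2))` for large `H` -/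
theorem lt_asym (H : ℕ) (hH : 10 ^ 70 ≤ H) :
    (10 * (H : ℝ)) ^ 300000 ≤ Real.exp (Real.exp ((H : ℝ) ^ (1 / 10 : ℝ) + 2)) := by
  have hHr : (10 : ℝ) ^ 70 ≤ H := by exact_mod_cast hH
  have hH0 : (0 : ℝ) < H := lt_of_lt_of_le (by positivity) hHr
  set x : ℝ := (H : ℝ) ^ (1 / 10 : ℝ) with hx
  have hx1 : (10 : ℝ) ^ 7 ≤ x := by
    have h1 : ((10 : ℝ) ^ 70) ^ (1 / 10 : ℝ) = 10 ^ 7 := by
      rw [show (10 : ℝ) ^ 70 = ((10 : ℝ) ^ 7) ^ (10 : ℕ) by rw [← pow_mul],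
        ← Real.rpow_natCast, ← Real.rpow_mul (by positivity)]
      norm_num
    rw [← h1, hx]
    exact Real.rpow_le_rpow (by positivity) hHr (by norm_num)
  have hx0 : 0 < x := lt_of_lt_of_le (by positivity) hx1
  have hlogH : Real.log H = 10 * Real.log x := by
    rw [hx, Real.log_rpow hH0]
    ring
  have hlog : Real.log (10 * (H : ℝ)) ≤ 3 + 10 * x := by
    rw [Real.log_mul (by norm_num) hH0.ne', hlogH]
    have h1 : Real.log 10 ≤ 3 := by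
      have h := Real.log_le_sub_one_of_pos (show (0 : ℝ) < 10 / Real.exp 2 by positivity)
      rw [Real.log_div (by norm_num) (Real.exp_pos 2).ne', Real.log_exp] at h
      have h2 : (5 : ℝ) ≤ Real.exp 2 := by
        have := Real.quadratic_le_exp_of_nonneg (show (0 : ℝ) ≤ 2 by norm_num)
        linarith
      have h3 : 10 / Real.exp 2 ≤ 2 := by
        rw [div_le_iff₀ (Real.exp_pos 2)]
        linarith
      linarith
    have h2 : Real.log x ≤ x := (Real.log_le_sub_one_of_pos hx0).trans (by linarith)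
    linarith
  have hexp : 300000 * (3 + 10 * x) ≤ Real.exp (x + 2) := by
    have h1 := Real.quadratic_le_exp_of_nonneg hx0.le
    have h2 : Real.exp x ≤ Real.exp (x + 2) := Real.exp_le_exp.2 (by linarith)
    have h3 : (10 : ℝ) ^ 7 * x ≤ x * x := mul_le_mul_of_nonneg_right hx1 hx0.le
    nlinarith
  rw [← Real.log_le_iff_le_exp (by positivity), Real.log_pow]
  refine le_trans ?_ hexp
  push_cast
  linarith

/-- Row LT. All large solutions. Split `S`: `log sS ≤ exp(H^(1/10) + 2)`: `T44.large_total`. The others have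
`sS > exp (exp (H^(1/10) + 2)) ≥ (10H)^300000` for `H ≥ H₀`; for `H < H₀` use `S.card ≤ (2H+1)(2H³+1)` (`|w.1| ≤ H`, `|w.2| ≤ H³`). For `H ≥ H₀` as in
`T44.large_total` (copy its proof): `J = ⌈H^(3/10)⌉`, `gcd > J`: `cube_mult`; otherwise `gigantic` for each class. -/
theorem large_all : ∃ C : ℝ, 0 < C ∧ ∀ H : ℕ, 1 ≤ H → ∀ S : Finset (ℤ × ℤ),
    (∀ w ∈ S, w.1 ≠ 0 ∧ ∃ (α β : ℕ) (p q : ℝ) (z : ℤ × ℤ × ℤ), Cl α β p q ∧ Sol H α β z ∧ z.1 = w.1 ∧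
      w.2 = (α : ℤ) * β * F α β z ∧ 10 ^ 7 * (H : ℝ) ^ 20 ≤ sS p q z) →
    (S.card : ℝ) ≤ C * (H : ℝ) ^ (37 / 10 : ℝ) := by
  classical
  obtain ⟨C, hC, hT⟩ := large_total
  set K : ℝ := 9 * ((10 : ℝ) ^ 70) ^ 4 with hK
  have hK0 : 0 < K := by positivity
  refine ⟨C + K + 1000, by positivity, fun H hH S hS => ?_⟩
  have hH1 : (1 : ℝ) ≤ H := by exact_mod_cast hH
  have hP1 : 1 ≤ (H : ℝ) ^ (37 / 10 : ℝ) := Real.one_le_rpow hH1 (by norm_num)
  by_cases hbig : 10 ^ 70 ≤ H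
  · have hne : ∀ w ∈ S, w.1 ≠ 0 := fun w hw => (hS w hw).1
    have hS' : ∀ w ∈ S, ∃ (α β : ℕ) (p q : ℝ) (z : ℤ × ℤ × ℤ), Cl α β p q ∧ Sol H α β z ∧
        z.1 = w.1 ∧ w.2 = (α : ℤ) * β * F α β z ∧ 10 ^ 7 * (H : ℝ) ^ 20 ≤ sS p q z :=
      fun w hw => (hS w hw).2
    choose! α β p q z hz using hS'
    have hcard := Finset.card_filter_add_card_filter_not (s := S)
      (fun w : ℤ × ℤ => Real.log (sS (p w) (q w) (z w)) ≤
        Real.exp ((H : ℝ) ^ (1 / 10 : ℝ) + 2))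
    set S1 := S.filter (fun w : ℤ × ℤ => Real.log (sS (p w) (q w) (z w)) ≤
        Real.exp ((H : ℝ) ^ (1 / 10 : ℝ) + 2)) with hS1
    set S2 := S.filter (fun w : ℤ × ℤ => ¬ Real.log (sS (p w) (q w) (z w)) ≤
        Real.exp ((H : ℝ) ^ (1 / 10 : ℝ) + 2)) with hS2
    have h1 : (S1.card : ℝ) ≤ C * (H : ℝ) ^ (37 / 10 : ℝ) := by
      refine hT H hH S1 fun w hw => ?_
      rw [hS1, Finset.mem_filter] at hw
      obtain ⟨k1, k2, k3, k4, k5⟩ := hz w hw.1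
      exact ⟨_, _, _, _, _, k1, k2, k3, k4, k5, hw.2⟩
    have h2 : (S2.card : ℝ) ≤ 1000 * (H : ℝ) ^ (37 / 10 : ℝ) := by
      refine lt_big H ?_ S2 fun w hw => ?_
      · refine le_trans ?_ hbig
        norm_num
      · rw [hS2, Finset.mem_filter, not_le] at hw
        obtain ⟨k1, k2, k3, k4, k5⟩ := hz w hw.1
        refine ⟨hne w hw.1, _, _, _, _, _, k1, k2, k3, k4, ?_⟩
        have hpos : 0 < sS (p w) (q w) (z w) := lt_of_lt_of_le (by positivity) k5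
        refine (lt_asym H hbig).trans ?_
        exact ((Real.lt_log_iff_exp_lt hpos).1 hw.2).le
    have hc : (S.card : ℝ) = S1.card + S2.card := by
      rw [← hcard]
      push_cast
      ring
    rw [hc]
    nlinarith
  · have h1 := lt_triv H hH S (fun w hw => by
      obtain ⟨-, α, β, p, q, z, k1, k2, k3, k4, -⟩ := hS w hw
      have := lt_pt k1 k2 k3 k4
      exact ⟨this.1, this.2.1⟩)
    have h2 : (H : ℝ) ≤ 10 ^ 70 := by
      have : H ≤ 10 ^ 70 := (not_le.1 hbig).le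
      exact_mod_cast this
    have h3 : (H : ℝ) ^ 4 ≤ ((10 : ℝ) ^ 70) ^ 4 := pow_le_pow_left₀ (by linarith) h2 4
    have h4 : (S.card : ℝ) ≤ K := by
      rw [hK]
      linarith
    have h5 : K ≤ K * (H : ℝ) ^ (37 / 10 : ℝ) := le_mul_of_one_le_right hK0.le hP1
    have h6 : 0 ≤ (C + 1000) * (H : ℝ) ^ (37 / 10 : ℝ) := by positivity
    calc (S.card : ℝ) ≤ K * (H : ℝ) ^ (37 / 10 : ℝ) := h4.trans h5
      _ ≤ K * (H : ℝ) ^ (37 / 10 : ℝ) + (C + 1000) * (H : ℝ) ^ (37 / 10 : ℝ) := by linarith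
      _ = (C + K + 1000) * (H : ℝ) ^ (37 / 10 : ℝ) := by ring

end U44
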