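import Pool.Agent.LibU44.Z1
import Pool.Agent.LibT44.A3

namespace U44
open T44

theorem z2_rat {α β : ℕ} {p q : ℝ} (h : Cl α β p q) (r s : ℤ)
    (he : r ^ 3 = (α : ℤ) * (β : ℤ) ^ 2 * s ^ 3) : r = 0 ∧ s = 0 := by
  have hβ : (β : ℤ) ≠ 0 := by exact_mod_cast (by have := h.2.1; omega : β ≠ 0)
  have h1 := cl_indep h r (β * s) (by linear_combination -(β : ℤ) * he)
  refine ⟨h1.1, ?_⟩
  rcases mul_eq_zero.1 h1.2 with h2 | h2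
  · exact absurd h2 hβ
  · exact h2

/-- Row Z1h. `1, p, p²` are linearly independent over `ℚ`. If `x₂ ≠ 0`: `x₂p² = -x₁p - x₀`, multiply by `p`:
`(x₀x₂ - x₁²) p = x₀x₁ - x₂²π`, `π = αβ²`. If `x₀x₂ = x₁²` then `x₂²π = x₀x₁`, `x₂³π = x₁³`; otherwise `p` is rational, `p = r/s`,
`r³ = πs³`. `r³ = αβ²s³` gives `β r³ = α (βs)³`, so `r = s = 0` by `cl_indep`. -/
theorem indep {α β : ℕ} {p q : ℝ} (h : Cl α β p q) (x₀ x₁ x₂ : ℤ) (hx : (x₀ : ℝ) + x₁ * p + x₂ * p ^ 2 = 0) :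
    x₀ = 0 ∧ x₁ = 0 ∧ x₂ = 0 := by
  obtain ⟨hp3, -⟩ := a3_cube h
  have hcd : ((x₀ * x₂ - x₁ ^ 2 : ℤ) : ℝ) * p = ((x₀ * x₁ - x₂ ^ 2 * (α * β ^ 2) : ℤ) : ℝ) := by
    push_cast
    linear_combination (-(x₁ : ℝ) + x₂ * p) * hx - (x₂ : ℝ) ^ 2 * hp3
  have h1 : (x₀ * x₁ - x₂ ^ 2 * (α * β ^ 2) : ℤ) ^ 3 =
      (α : ℤ) * (β : ℤ) ^ 2 * (x₀ * x₂ - x₁ ^ 2) ^ 3 := by
    have h2 : ((x₀ * x₁ - x₂ ^ 2 * (α * β ^ 2) : ℤ) : ℝ) ^ 3 =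
        (α : ℝ) * (β : ℝ) ^ 2 * ((x₀ * x₂ - x₁ ^ 2 : ℤ) : ℝ) ^ 3 := by
      rw [← hcd, mul_pow, hp3]
      ring
    exact_mod_cast h2
  obtain ⟨hd, hc⟩ := z2_rat h _ _ h1
  have h3 : x₁ ^ 3 = (α : ℤ) * (β : ℤ) ^ 2 * x₂ ^ 3 := by
    linear_combination x₂ * hd - x₁ * hc
  obtain ⟨h4, h5⟩ := z2_rat h _ _ h3
  refine ⟨?_, h4, h5⟩
  rw [h4, h5] at hx
  simp at hx
  exact hx

/-- Row Z1i (Liouville). `N = x₀³ + πx₁³ + π²x₂³ - 3πx₀x₁x₂ = x·Q` with `Q = x₀² + p²x₁² + p⁴x₂² - px₀x₁ - p²x₀x₂ - p³x₁x₂`,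
`|Q| ≤ 6M²p⁴`, and `N` is an integer, `≠ 0` if `x ≠ 0`: `Q = ½((x₀-px₁)² + (x₀-p²x₂)² + (px₁-p²x₂)²)` vanishes only if `x₀ = px₁`,
`px₁ = p²x₂`, so all `x_i = 0` by `indep`. -/
theorem liouville {α β : ℕ} {p q M x : ℝ} (h : Cl α β p q) (hx : Z3 p M x) (h0 : x ≠ 0) :
    1 ≤ |x| * (6 * M ^ 2 * p ^ 4) := by
  obtain ⟨x₀, x₁, x₂, h1, h2, h3, hxe⟩ := hx
  obtain ⟨hp3, -⟩ := a3_cube h
  have hp1 : 1 ≤ p := (cl_p h).1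
  have hM : 0 ≤ M := (abs_nonneg _).trans h1
  set Q : ℝ := (x₀ : ℝ) ^ 2 + p ^ 2 * x₁ ^ 2 + p ^ 4 * x₂ ^ 2 - p * x₀ * x₁ - p ^ 2 * x₀ * x₂ -
    p ^ 3 * x₁ * x₂ with hQ
  have hN : x * Q = ((x₀ ^ 3 + (α * β ^ 2) * x₁ ^ 3 + (α * β ^ 2) ^ 2 * x₂ ^ 3 -
      3 * (α * β ^ 2) * x₀ * x₁ * x₂ : ℤ) : ℝ) := by
    rw [hxe, hQ]
    push_cast
    linear_combination ((x₁ : ℝ) ^ 3 + (x₂ : ℝ) ^ 3 * (p ^ 3 + α * β ^ 2) - 3 * x₀ * x₁ * x₂) * hp3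
  have hQ0 : Q ≠ 0 := by
    intro hcon
    have e1 : ((x₀ : ℝ) - p * x₁) ^ 2 + (x₀ - p ^ 2 * x₂) ^ 2 + (p * x₁ - p ^ 2 * x₂) ^ 2 = 0 := by
      rw [hQ] at hcon
      linear_combination 2 * hcon
    have e2 : (x₀ : ℝ) - p * x₁ = 0 := by
      nlinarith [sq_nonneg ((x₀ : ℝ) - p * x₁), sq_nonneg ((x₀ : ℝ) - p ^ 2 * x₂),
        sq_nonneg (p * x₁ - p ^ 2 * x₂)]
    have e3 : (x₀ : ℝ) - p ^ 2 * x₂ = 0 := by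
      nlinarith [sq_nonneg ((x₀ : ℝ) - p * x₁), sq_nonneg ((x₀ : ℝ) - p ^ 2 * x₂),
        sq_nonneg (p * x₁ - p ^ 2 * x₂)]
    have e4 := indep h x₀ (-x₁) 0 (by push_cast; linarith)
    have e5 := indep h x₀ 0 (-x₂) (by push_cast; linarith)
    apply h0
    rw [hxe]
    have e6 : x₁ = 0 := by have := e4.2.1; omega
    have e7 : x₂ = 0 := by have := e5.2.2; omega
    rw [e4.1, e6, e7]
    simp
  have hN1 : 1 ≤ |x * Q| := by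
    rw [hN]
    have hne : (x₀ ^ 3 + (α * β ^ 2) * x₁ ^ 3 + (α * β ^ 2) ^ 2 * x₂ ^ 3 -
      3 * (α * β ^ 2) * x₀ * x₁ * x₂ : ℤ) ≠ 0 := by
      intro hcon
      rw [hcon] at hN
      rw [Int.cast_zero] at hN
      rcases mul_eq_zero.1 hN with h4 | h4
      · exact h0 h4
      · exact hQ0 h4
    have := Int.one_le_abs hne
    exact_mod_cast this
  have hp4 : 1 ≤ p ^ 4 := one_le_pow₀ hp1
  have hpk : ∀ k : ℕ, k ≤ 4 → p ^ k ≤ p ^ 4 := fun k hk => pow_le_pow_right₀ hp1 hk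
  have hterm : ∀ (k : ℕ) (a b : ℝ), k ≤ 4 → |a| ≤ M → |b| ≤ M → |p ^ k * (a * b)| ≤ p ^ 4 * M ^ 2 := by
    intro k a b hk ha hb
    rw [abs_mul, abs_mul, abs_of_nonneg (by positivity : 0 ≤ p ^ k), sq]
    exact mul_le_mul (hpk k hk) (mul_le_mul ha hb (abs_nonneg _) hM) (by positivity) (by positivity)
  have hQb : |Q| ≤ 6 * M ^ 2 * p ^ 4 := by
    have t1 := abs_le.1 (hterm 0 x₀ x₀ (by norm_num) h1 h1)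
    have t2 := abs_le.1 (hterm 2 x₁ x₁ (by norm_num) h2 h2)
    have t3 := abs_le.1 (hterm 4 x₂ x₂ (by norm_num) h3 h3)
    have t4 := abs_le.1 (hterm 1 x₀ x₁ (by norm_num) h1 h2)
    have t5 := abs_le.1 (hterm 2 x₀ x₂ (by norm_num) h1 h3)
    have t6 := abs_le.1 (hterm 3 x₁ x₂ (by norm_num) h2 h3)
    rw [abs_le, hQ]
    constructor <;> nlinarith
  rw [abs_mul] at hN1
  exact hN1.trans (mul_le_mul_of_nonneg_left hQb (abs_nonneg _))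

end U44
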