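import Pool.Agent.LibU44.PT1
import Pool.Agent.LibU44.Z2

namespace U44
open T44

theorem lv_pow {x : ℝ} (hx : 20 ≤ x) {D : ℕ} (hD : 1 ≤ D) :
    26 * x ^ 19 * (x ^ (2100 * D)) ^ 3 < x ^ (7000 * D) := by
  have h1 : (x ^ (2100 * D)) ^ 3 = x ^ (6300 * D) := by
    rw [← pow_mul]; congr 1; ring
  have hx0 : 0 < x := by linarith
  rw [h1]
  have h2 : (26 : ℝ) < x ^ 2 := by nlinarith
  calc 26 * x ^ 19 * x ^ (6300 * D) < x ^ 2 * x ^ 19 * x ^ (6300 * D) := by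
        have : 0 < x ^ 19 * x ^ (6300 * D) := by positivity
        nlinarith
    _ = x ^ (21 + 6300 * D) := by rw [← pow_add, ← pow_add]
    _ ≤ x ^ (7000 * D) := pow_le_pow_right₀ (by linarith) (by omega)

/-- Row LV (a very large solution satisfies no linear equation with small integer coefficients). `u₂ = W₂/p`,
`v₂ = β(W₂ + (a₂ - ξ₂)/3)/p²`: `p²·(γ·z₂) = W₂(γ₁p + βγ₂) + a₂(p²γ₀ + βγ₂/3) - ξ₂βγ₂/3`. If `(γ₁,γ₂) ≠ 0`: `liouville` (components `≤ h^(2103D)`):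
`|γ₁p + βγ₂| ≥ h^(-4215D)`, and the other terms are `≤ h^(2110D)`, but `W₂ ≥ S₂/2 - H ≥ h^(6990D)`. If `γ₁ = γ₂ = 0`: `γ₀a₂ ≠ 0`. -/
theorem lin_ne {H D α β : ℕ} {p q : ℝ} (h : Cl α β p q) (hH : 2 ≤ H) (hD : 1 ≤ D) (z : ℤ × ℤ × ℤ)
    (hz : Sol H α β z) (ha : z.1 ≠ 0) (hS : (10 * (H : ℝ)) ^ (7000 * D) ≤ sS p q z) (γ₀ γ₁ γ₂ : ℤ)
    (hγ : ¬ (γ₀ = 0 ∧ γ₁ = 0 ∧ γ₂ = 0)) (h0 : |(γ₀ : ℝ)| ≤ (10 * (H : ℝ)) ^ (2100 * D))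
    (h1 : |(γ₁ : ℝ)| ≤ (10 * (H : ℝ)) ^ (2100 * D)) (h2 : |(γ₂ : ℝ)| ≤ (10 * (H : ℝ)) ^ (2100 * D)) :
    γ₀ * z.1 + γ₁ * z.2.1 + γ₂ * z.2.2 ≠ 0 := by
  intro hlin
  by_cases h12 : γ₁ = 0 ∧ γ₂ = 0
  · obtain ⟨e1, e2⟩ := h12
    subst e1; subst e2
    have hγ0 : γ₀ ≠ 0 := fun e => hγ ⟨e, rfl, rfl⟩
    have : γ₀ * z.1 = 0 := by linarith
    rcases mul_eq_zero.1 this with e | e
    · exact hγ0 e
    · exact ha e
  have hcl := h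
  have hH1 : 1 ≤ H := by omega
  obtain ⟨w1, w2, w3, -, hαβ⟩ := wsize h hH1 z hz
  obtain ⟨hp1, hp3, hq, hpH⟩ := cl_p h
  obtain ⟨-, hp2, hβ⟩ := hpH H hαβ
  obtain ⟨-, hβ1, -⟩ := h
  have hHr : (2 : ℝ) ≤ H := by exact_mod_cast hH
  have hβr : (1 : ℝ) ≤ β := by exact_mod_cast hβ1
  have hβH : (β : ℝ) ≤ (H : ℝ) ^ 3 := by exact_mod_cast hβ
  set B : ℝ := (10 * (H : ℝ)) ^ (2100 * D) with hB
  have hB1 : 1 ≤ B := one_le_pow₀ (by linarith)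
  set W : ℝ := (z.2.1 : ℝ) * p with hW
  set V : ℝ := (z.2.2 : ℝ) * q with hV
  set S : ℝ := sS p q z with hSd
  have haH : |(z.1 : ℝ)| ≤ H := by
    have := hz.1
    have h3 : ((|z.1| : ℤ) : ℝ) ≤ ((H : ℤ) : ℝ) := by exact_mod_cast this
    simpa using h3
  -- the linear relation
  have hlinR : (γ₀ : ℝ) * z.1 + γ₁ * z.2.1 + γ₂ * z.2.2 = 0 := by exact_mod_cast hlin
  have hp0 : 0 < p := by linarith
  set x : ℝ := (γ₁ : ℝ) * p + β * γ₂ with hx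
  have hβV : p ^ 2 * (z.2.2 : ℝ) = β * V := by
    rw [hV, hq]; field_simp
  have hxW : W * x = -(p ^ 2 * γ₀ * z.1) - β * γ₂ * (V - W) := by
    have e1 : p ^ 2 * ((γ₀ : ℝ) * z.1 + γ₁ * z.2.1 + γ₂ * z.2.2) = 0 := by rw [hlinR]; ring
    have e2 : p ^ 2 * ((γ₂ : ℝ) * z.2.2) = γ₂ * (β * V) := by rw [← hβV]; ring
    have e3 : W * ((γ₁ : ℝ) * p) = p ^ 2 * (γ₁ * z.2.1) := by rw [hW]; ring
    rw [hx]
    linear_combination e1 - e2 + e3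
  -- `x ≠ 0`, Liouville
  have hxne : x ≠ 0 := by
    intro hx0
    obtain ⟨i0, i1, -⟩ := indep hcl (β * γ₂) γ₁ 0 (by
      push_cast
      rw [hx] at hx0
      linear_combination hx0)
    have hβ0 : (β : ℤ) ≠ 0 := by omega
    rcases mul_eq_zero.1 i0 with e | e
    · exact hβ0 e
    · exact h12 ⟨i1, e⟩
  have hZ : Z3 p ((H : ℝ) ^ 3 * B) x := by
    refine ⟨β * γ₂, γ₁, 0, ?_, ?_, ?_, ?_⟩
    · push_cast
      rw [abs_mul, abs_of_nonneg (by positivity : (0 : ℝ) ≤ β)]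
      exact mul_le_mul hβH h2 (abs_nonneg _) (by positivity)
    · calc |(γ₁ : ℝ)| ≤ B := h1
        _ ≤ (H : ℝ) ^ 3 * B := le_mul_of_one_le_left (by positivity) (one_le_pow₀ (by linarith))
    · simp only [Int.cast_zero, abs_zero]
      positivity
    · push_cast
      rw [hx]; ring
  have hL := liouville hcl hZ hxne
  have hp4 : p ^ 4 ≤ (H : ℝ) ^ 8 := by
    calc p ^ 4 ≤ ((H : ℝ) ^ 2) ^ 4 := pow_le_pow_left₀ hp0.le hp2 4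
      _ = (H : ℝ) ^ 8 := by ring
  have hL2 : 1 ≤ |x| * (6 * (H : ℝ) ^ 14 * B ^ 2) := by
    refine hL.trans (mul_le_mul_of_nonneg_left ?_ (abs_nonneg _))
    calc 6 * ((H : ℝ) ^ 3 * B) ^ 2 * p ^ 4 ≤ 6 * ((H : ℝ) ^ 3 * B) ^ 2 * (H : ℝ) ^ 8 :=
          mul_le_mul_of_nonneg_left hp4 (by positivity)
      _ = 6 * (H : ℝ) ^ 14 * B ^ 2 := by ring
  have hWx : |W| * |x| ≤ 2 * (H : ℝ) ^ 5 * B := by
    rw [← abs_mul, hxW]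
    have t1 : |p ^ 2 * γ₀ * z.1| ≤ (H : ℝ) ^ 5 * B := by
      rw [abs_mul, abs_mul, abs_of_nonneg (by positivity : (0 : ℝ) ≤ p ^ 2)]
      calc p ^ 2 * |(γ₀ : ℝ)| * |(z.1 : ℝ)| ≤ ((H : ℝ) ^ 2) ^ 2 * B * H := by
            gcongr
        _ = (H : ℝ) ^ 5 * B := by ring
    have t2 : |β * γ₂ * (V - W)| ≤ (H : ℝ) ^ 5 * B := by
      rw [abs_mul, abs_mul, abs_of_nonneg (by positivity : (0 : ℝ) ≤ β)]
      calc (β : ℝ) * |(γ₂ : ℝ)| * |V - W| ≤ (H : ℝ) ^ 3 * B * H := by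
            gcongr
        _ = (H : ℝ) ^ 4 * B := by ring
        _ ≤ (H : ℝ) ^ 5 * B := by
            gcongr
            · linarith
            · norm_num
    calc |-(p ^ 2 * γ₀ * z.1) - β * γ₂ * (V - W)| ≤ |-(p ^ 2 * γ₀ * z.1)| + |β * γ₂ * (V - W)| := abs_sub _ _
      _ ≤ (H : ℝ) ^ 5 * B + (H : ℝ) ^ 5 * B := by rw [abs_neg]; exact add_le_add t1 t2
      _ = 2 * (H : ℝ) ^ 5 * B := by ring
  have hWup : |W| ≤ 12 * (H : ℝ) ^ 19 * B ^ 3 := by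
    calc |W| = |W| * 1 := by ring
      _ ≤ |W| * (|x| * (6 * (H : ℝ) ^ 14 * B ^ 2)) := mul_le_mul_of_nonneg_left hL2 (abs_nonneg _)
      _ = (|W| * |x|) * (6 * (H : ℝ) ^ 14 * B ^ 2) := by ring
      _ ≤ (2 * (H : ℝ) ^ 5 * B) * (6 * (H : ℝ) ^ 14 * B ^ 2) := mul_le_mul_of_nonneg_right hWx (by positivity)
      _ = 12 * (H : ℝ) ^ 19 * B ^ 3 := by ring
  have hpw := lv_pow (x := 10 * (H : ℝ)) (by linarith) hD
  rw [← hB] at hpw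
  have hH19 : (H : ℝ) ^ 19 ≤ (10 * (H : ℝ)) ^ 19 := pow_le_pow_left₀ (by positivity) (by linarith) 19
  have hHle : (H : ℝ) ≤ (10 * (H : ℝ)) ^ 19 * B ^ 3 := by
    have a1 : (H : ℝ) ≤ (10 * (H : ℝ)) ^ 19 := by
      calc (H : ℝ) ≤ 10 * H := by linarith
        _ ≤ (10 * (H : ℝ)) ^ 19 := le_self_pow₀ (by linarith) (by norm_num)
    have a2 : 1 ≤ B ^ 3 := one_le_pow₀ hB1
    calc (H : ℝ) ≤ (10 * (H : ℝ)) ^ 19 * 1 := by linarith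
      _ ≤ (10 * (H : ℝ)) ^ 19 * B ^ 3 := mul_le_mul_of_nonneg_left a2 (by positivity)
  have hS2 : S / 2 - H ≤ |W| := by
    have := abs_le.1 w1
    have h3 := le_abs_self W
    linarith [this.1]
  have hfin : S ≤ 26 * (10 * (H : ℝ)) ^ 19 * B ^ 3 := by
    have hB3 : 0 ≤ B ^ 3 := by positivity
    nlinarith [mul_le_mul_of_nonneg_right hH19 hB3]
  linarith

end U44
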