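import Pool.Agent.LibU44.S3
import Pool.Agent.LibU44.Z1
import Pool.Agent.LibT44.B1

namespace U44
open T44

/-- Row PT1. From `size`: `W = (S - D)/2`, `V = (S + D)/2`, `|D| ≤ (H + 1/25)/3`. -/
theorem wsize {H α β : ℕ} {p q : ℝ} (h : Cl α β p q) (hH : 1 ≤ H) (z : ℤ × ℤ × ℤ) (hz : Sol H α β z) :
    |(z.2.1 : ℝ) * p - sS p q z / 2| ≤ H ∧ |(z.2.2 : ℝ) * q - sS p q z / 2| ≤ H ∧
      |(z.2.2 : ℝ) * q - z.2.1 * p| ≤ H ∧ |xX p q z| * sS p q z ^ 2 ≤ 5 * (H : ℝ) ^ 3 ∧ α * β ≤ H ^ 3 := by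
  obtain ⟨-, h2, -, h4, -, -⟩ := size h hH z hz
  have hH' : (1 : ℝ) ≤ H := by exact_mod_cast hH
  have hD : |dD p q z| ≤ (H + 1 / 25) / 3 := by linarith
  have hD0 := abs_nonneg (dD p q z)
  have e1 : (z.2.1 : ℝ) * p - sS p q z / 2 = -(dD p q z / 2) := by
    unfold sS dD
    ring
  have e2 : (z.2.2 : ℝ) * q - sS p q z / 2 = dD p q z / 2 := by
    unfold sS dD
    ring
  have e3 : (z.2.2 : ℝ) * q - z.2.1 * p = dD p q z := rfl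
  have h5 : |dD p q z / 2| ≤ H := by
    rw [abs_div, abs_two]
    linarith
  refine ⟨?_, ?_, ?_, h2, ?_⟩
  · rw [e1, abs_neg]
    exact h5
  · rw [e2]
    exact h5
  · rw [e3]
    linarith
  · obtain ⟨-, hF, hF3, -, -⟩ := hz
    have h6 : 1 ≤ |F α β z| := Int.one_le_abs hF
    have h7 : ((α : ℤ) * β) * 1 ≤ ((α : ℤ) * β) * |F α β z| :=
      mul_le_mul_of_nonneg_left h6 (by positivity)
    have h8 : ((α * β : ℕ) : ℤ) ≤ ((H ^ 3 : ℕ) : ℤ) := by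
      push_cast
      linarith
    exact_mod_cast h8

/-- Row PT2. The branch lies on the cubic: `αv³ = W₁³E³/(αβ)` (`q³ = α²β`), `βu₁³ = W₁³/(αβ)`, `a u₁ v = 9AωE W₁³/(αβ)`,
`e₁a³ = A³·729 e₁ W₁³ω³`, `B = αβe₁` (`eta_sum`). -/
theorem branch {H α β : ℕ} {p q : ℝ} (h : Cl α β p q) (hH : 1 ≤ H) (z : ℤ × ℤ × ℤ) (E : PowerSeries ℤ)
    (hE : Ser H z.1 ((α : ℤ) * β * F α β z) E) (ω : ℂ) (hω : ‖ω‖ * (10 ^ 5 * (H : ℝ)) ≤ 1) :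
    Gc α β z.1 z.2.1 (F α β z) (9 * z.1 * (((z.2.1 : ℝ) * p : ℝ) : ℂ) * ω)
      ((((z.2.1 : ℝ) * p : ℝ) : ℂ) * eta E ω / (q : ℂ)) = 0 := by
  have hs := (eta_sum hE hH ω hω).2.1
  obtain ⟨hα, hβ, -, -, -, -, hp, hq, hp2, hq2, hpq⟩ := h
  have hp' : (p : ℂ) ≠ 0 := by exact_mod_cast hp.ne'
  have hq' : (q : ℂ) ≠ 0 := by exact_mod_cast hq.ne'
  have hα' : (α : ℂ) ≠ 0 := by exact_mod_cast (show α ≠ 0 by omega)
  have hβ' : (β : ℂ) ≠ 0 := by exact_mod_cast (show β ≠ 0 by omega)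
  have hpqC : (p : ℂ) * q = α * β := by exact_mod_cast congrArg (fun x : ℝ => (x : ℂ)) hpq
  have hq3 : (q : ℂ) ^ 3 = (α : ℂ) ^ 2 * β := by
    have h1 : q ^ 3 = (α : ℝ) ^ 2 * β := by
      calc q ^ 3 = q ^ 2 * q := by ring
        _ = α * (p * q) := by rw [hq2]; ring
        _ = _ := by rw [hpq]; ring
    exact_mod_cast congrArg (fun x : ℝ => (x : ℂ)) h1
  have hp3 : (p : ℂ) ^ 3 = (α : ℂ) * β ^ 2 := by
    have h1 : p ^ 3 = (α : ℝ) * β ^ 2 := by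
      calc p ^ 3 = p ^ 2 * p := by ring
        _ = β * (p * q) := by rw [hp2]; ring
        _ = _ := by rw [hpq]; ring
    exact_mod_cast congrArg (fun x : ℝ => (x : ℂ)) h1
  set e : ℂ := eta E ω with he
  have hW : (((z.2.1 : ℝ) * p : ℝ) : ℂ) = (z.2.1 : ℂ) * p := by push_cast; ring
  rw [hW]
  unfold Gc
  have h1 : (α : ℂ) * ((z.2.1 : ℂ) * p * e / q) ^ 3 = (z.2.1 : ℂ) ^ 3 * β * e ^ 3 := by
    rw [div_pow, mul_pow, mul_pow, hp3, hq3]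
    field_simp
  have h2 : 9 * (z.1 : ℂ) * ((z.2.1 : ℂ) * p) * ω * z.2.1 * ((z.2.1 : ℂ) * p * e / q) =
      9 * z.1 * ω * e * ((z.2.1 : ℂ) ^ 3 * β) := by
    have h3 : (p : ℂ) ^ 2 / q = β := by
      rw [div_eq_iff hq']
      exact_mod_cast congrArg (fun x : ℝ => (x : ℂ)) hp2
    calc _ = 9 * z.1 * ω * e * (z.2.1 : ℂ) ^ 3 * ((p : ℂ) ^ 2 / q) := by ring
      _ = _ := by rw [h3]; ring
  rw [h1, h2]
  have h4 : (9 * (z.1 : ℂ) * ((z.2.1 : ℂ) * p) * ω) ^ 3 =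
      729 * z.1 ^ 3 * (z.2.1 : ℂ) ^ 3 * (α * β ^ 2) * ω ^ 3 := by
    rw [← hp3]
    ring
  rw [h4]
  push_cast at hs
  linear_combination (z.1 : ℂ) ^ 3 * (z.2.1 : ℂ) ^ 3 * β * hs

end U44
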