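import Pool.Agent.LibU44.Defs

namespace U44

/-- weight `b^n / n²` (zero at `n = 0`) -/
noncomputable def s1_w (b : ℝ) (n : ℕ) : ℝ := b ^ n / (n : ℝ) ^ 2

theorem s1_w_nonneg {b : ℝ} (hb : 0 < b) (n : ℕ) : 0 ≤ s1_w b n := by
  unfold s1_w
  positivity

theorem s1_w_zero (b : ℝ) : s1_w b 0 = 0 := by
  simp [s1_w]

theorem s1_sum' (n : ℕ) :
    ∑ i ∈ Finset.range (n + 2), 1 / (i : ℝ) ^ 2 ≤ 2 - 1 / ((n : ℝ) + 1) := by
  induction n with
  | zero => simp [Finset.sum_range_succ]; norm_num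
  | succ n ih =>
    rw [Finset.sum_range_succ]
    have h0 : (0 : ℝ) < (n : ℝ) + 1 := by positivity
    have h1 : (0 : ℝ) < (n : ℝ) + 2 := by positivity
    have h2 : (1 : ℝ) / (((n + 2 : ℕ) : ℝ)) ^ 2 ≤ 1 / ((n : ℝ) + 1) - 1 / ((n : ℝ) + 2) := by
      have h3 : 1 / ((n : ℝ) + 1) - 1 / ((n : ℝ) + 2) = 1 / (((n : ℝ) + 1) * ((n : ℝ) + 2)) := by
        field_simp
        ring
      rw [h3]
      push_cast
      refine one_div_le_one_div_of_le (by positivity) (by nlinarith)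
    have h4 : ((n + 1 : ℕ) : ℝ) + 1 = (n : ℝ) + 2 := by
      push_cast
      ring
    rw [h4]
    linarith

theorem s1_sum (n : ℕ) : ∑ i ∈ Finset.range (n + 1), 1 / (i : ℝ) ^ 2 ≤ 2 := by
  have h1 : ∑ i ∈ Finset.range (n + 1), 1 / (i : ℝ) ^ 2 ≤
      ∑ i ∈ Finset.range (n + 2), 1 / (i : ℝ) ^ 2 := by
    rw [Finset.sum_range_succ _ (n + 1)]
    have : (0 : ℝ) ≤ 1 / (((n + 1 : ℕ) : ℝ)) ^ 2 := by positivity
    linarith
  have h2 := s1_sum' n
  have h3 : (0 : ℝ) ≤ 1 / ((n : ℝ) + 1) := by positivity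
  linarith

theorem s1_term {b : ℝ} (hb : 0 < b) {n i j : ℕ} (h : i + j = n) :
    s1_w b i * s1_w b j ≤ 2 * s1_w b n * (1 / (i : ℝ) ^ 2 + 1 / (j : ℝ) ^ 2) := by
  have hn := s1_w_nonneg hb n
  have hR : 0 ≤ 2 * s1_w b n * (1 / (i : ℝ) ^ 2 + 1 / (j : ℝ) ^ 2) := by positivity
  rcases Nat.eq_zero_or_pos i with hi | hi
  · rw [hi, s1_w_zero, zero_mul]
    rw [hi] at hR
    exact hR
  rcases Nat.eq_zero_or_pos j with hj | hj
  · rw [hj, s1_w_zero, mul_zero]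
    rw [hj] at hR
    exact hR
  have hi' : (0 : ℝ) < i := by exact_mod_cast hi
  have hj' : (0 : ℝ) < j := by exact_mod_cast hj
  have hb' : (0 : ℝ) < b ^ n := by positivity
  have hn' : (n : ℝ) = i + j := by rw [← h]; push_cast; ring
  have h1 : s1_w b i * s1_w b j = b ^ n * (1 / ((i : ℝ) ^ 2 * (j : ℝ) ^ 2)) := by
    unfold s1_w
    rw [← h, pow_add]
    field_simp
  have h2 : 2 * s1_w b n * (1 / (i : ℝ) ^ 2 + 1 / (j : ℝ) ^ 2) =
      b ^ n * (2 * ((i : ℝ) ^ 2 + (j : ℝ) ^ 2) / (((i : ℝ) + j) ^ 2 * ((i : ℝ) ^ 2 * (j : ℝ) ^ 2))) := by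
    unfold s1_w
    rw [hn']
    field_simp
    ring
  rw [h1, h2]
  refine mul_le_mul_of_nonneg_left ?_ hb'.le
  rw [div_le_div_iff₀ (by positivity) (by positivity)]
  have h3 : ((i : ℝ) + j) ^ 2 ≤ 2 * ((i : ℝ) ^ 2 + (j : ℝ) ^ 2) := by nlinarith [sq_nonneg ((i : ℝ) - j)]
  have h4 : 0 ≤ (i : ℝ) ^ 2 * (j : ℝ) ^ 2 := by positivity
  rw [one_mul]
  exact mul_le_mul_of_nonneg_right h3 h4

theorem s1_conv {b : ℝ} (hb : 0 < b) (n : ℕ) :
    ∑ p ∈ Finset.HasAntidiagonal.antidiagonal n, s1_w b p.1 * s1_w b p.2 ≤ 8 * s1_w b n := by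
  have hn := s1_w_nonneg hb n
  have h1 : ∑ p ∈ Finset.HasAntidiagonal.antidiagonal n, s1_w b p.1 * s1_w b p.2 ≤
      ∑ p ∈ Finset.HasAntidiagonal.antidiagonal n,
        2 * s1_w b n * (1 / (p.1 : ℝ) ^ 2 + 1 / (p.2 : ℝ) ^ 2) :=
    Finset.sum_le_sum fun p hp => s1_term hb (Finset.HasAntidiagonal.mem_antidiagonal.1 hp)
  have h2 : ∑ p ∈ Finset.HasAntidiagonal.antidiagonal n, (1 / (p.1 : ℝ) ^ 2) ≤ 2 := by
    rw [Finset.Nat.sum_antidiagonal_eq_sum_range_succ (fun i _ => 1 / (i : ℝ) ^ 2)]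
    exact s1_sum n
  have h3 : ∑ p ∈ Finset.HasAntidiagonal.antidiagonal n, (1 / (p.2 : ℝ) ^ 2) ≤ 2 := by
    rw [← Finset.Nat.sum_antidiagonal_swap]
    exact h2
  rw [← Finset.mul_sum, Finset.sum_add_distrib] at h1
  nlinarith

theorem s1_mul {b c d : ℝ} (hb : 0 < b) (hc : 0 ≤ c) {P Q : PowerSeries ℤ}
    (hP : ∀ n, |((PowerSeries.coeff n P : ℤ) : ℝ)| ≤ c * s1_w b n)
    (hQ : ∀ n, |((PowerSeries.coeff n Q : ℤ) : ℝ)| ≤ d * s1_w b n) (hd : 0 ≤ d) (n : ℕ) :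
    |((PowerSeries.coeff n (P * Q) : ℤ) : ℝ)| ≤ 8 * (c * d) * s1_w b n := by
  rw [PowerSeries.coeff_mul]
  push_cast
  calc |∑ p ∈ Finset.HasAntidiagonal.antidiagonal n, ((PowerSeries.coeff p.1 P : ℤ) : ℝ) *
        ((PowerSeries.coeff p.2 Q : ℤ) : ℝ)| ≤
        ∑ p ∈ Finset.HasAntidiagonal.antidiagonal n, |((PowerSeries.coeff p.1 P : ℤ) : ℝ) *
        ((PowerSeries.coeff p.2 Q : ℤ) : ℝ)| := Finset.abs_sum_le_sum_abs _ _
    _ ≤ ∑ p ∈ Finset.HasAntidiagonal.antidiagonal n, (c * d) * (s1_w b p.1 * s1_w b p.2) := by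
        refine Finset.sum_le_sum fun p _ => ?_
        rw [abs_mul]
        calc _ ≤ (c * s1_w b p.1) * (d * s1_w b p.2) :=
              mul_le_mul (hP _) (hQ _) (abs_nonneg _) (mul_nonneg hc (s1_w_nonneg hb _))
          _ = _ := by ring
    _ = (c * d) * ∑ p ∈ Finset.HasAntidiagonal.antidiagonal n, s1_w b p.1 * s1_w b p.2 := by
        rw [Finset.mul_sum]
    _ ≤ (c * d) * (8 * s1_w b n) :=
        mul_le_mul_of_nonneg_left (s1_conv hb n) (mul_nonneg hc hd)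
    _ = _ := by ring

/-- the contraction -/
noncomputable def s1_Phi (A B : ℤ) (Z : PowerSeries ℤ) : PowerSeries ℤ :=
  PowerSeries.C A * PowerSeries.X + PowerSeries.C (3 * A) * (PowerSeries.X * Z) -
    PowerSeries.C 3 * (Z * Z) - PowerSeries.C 3 * (Z * Z * Z) +
    PowerSeries.C (81 * B) * PowerSeries.X ^ 3

theorem s1_Phi_sub (A B : ℤ) (P Q : PowerSeries ℤ) :
    s1_Phi A B P - s1_Phi A B Q = (P - Q) * (PowerSeries.C (3 * A) * PowerSeries.X -
      PowerSeries.C 3 * (P + Q) - PowerSeries.C 3 * (P * P + P * Q + Q * Q)) := by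
  unfold s1_Phi
  ring

theorem s1_w_succ {b : ℝ} (hb : 0 < b) (k : ℕ) : b * s1_w b k ≤ 4 * s1_w b (k + 1) := by
  rcases Nat.eq_zero_or_pos k with hk | hk
  · rw [hk, s1_w_zero, mul_zero]
    have := s1_w_nonneg hb (0 + 1)
    linarith
  have hk' : (1 : ℝ) ≤ k := by exact_mod_cast hk
  unfold s1_w
  have h1 : b * (b ^ k / (k : ℝ) ^ 2) = b ^ (k + 1) * (1 / (k : ℝ) ^ 2) := by
    rw [pow_succ]
    ring
  have h2 : 4 * (b ^ (k + 1) / (((k + 1 : ℕ) : ℝ)) ^ 2) =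
      b ^ (k + 1) * (4 / ((k : ℝ) + 1) ^ 2) := by
    push_cast
    ring
  rw [h1, h2]
  refine mul_le_mul_of_nonneg_left ?_ (by positivity)
  rw [div_le_div_iff₀ (by positivity) (by positivity)]
  nlinarith

theorem s1_stable (H : ℕ) (hH : 1 ≤ H) (A B : ℤ) (hA : |A| ≤ H) (hB : |B| ≤ (H : ℤ) ^ 3)
    {Z : PowerSeries ℤ}
    (hZ : ∀ n, |((PowerSeries.coeff n Z : ℤ) : ℝ)| ≤ 1 / 100 * s1_w (1000 * (H : ℝ)) n) (n : ℕ) :
    |((PowerSeries.coeff n (s1_Phi A B Z) : ℤ) : ℝ)| ≤ 1 / 100 * s1_w (1000 * (H : ℝ)) n := by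
  have hH' : (1 : ℝ) ≤ H := by exact_mod_cast hH
  have hb : (0 : ℝ) < 1000 * (H : ℝ) := by positivity
  have hA' : |(A : ℝ)| ≤ H := by exact_mod_cast hA
  have hB' : |(B : ℝ)| ≤ (H : ℝ) ^ 3 := by exact_mod_cast hB
  have hw := s1_w_nonneg hb n
  -- the five terms
  have t1 : |((PowerSeries.coeff n (PowerSeries.C A * PowerSeries.X) : ℤ) : ℝ)| ≤
      1 / 1000 * s1_w (1000 * (H : ℝ)) n := by
    rw [PowerSeries.coeff_C_mul, PowerSeries.coeff_X]
    by_cases h : n = 1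
    · rw [if_pos h, h, mul_one]
      unfold s1_w
      simp only [pow_one, Nat.cast_one, one_pow, div_one]
      linarith
    · rw [if_neg h, mul_zero, Int.cast_zero, abs_zero]
      positivity
  have t2 : |((PowerSeries.coeff n (PowerSeries.C (3 * A) * (PowerSeries.X * Z)) : ℤ) : ℝ)| ≤
      12 / 100000 * s1_w (1000 * (H : ℝ)) n := by
    rw [PowerSeries.coeff_C_mul]
    cases n with
    | zero =>
      rw [PowerSeries.coeff_zero_X_mul, mul_zero, Int.cast_zero, abs_zero]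
      positivity
    | succ k =>
      rw [PowerSeries.coeff_succ_X_mul]
      push_cast
      rw [abs_mul, abs_mul, abs_of_pos (by norm_num : (0 : ℝ) < 3)]
      have h1 := hZ k
      have h2 := s1_w_succ hb k
      have h3 := s1_w_nonneg hb k
      calc 3 * |(A : ℝ)| * |((PowerSeries.coeff k Z : ℤ) : ℝ)| ≤
            3 * (H : ℝ) * (1 / 100 * s1_w (1000 * (H : ℝ)) k) :=
            mul_le_mul (by linarith) h1 (abs_nonneg _) (by positivity)
        _ = 3 / 100000 * (1000 * (H : ℝ) * s1_w (1000 * (H : ℝ)) k) := by ring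
        _ ≤ 3 / 100000 * (4 * s1_w (1000 * (H : ℝ)) (k + 1)) := by linarith
        _ = _ := by ring
  have hZ2 := s1_mul hb (by norm_num) hZ hZ (by norm_num)
  have hZ3 := s1_mul hb (by norm_num) hZ2 hZ (by norm_num)
  have t3 : |((PowerSeries.coeff n (PowerSeries.C 3 * (Z * Z)) : ℤ) : ℝ)| ≤
      24 / 10000 * s1_w (1000 * (H : ℝ)) n := by
    rw [PowerSeries.coeff_C_mul]
    push_cast
    rw [abs_mul, abs_of_pos (by norm_num : (0 : ℝ) < 3)]
    have h1 := hZ2 n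
    linarith
  have t4 : |((PowerSeries.coeff n (PowerSeries.C 3 * (Z * Z * Z)) : ℤ) : ℝ)| ≤
      192 / 1000000 * s1_w (1000 * (H : ℝ)) n := by
    rw [PowerSeries.coeff_C_mul]
    push_cast
    rw [abs_mul, abs_of_pos (by norm_num : (0 : ℝ) < 3)]
    have h1 := hZ3 n
    linarith
  have t5 : |((PowerSeries.coeff n (PowerSeries.C (81 * B) * PowerSeries.X ^ 3) : ℤ) : ℝ)| ≤
      1 / 1000000 * s1_w (1000 * (H : ℝ)) n := by
    rw [PowerSeries.coeff_C_mul, PowerSeries.coeff_X_pow]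
    by_cases h : n = 3
    · rw [if_pos h, h, mul_one]
      unfold s1_w
      push_cast
      rw [abs_mul, abs_of_pos (by norm_num : (0 : ℝ) < 81)]
      have h3 : (0 : ℝ) < (H : ℝ) ^ 3 := by positivity
      have h4 : (1000 * (H : ℝ)) ^ 3 = 1000000000 * (H : ℝ) ^ 3 := by ring
      rw [h4]
      nlinarith
    · rw [if_neg h, mul_zero, Int.cast_zero, abs_zero]
      positivity
  have hcoeff : ((PowerSeries.coeff n (s1_Phi A B Z) : ℤ) : ℝ) =
      ((PowerSeries.coeff n (PowerSeries.C A * PowerSeries.X) : ℤ) : ℝ) +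
      ((PowerSeries.coeff n (PowerSeries.C (3 * A) * (PowerSeries.X * Z)) : ℤ) : ℝ) -
      ((PowerSeries.coeff n (PowerSeries.C 3 * (Z * Z)) : ℤ) : ℝ) -
      ((PowerSeries.coeff n (PowerSeries.C 3 * (Z * Z * Z)) : ℤ) : ℝ) +
      ((PowerSeries.coeff n (PowerSeries.C (81 * B) * PowerSeries.X ^ 3) : ℤ) : ℝ) := by
    unfold s1_Phi
    rw [map_add, map_sub, map_sub, map_add]
    push_cast
    ring
  rw [hcoeff]
  rw [abs_le] at t1 t2 t3 t4 t5 ⊢
  constructor <;> linarith [t1.1, t1.2, t2.1, t2.2, t3.1, t3.2, t4.1, t4.2, t5.1, t5.2]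

/-- the iterates -/
noncomputable def s1_Z (A B : ℤ) (k : ℕ) : PowerSeries ℤ := (s1_Phi A B)^[k] 0

theorem s1_Z_succ (A B : ℤ) (k : ℕ) : s1_Z A B (k + 1) = s1_Phi A B (s1_Z A B k) := by
  unfold s1_Z
  rw [Function.iterate_succ_apply']

theorem s1_Z_bound (H : ℕ) (hH : 1 ≤ H) (A B : ℤ) (hA : |A| ≤ H) (hB : |B| ≤ (H : ℤ) ^ 3) (k n : ℕ) :
    |((PowerSeries.coeff n (s1_Z A B k) : ℤ) : ℝ)| ≤ 1 / 100 * s1_w (1000 * (H : ℝ)) n := by
  induction k generalizing n with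
  | zero =>
    have h1 : s1_Z A B 0 = 0 := rfl
    rw [h1, map_zero, Int.cast_zero, abs_zero]
    have hH' : (1 : ℝ) ≤ H := by exact_mod_cast hH
    have := s1_w_nonneg (b := 1000 * (H : ℝ)) (by positivity) n
    positivity
  | succ k ih =>
    rw [s1_Z_succ]
    exact s1_stable H hH A B hA hB ih n

theorem s1_Z_dvd (A B : ℤ) (k : ℕ) : PowerSeries.X ∣ s1_Z A B k := by
  induction k with
  | zero => exact ⟨0, by rw [mul_zero]; rfl⟩
  | succ k ih =>
    rw [s1_Z_succ]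
    obtain ⟨P, hP⟩ := ih
    rw [hP]
    refine ⟨PowerSeries.C A + PowerSeries.C (3 * A) * (PowerSeries.X * P) -
      PowerSeries.C 3 * (PowerSeries.X * (P * P)) -
      PowerSeries.C 3 * (PowerSeries.X ^ 2 * (P * P * P)) +
      PowerSeries.C (81 * B) * PowerSeries.X ^ 2, ?_⟩
    unfold s1_Phi
    ring

theorem s1_Z_step (A B : ℤ) (k : ℕ) :
    (PowerSeries.X : PowerSeries ℤ) ^ k ∣ s1_Z A B (k + 1) - s1_Z A B k := by
  induction k with
  | zero => rw [pow_zero]; exact one_dvd _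
  | succ k ih =>
    rw [s1_Z_succ A B (k + 1)]
    nth_rewrite 2 [s1_Z_succ A B k]
    rw [s1_Phi_sub, pow_succ]
    refine mul_dvd_mul ih ?_
    obtain ⟨P, hP⟩ := s1_Z_dvd A B (k + 1)
    obtain ⟨Q, hQ⟩ := s1_Z_dvd A B k
    rw [hP, hQ]
    refine ⟨PowerSeries.C (3 * A) - PowerSeries.C 3 * (P + Q) -
      PowerSeries.C 3 * (PowerSeries.X * (P * P + P * Q + Q * Q)), ?_⟩
    ring

theorem s1_Z_le (A B : ℤ) (k m : ℕ) :
    (PowerSeries.X : PowerSeries ℤ) ^ k ∣ s1_Z A B (k + m) - s1_Z A B k := by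
  induction m with
  | zero => rw [add_zero, sub_self]; exact dvd_zero _
  | succ m ih =>
    have h1 : s1_Z A B (k + (m + 1)) - s1_Z A B k =
        (s1_Z A B (k + m + 1) - s1_Z A B (k + m)) + (s1_Z A B (k + m) - s1_Z A B k) := by
      rw [← add_assoc]
      ring
    rw [h1]
    exact dvd_add ((pow_dvd_pow _ (Nat.le_add_right k m)).trans (s1_Z_step A B (k + m))) ih

/-- Row S1. The power series. `E = 1 + 3Z`, where `Z ∈ Xℤ⟦X⟧` is the solution of
`Z = A X + 3A X Z - 3 Z² - 3 Z³ + 81 B X³` (multiply by 9: this is the equation of `Ser`). Recursion: `z₀ = 0`,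
`z_n = [n=1] A + 3A z_{n-1} + [n=3] 81 B - 3 ∑_{i+j=n} z_i z_j - 3 ∑_{i+j+k=n} z_i z_j z_k`; on the right only `z_i` with `i < n`
occur (because `z₀ = 0`), e.g. strong recursion with the sums over `1 ≤ i, j < n`, or a limit of the contraction.
Bound by strong induction: `|z_n| ≤ b^n/(100 n²)` for `n ≥ 1`, `b = 1000 H`: `∑_{i+j=n, i,j≥1} 1/(i²j²) ≤ 14/n²` (the larger index
is `≥ n/2`, `∑ 1/m² ≤ 1.7`), so `3 z² : 3·14/100² `, `3 z³ : 3·14²/100³`, `3A z_{n-1} : 3H·4/(100 b) `, total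
`≤ 0.0042 + 0.0006 + 0.00012 < 0.01`; `n = 1: |A| ≤ H ≤ 10 H`; `n = 3: 81 H³` is `≤ 10^-6 b³`. -/
theorem ser_exists (H : ℕ) (hH : 1 ≤ H) (A B : ℤ) (hA : |A| ≤ H) (hB : |B| ≤ (H : ℤ) ^ 3) :
    ∃ E : PowerSeries ℤ, Ser H A B E := by
  set Z : PowerSeries ℤ := PowerSeries.mk fun n => PowerSeries.coeff n (s1_Z A B (n + 1)) with hZ
  have h1 : ∀ k : ℕ, (PowerSeries.X : PowerSeries ℤ) ^ k ∣ Z - s1_Z A B k := by
    intro k
    rw [PowerSeries.X_pow_dvd_iff]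
    intro n hn
    rw [map_sub, hZ, PowerSeries.coeff_mk, sub_eq_zero]
    obtain ⟨m, hm⟩ := Nat.exists_eq_add_of_le (Nat.succ_le_of_lt hn)
    have h2 := PowerSeries.X_pow_dvd_iff.1 (s1_Z_le A B (n + 1) m) n (Nat.lt_succ_self n)
    rw [map_sub, sub_eq_zero] at h2
    rw [← h2, hm]
  have h2 : s1_Phi A B Z = Z := by
    rw [← sub_eq_zero]
    ext n
    rw [map_zero]
    have h3 : (PowerSeries.X : PowerSeries ℤ) ^ (n + 1) ∣ s1_Phi A B Z - Z := by
      have h4 : s1_Phi A B Z - Z = (s1_Phi A B Z - s1_Phi A B (s1_Z A B (n + 1))) +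
          (s1_Z A B (n + 1 + 1) - s1_Z A B (n + 1)) - (Z - s1_Z A B (n + 1)) := by
        rw [s1_Z_succ A B (n + 1)]
        ring
      rw [h4]
      refine dvd_sub (dvd_add ?_ (s1_Z_step A B (n + 1))) (h1 (n + 1))
      rw [s1_Phi_sub]
      exact (h1 (n + 1)).mul_right _
    exact PowerSeries.X_pow_dvd_iff.1 h3 n (Nat.lt_succ_self n)
  have hb : ∀ n, |((PowerSeries.coeff n Z : ℤ) : ℝ)| ≤ 1 / 100 * s1_w (1000 * (H : ℝ)) n := by
    intro n
    rw [hZ, PowerSeries.coeff_mk]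
    exact s1_Z_bound H hH A B hA hB _ n
  have hH' : (1 : ℝ) ≤ H := by exact_mod_cast hH
  have h0 : PowerSeries.constantCoeff Z = 0 := by
    have h3 := hb 0
    rw [s1_w_zero, mul_zero] at h3
    have h4 : ((PowerSeries.coeff 0 Z : ℤ) : ℝ) = 0 := abs_nonpos_iff.1 h3
    rw [← PowerSeries.coeff_zero_eq_constantCoeff_apply]
    exact_mod_cast h4
  refine ⟨1 + PowerSeries.C 3 * Z, ?_, ?_, ?_⟩
  · rw [map_add, map_mul, h0, mul_zero, add_zero, map_one]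
  · have h3 : (1 + PowerSeries.C 3 * Z) ^ 3 = 1 + PowerSeries.C 9 * (Z +
        PowerSeries.C 3 * (Z * Z) + PowerSeries.C 3 * (Z * Z * Z)) := by
      have e9 : (PowerSeries.C 9 : PowerSeries ℤ) = 9 := by
        rw [show (9 : ℤ) = ((9 : ℕ) : ℤ) by norm_num]
        simp
      have e3 : (PowerSeries.C 3 : PowerSeries ℤ) = 3 := by
        rw [show (3 : ℤ) = ((3 : ℕ) : ℤ) by norm_num]
        simp
      rw [e9, e3]
      ring
    have h4 : Z + PowerSeries.C 3 * (Z * Z) + PowerSeries.C 3 * (Z * Z * Z) =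
        PowerSeries.C A * PowerSeries.X + PowerSeries.C (3 * A) * (PowerSeries.X * Z) +
          PowerSeries.C (81 * B) * PowerSeries.X ^ 3 := by
      nth_rewrite 1 [← h2]
      unfold s1_Phi
      ring
    rw [h3, h4]
    simp only [map_mul, mul_add, ← mul_assoc]
    have e729 : (PowerSeries.C 729 : PowerSeries ℤ) = PowerSeries.C 9 * PowerSeries.C 81 := by
      rw [← map_mul]
      norm_num
    rw [e729]
    ring
  · intro n
    have h3 : PowerSeries.coeff n (1 + PowerSeries.C 3 * Z) =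
        (if n = 0 then 1 else 0) + 3 * PowerSeries.coeff n Z := by
      rw [map_add, PowerSeries.coeff_C_mul, PowerSeries.coeff_one]
    rw [h3]
    by_cases hn : n = 0
    · rw [if_pos hn, hn, PowerSeries.coeff_zero_eq_constantCoeff_apply, h0]
      norm_num
    · rw [if_neg hn, zero_add]
      have h4 := hb n
      have h5 : s1_w (1000 * (H : ℝ)) n ≤ (1000 * (H : ℝ)) ^ n := by
        unfold s1_w
        have hn1 : (1 : ℝ) ≤ n := by exact_mod_cast Nat.one_le_iff_ne_zero.2 hn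
        exact div_le_self (by positivity) (one_le_pow₀ hn1)
      have h6 : (0 : ℝ) ≤ (1000 * (H : ℝ)) ^ n := by positivity
      have h7 : |(((3 * PowerSeries.coeff n Z : ℤ)) : ℝ)| ≤ 3 * (1000 * (H : ℝ)) ^ n := by
        push_cast
        rw [abs_mul, abs_of_pos (by norm_num : (0 : ℝ) < 3)]
        linarith
      exact_mod_cast h7

end U44
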