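import Pool.Agent.LibU44.Defs

namespace U44

open PowerSeries in
theorem s2_sq {H : ℕ} {A B : ℤ} {E : PowerSeries ℤ} (h : Ser H A B E) (n : ℕ) :
    |(PowerSeries.coeff n (E ^ 2) : ℤ)| ≤ 9 * ((n : ℤ) + 1) * (1000 * (H : ℤ)) ^ n := by
  rw [pow_two, PowerSeries.coeff_mul]
  refine (Finset.abs_sum_le_sum_abs _ _).trans ?_
  have h1 : ∀ p ∈ Finset.HasAntidiagonal.antidiagonal n,
      |(PowerSeries.coeff p.1 E : ℤ) * PowerSeries.coeff p.2 E| ≤ 9 * (1000 * (H : ℤ)) ^ n := by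
    intro p hp
    have hpn : p.1 + p.2 = n := Finset.HasAntidiagonal.mem_antidiagonal.1 hp
    rw [abs_mul, ← hpn, pow_add]
    have h2 := mul_le_mul (h.2.2 p.1) (h.2.2 p.2) (abs_nonneg _)
      (mul_nonneg (by norm_num : (0 : ℤ) ≤ 3) (pow_nonneg (by positivity) p.1))
    refine h2.trans (le_of_eq ?_)
    ring
  refine (Finset.sum_le_sum h1).trans (le_of_eq ?_)
  rw [Finset.sum_const, Finset.Nat.card_antidiagonal, nsmul_eq_mul]
  push_cast
  ring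

/-- Row S2a. Coefficients of `1, E, E²`: `∑_{i+j=n} 3b^i 3b^j = 9(n+1) b^n ≤ 9 (2b)^n`, `b = 1000H`. -/
theorem ser_pow {H : ℕ} {A B : ℤ} {E : PowerSeries ℤ} (h : Ser H A B E) (hH : 1 ≤ H) (k : ℕ) (hk : k < 3)
    (n : ℕ) : |(PowerSeries.coeff n (E ^ k) : ℤ)| ≤ 9 * (2000 * (H : ℤ)) ^ n := by
  have hH' : (1 : ℤ) ≤ H := by exact_mod_cast hH
  have hb : (1000 * (H : ℤ)) ^ n ≤ (2000 * (H : ℤ)) ^ n :=
    pow_le_pow_left₀ (by positivity) (by linarith) n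
  have hb0 : (1 : ℤ) ≤ (2000 * (H : ℤ)) ^ n := one_le_pow₀ (by linarith)
  interval_cases k
  · rw [pow_zero, PowerSeries.coeff_one]
    split_ifs
    · rw [abs_one]
      linarith
    · rw [abs_zero]
      linarith
  · rw [pow_one]
    have h1 := h.2.2 n
    have h2 : (0 : ℤ) ≤ (1000 * (H : ℤ)) ^ n := pow_nonneg (by positivity) n
    linarith
  · refine (s2_sq h n).trans ?_
    have h1 : ((n : ℤ) + 1) ≤ 2 ^ n := by
      have : n + 1 ≤ 2 ^ n := Nat.lt_two_pow_self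
      exact_mod_cast this
    have h2 : (0 : ℤ) ≤ (1000 * (H : ℤ)) ^ n := pow_nonneg (by positivity) n
    have h3 : (2000 * (H : ℤ)) ^ n = 2 ^ n * (1000 * (H : ℤ)) ^ n := by
      rw [← mul_pow]
      congr 1
      ring
    rw [h3]
    nlinarith [mul_le_mul_of_nonneg_right h1 h2]

/-- the value of a power series at `ω` -/
def s2_HS (ω : ℂ) (F : PowerSeries ℤ) (s : ℂ) : Prop :=
  HasSum (fun n : ℕ => ((PowerSeries.coeff n F : ℤ) : ℂ) * ω ^ n) s ∧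
    Summable (fun n : ℕ => ‖((PowerSeries.coeff n F : ℤ) : ℂ) * ω ^ n‖)

theorem s2_HS_single (ω : ℂ) (F : PowerSeries ℤ) (a : ℤ) (m : ℕ)
    (hF : ∀ n, PowerSeries.coeff n F = if n = m then a else 0) : s2_HS ω F (a * ω ^ m) := by
  constructor
  · have h1 := hasSum_single (f := fun n : ℕ => ((PowerSeries.coeff n F : ℤ) : ℂ) * ω ^ n) m
      (fun n hn => by rw [hF n, if_neg hn, Int.cast_zero, zero_mul])
    simp only [hF m, if_true] at h1
    exact h1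
  · refine summable_of_ne_finset_zero (s := {m}) fun n hn => ?_
    rw [Finset.mem_singleton] at hn
    rw [hF n, if_neg hn, Int.cast_zero, zero_mul, norm_zero]

theorem s2_HS_C (ω : ℂ) (a : ℤ) : s2_HS ω (PowerSeries.C a) a := by
  have h1 := s2_HS_single ω (PowerSeries.C a) a 0 (fun n => by rw [PowerSeries.coeff_C])
  rwa [pow_zero, mul_one] at h1

theorem s2_HS_one (ω : ℂ) : s2_HS ω 1 1 := by
  have h1 := s2_HS_C ω 1
  rwa [map_one, Int.cast_one] at h1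

theorem s2_HS_X (ω : ℂ) : s2_HS ω PowerSeries.X ω := by
  have h1 := s2_HS_single ω PowerSeries.X 1 1 (fun n => by rw [PowerSeries.coeff_X])
  rwa [pow_one, Int.cast_one, one_mul] at h1

theorem s2_HS_add {ω : ℂ} {F G : PowerSeries ℤ} {s t : ℂ} (hF : s2_HS ω F s) (hG : s2_HS ω G t) :
    s2_HS ω (F + G) (s + t) := by
  have h1 : ∀ n : ℕ, ((PowerSeries.coeff n (F + G) : ℤ) : ℂ) * ω ^ n =
      ((PowerSeries.coeff n F : ℤ) : ℂ) * ω ^ n + ((PowerSeries.coeff n G : ℤ) : ℂ) * ω ^ n := by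
    intro n
    rw [map_add, Int.cast_add, add_mul]
  constructor
  · simp only [h1]
    exact hF.1.add hG.1
  · simp only [h1]
    exact Summable.of_nonneg_of_le (fun n => norm_nonneg _) (fun n => norm_add_le _ _)
      (hF.2.add hG.2)

theorem s2_HS_mul {ω : ℂ} {F G : PowerSeries ℤ} {s t : ℂ} (hF : s2_HS ω F s) (hG : s2_HS ω G t) :
    s2_HS ω (F * G) (s * t) := by
  have h1 : ∀ n : ℕ, ((PowerSeries.coeff n (F * G) : ℤ) : ℂ) * ω ^ n =
      ∑ p ∈ Finset.HasAntidiagonal.antidiagonal n, (((PowerSeries.coeff p.1 F : ℤ) : ℂ) * ω ^ p.1) *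
        (((PowerSeries.coeff p.2 G : ℤ) : ℂ) * ω ^ p.2) := by
    intro n
    rw [PowerSeries.coeff_mul, Int.cast_sum, Finset.sum_mul]
    refine Finset.sum_congr rfl fun p hp => ?_
    have hpn : p.1 + p.2 = n := Finset.HasAntidiagonal.mem_antidiagonal.1 hp
    rw [← hpn, pow_add, Int.cast_mul]
    ring
  have h2 := summable_norm_sum_mul_antidiagonal_of_summable_norm hF.2 hG.2
  have h3 := tsum_mul_tsum_eq_tsum_sum_antidiagonal_of_summable_norm hF.2 hG.2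
  rw [hF.1.tsum_eq, hG.1.tsum_eq] at h3
  constructor
  · simp only [h1]
    rw [h3]
    exact h2.of_norm.hasSum
  · simp only [h1]
    exact h2

theorem s2_HS_pow {ω : ℂ} {F : PowerSeries ℤ} {s : ℂ} (hF : s2_HS ω F s) (k : ℕ) :
    s2_HS ω (F ^ k) (s ^ k) := by
  induction k with
  | zero =>
    rw [pow_zero, pow_zero]
    exact s2_HS_one ω
  | succ k ih =>
    rw [pow_succ, pow_succ]
    exact s2_HS_mul ih hF

theorem s2_bound {H : ℕ} {A B : ℤ} {E : PowerSeries ℤ} (h : Ser H A B E) (ω : ℂ)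
    (hω : ‖ω‖ * (10 ^ 5 * (H : ℝ)) ≤ 1) (n : ℕ) :
    ‖((PowerSeries.coeff n E : ℤ) : ℂ) * ω ^ n‖ ≤ 3 * (1 / 100 : ℝ) ^ n := by
  rw [norm_mul, norm_pow, Complex.norm_intCast]
  have h1 : |((PowerSeries.coeff n E : ℤ) : ℝ)| ≤ 3 * (1000 * (H : ℝ)) ^ n := by
    have := h.2.2 n
    have h2 : ((|(PowerSeries.coeff n E : ℤ)| : ℤ) : ℝ) ≤ ((3 * (1000 * (H : ℤ)) ^ n : ℤ) : ℝ) :=
      Int.cast_le.2 this
    push_cast at h2
    exact h2
  have h2 : (1000 * (H : ℝ)) * ‖ω‖ ≤ 1 / 100 := by linarith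
  calc |((PowerSeries.coeff n E : ℤ) : ℝ)| * ‖ω‖ ^ n ≤ (3 * (1000 * (H : ℝ)) ^ n) * ‖ω‖ ^ n :=
        mul_le_mul_of_nonneg_right h1 (by positivity)
    _ = 3 * ((1000 * (H : ℝ)) * ‖ω‖) ^ n := by rw [mul_pow (1000 * (H : ℝ)) ‖ω‖ n]; ring
    _ ≤ 3 * (1 / 100 : ℝ) ^ n := by
        have := pow_le_pow_left₀ (by positivity) h2 n
        linarith

/-- Row S2b. Convergence: Cauchy products of absolutely convergent series; `∑_{n≥1} 3 (1/100)^n ≤ 1/30`. -/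
theorem eta_sum {H : ℕ} {A B : ℤ} {E : PowerSeries ℤ} (h : Ser H A B E) (hH : 1 ≤ H) (ω : ℂ)
    (hω : ‖ω‖ * (10 ^ 5 * (H : ℝ)) ≤ 1) :
    (∀ k < 3, HasSum (fun n : ℕ => ((PowerSeries.coeff n (E ^ k) : ℤ) : ℂ) * ω ^ n) (eta E ω ^ k)) ∧
    eta E ω ^ 3 = 1 + 9 * A * ω * eta E ω + 729 * B * ω ^ 3 ∧ ‖eta E ω - 1‖ ≤ 1 / 30 := by
  have hgeo : Summable fun n : ℕ => 3 * (1 / 100 : ℝ) ^ n :=
    (summable_geometric_of_lt_one (by norm_num) (by norm_num)).mul_left 3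
  have hsum : Summable (fun n : ℕ => ‖((PowerSeries.coeff n E : ℤ) : ℂ) * ω ^ n‖) :=
    Summable.of_nonneg_of_le (fun n => norm_nonneg _) (s2_bound h ω hω) hgeo
  have hE : s2_HS ω E (eta E ω) := ⟨hsum.of_norm.hasSum, hsum⟩
  refine ⟨fun k _ => (s2_HS_pow hE k).1, ?_, ?_⟩
  · have h1 := (s2_HS_pow hE 3).1
    have h2 := (s2_HS_add (s2_HS_add (s2_HS_one ω)
      (s2_HS_mul (s2_HS_mul (s2_HS_C ω (9 * A)) (s2_HS_X ω)) hE))
      (s2_HS_mul (s2_HS_C ω (729 * B)) (s2_HS_pow (s2_HS_X ω) 3))).1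
    rw [h.2.1] at h1
    have h3 := h1.unique h2
    rw [h3]
    push_cast
    ring
  · have h1 : eta E ω = ∑ i ∈ Finset.range 1, ((PowerSeries.coeff i E : ℤ) : ℂ) * ω ^ i +
        ∑' n : ℕ, ((PowerSeries.coeff (n + 1) E : ℤ) : ℂ) * ω ^ (n + 1) :=
      (hsum.of_norm.sum_add_tsum_nat_add 1).symm
    have h0 : PowerSeries.coeff 0 E = 1 := by
      rw [PowerSeries.coeff_zero_eq_constantCoeff_apply]
      exact h.1
    rw [Finset.sum_range_one, h0, Int.cast_one, pow_zero, mul_one] at h1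
    rw [h1, add_sub_cancel_left]
    have h2 : ∀ n : ℕ, ‖((PowerSeries.coeff (n + 1) E : ℤ) : ℂ) * ω ^ (n + 1)‖ ≤
        3 / 100 * (1 / 100 : ℝ) ^ n := by
      intro n
      refine (s2_bound h ω hω (n + 1)).trans (le_of_eq ?_)
      rw [pow_succ]
      ring
    have hg : HasSum (fun n : ℕ => 3 / 100 * (1 / 100 : ℝ) ^ n) (3 / 100 * (1 - 1 / 100)⁻¹) :=
      (hasSum_geometric_of_lt_one (by norm_num) (by norm_num)).mul_left (3 / 100)
    refine (tsum_of_norm_bounded hg h2).trans ?_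
    norm_num

end U44
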