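import Pool.Agent.LibU44.Defs

namespace U44

theorem sel_one (y : Fin 3 → ℕ → ℝ) (L : ℕ)
    (ho : ∀ g : Fin 3 → ℝ, (∃ N, ∑ i, g i * y i N ≠ 0) → ∃ N ≤ L, ∑ i, g i * y i N ≠ 0)
    (v : ℕ → ℝ) (hv : ∃ N, v N ≠ 0) (i : Fin 3) (c : ℝ) (h : ∀ N, v N = c * y i N) :
    ∃ (f : Fin 3 → ℕ → ℝ) (g : Fin 3 → ℝ), g ≠ 0 ∧
      (∀ i, (∃ j, f i = y j) ∨ f i = Pi.single (L + 1) 1 ∨ f i = Pi.single (L + 2) 1) ∧
      (∀ N, v N = ∑ i, g i * f i N) ∧
      (∀ g' : Fin 3 → ℝ, g' ≠ 0 → ∃ N ≤ L + 2, ∑ i, g' i * f i N ≠ 0) := by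
  obtain ⟨N₀, hN₀⟩ := hv
  have hc : c ≠ 0 := by
    intro h0
    exact hN₀ (by rw [h, h0, zero_mul])
  have hy : y i N₀ ≠ 0 := by
    intro h0
    exact hN₀ (by rw [h, h0, mul_zero])
  refine ⟨![y i, Pi.single (L + 1) 1, Pi.single (L + 2) 1], ![c, 0, 0], ?_, ?_, ?_, ?_⟩
  · intro h0
    exact hc (by simpa using congrFun h0 0)
  · intro k
    fin_cases k
    · exact Or.inl ⟨i, rfl⟩
    · exact Or.inr (Or.inl rfl)
    · exact Or.inr (Or.inr rfl)
  · intro N
    rw [Fin.sum_univ_three]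
    simp [h N]
  · intro g' hg'
    by_cases h0 : g' 0 = 0
    · by_cases h1 : g' 1 = 0
      · have h2 : g' 2 ≠ 0 := by
          intro h2
          apply hg'
          funext k
          fin_cases k
          · exact h0
          · exact h1
          · exact h2
        refine ⟨L + 2, le_rfl, ?_⟩
        rw [Fin.sum_univ_three]
        simp [h0, h1, h2]
      · refine ⟨L + 1, by omega, ?_⟩
        rw [Fin.sum_univ_three]
        simp [h0, h1]
    · obtain ⟨N, hN, hne⟩ := ho (Pi.single i (g' 0)) ⟨N₀, by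
        rw [Finset.sum_eq_single i (fun b _ hb => by rw [Pi.single_eq_of_ne hb, zero_mul])
          (fun hi => absurd (Finset.mem_univ i) hi), Pi.single_eq_same]
        exact mul_ne_zero h0 hy⟩
      rw [Finset.sum_eq_single i (fun b _ hb => by rw [Pi.single_eq_of_ne hb, zero_mul])
        (fun hi => absurd (Finset.mem_univ i) hi), Pi.single_eq_same] at hne
      refine ⟨N, by omega, ?_⟩
      have e1 : (Pi.single (L + 1) (1 : ℝ) : ℕ → ℝ) N = 0 := Pi.single_eq_of_ne (by omega) _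
      have e2 : (Pi.single (L + 2) (1 : ℝ) : ℕ → ℝ) N = 0 := Pi.single_eq_of_ne (by omega) _
      rw [Fin.sum_univ_three]
      simpa [e1, e2] using hne

theorem sel_two (y : Fin 3 → ℕ → ℝ) (L : ℕ)
    (ho : ∀ g : Fin 3 → ℝ, (∃ N, ∑ i, g i * y i N ≠ 0) → ∃ N ≤ L, ∑ i, g i * y i N ≠ 0)
    (v : ℕ → ℝ) (hv : ∃ N, v N ≠ 0) (i j : Fin 3) (_hij : i ≠ j) (p q : ℝ)
    (h : ∀ N, v N = p * y i N + q * y j N) :
    ∃ (f : Fin 3 → ℕ → ℝ) (g : Fin 3 → ℝ), g ≠ 0 ∧
      (∀ i, (∃ j, f i = y j) ∨ f i = Pi.single (L + 1) 1 ∨ f i = Pi.single (L + 2) 1) ∧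
      (∀ N, v N = ∑ i, g i * f i N) ∧
      (∀ g' : Fin 3 → ℝ, g' ≠ 0 → ∃ N ≤ L + 2, ∑ i, g' i * f i N ≠ 0) := by
  by_cases hrel : ∃ a b : ℝ, (a ≠ 0 ∨ b ≠ 0) ∧ ∀ N, a * y i N + b * y j N = 0
  · obtain ⟨a, b, hab, hr⟩ := hrel
    by_cases ha : a = 0
    · have hb : b ≠ 0 := hab.resolve_left (fun hn => hn ha)
      refine sel_one y L ho v hv i p fun N => ?_
      have h1 := hr N
      rw [ha, zero_mul, zero_add] at h1
      rw [h N, (mul_eq_zero.1 h1).resolve_left hb, mul_zero, add_zero]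
    · refine sel_one y L ho v hv j (q - p * b / a) fun N => ?_
      have h1 : y i N = -(b / a) * y j N := by
        have h2 := hr N
        field_simp
        linarith
      rw [h N, h1]
      ring
  · push Not at hrel
    have hpair : ∀ a b : ℝ, a ≠ 0 ∨ b ≠ 0 → ∃ N ≤ L, a * y i N + b * y j N ≠ 0 := by
      intro a b hab
      have hsum : ∀ N, ∑ k, (Pi.single i a + Pi.single j b : Fin 3 → ℝ) k * y k N =
          a * y i N + b * y j N := by
        intro N
        simp only [Pi.add_apply, add_mul, Finset.sum_add_distrib]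
        rw [Finset.sum_eq_single i (fun c _ hc => by rw [Pi.single_eq_of_ne hc, zero_mul])
          (fun hi => absurd (Finset.mem_univ i) hi), Pi.single_eq_same,
          Finset.sum_eq_single j (fun c _ hc => by rw [Pi.single_eq_of_ne hc, zero_mul])
          (fun hi => absurd (Finset.mem_univ j) hi), Pi.single_eq_same]
      obtain ⟨N, hN⟩ := hrel a b hab
      obtain ⟨N', hN', hne⟩ := ho (Pi.single i a + Pi.single j b) ⟨N, by rw [hsum]; exact hN⟩
      rw [hsum] at hne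
      exact ⟨N', hN', hne⟩
    refine ⟨![y i, y j, Pi.single (L + 1) 1], ![p, q, 0], ?_, ?_, ?_, ?_⟩
    · intro h0
      have hp : p = 0 := by simpa using congrFun h0 0
      have hq : q = 0 := by simpa using congrFun h0 1
      obtain ⟨N₀, hN₀⟩ := hv
      exact hN₀ (by rw [h, hp, hq]; ring)
    · intro k
      fin_cases k
      · exact Or.inl ⟨i, rfl⟩
      · exact Or.inl ⟨j, rfl⟩
      · exact Or.inr (Or.inl rfl)
    · intro N
      rw [Fin.sum_univ_three]
      simp [h N]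
    · intro g' hg'
      by_cases h01 : g' 0 ≠ 0 ∨ g' 1 ≠ 0
      · obtain ⟨N, hN, hne⟩ := hpair _ _ h01
        refine ⟨N, by omega, ?_⟩
        have e1 : (Pi.single (L + 1) (1 : ℝ) : ℕ → ℝ) N = 0 := Pi.single_eq_of_ne (by omega) _
        rw [Fin.sum_univ_three]
        simpa [e1] using hne
      · push Not at h01
        have h2 : g' 2 ≠ 0 := by
          intro h2
          apply hg'
          funext k
          fin_cases k
          · exact h01.1
          · exact h01.2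
          · exact h2
        refine ⟨L + 1, by omega, ?_⟩
        rw [Fin.sum_univ_three]
        simp [h01.1, h01.2, h2]

/-- Row SEL (linear algebra). Let `J ⊆ {0,1,2}` be of minimal cardinality with `∑ w_i y_i = ∑_{i∈J} g_i y_i` for some real `g`; then
`1 ≤ |J|` (`hw`), all `g_i ≠ 0` for `i ∈ J`, and the `y_i`, `i ∈ J`, are linearly independent (a relation would eliminate one index).
`f` = the `y_i`, `i ∈ J`, completed by the unit sequences at `L+1`, `L+2`. A combination of `f` with nonzero `y`-part has a nonzero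
coefficient at some `N ≤ L` (`ho`), where the unit sequences vanish; otherwise look at `N = L+1, L+2`. -/
theorem select (y : Fin 3 → ℕ → ℝ) (L : ℕ)
    (ho : ∀ g : Fin 3 → ℝ, (∃ N, ∑ i, g i * y i N ≠ 0) → ∃ N ≤ L, ∑ i, g i * y i N ≠ 0)
    (w : Fin 3 → ℝ) (hw : ∃ N, ∑ i, w i * y i N ≠ 0) :
    ∃ (f : Fin 3 → ℕ → ℝ) (g : Fin 3 → ℝ), g ≠ 0 ∧
      (∀ i, (∃ j, f i = y j) ∨ f i = Pi.single (L + 1) 1 ∨ f i = Pi.single (L + 2) 1) ∧
      (∀ N, ∑ i, w i * y i N = ∑ i, g i * f i N) ∧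
      (∀ g' : Fin 3 → ℝ, g' ≠ 0 → ∃ N ≤ L + 2, ∑ i, g' i * f i N ≠ 0) := by
  by_cases hrel : ∃ a : Fin 3 → ℝ, a ≠ 0 ∧ ∀ N, ∑ i, a i * y i N = 0
  · obtain ⟨a, ha, hr⟩ := hrel
    obtain ⟨k, hk⟩ := Function.ne_iff.1 ha
    simp only [Pi.zero_apply] at hk
    simp only [Fin.sum_univ_three] at hr
    fin_cases k
    · refine sel_two y L ho (fun N => ∑ i, w i * y i N) hw 1 2 (by decide)
        (w 1 - w 0 * a 1 / a 0) (w 2 - w 0 * a 2 / a 0) fun N => ?_
      have hk' : a 0 ≠ 0 := hk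
      have h1 : y 0 N = -(a 1 / a 0) * y 1 N - (a 2 / a 0) * y 2 N := by
        have := hr N
        field_simp
        linarith
      simp only [Fin.sum_univ_three]
      rw [h1]
      ring
    · refine sel_two y L ho (fun N => ∑ i, w i * y i N) hw 0 2 (by decide)
        (w 0 - w 1 * a 0 / a 1) (w 2 - w 1 * a 2 / a 1) fun N => ?_
      have hk' : a 1 ≠ 0 := hk
      have h1 : y 1 N = -(a 0 / a 1) * y 0 N - (a 2 / a 1) * y 2 N := by
        have := hr N
        field_simp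
        linarith
      simp only [Fin.sum_univ_three]
      rw [h1]
      ring
    · refine sel_two y L ho (fun N => ∑ i, w i * y i N) hw 0 1 (by decide)
        (w 0 - w 2 * a 0 / a 2) (w 1 - w 2 * a 1 / a 2) fun N => ?_
      have hk' : a 2 ≠ 0 := hk
      have h1 : y 2 N = -(a 0 / a 2) * y 0 N - (a 1 / a 2) * y 1 N := by
        have := hr N
        field_simp
        linarith
      simp only [Fin.sum_univ_three]
      rw [h1]
      ring
  · push Not at hrel
    refine ⟨y, w, ?_, fun i => Or.inl ⟨i, rfl⟩, fun N => rfl, ?_⟩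
    · rintro rfl
      obtain ⟨N, hN⟩ := hw
      exact hN (by simp)
    · intro g' hg'
      obtain ⟨N, hN, hne⟩ := ho g' (hrel g' hg')
      exact ⟨N, by omega, hne⟩

end U44
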