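import Pool.Agent.LibU44.Z1

namespace U44
open T44

/-- components of `p^e` -/
def sg_co (π e r : ℕ) : ℤ := if e % 3 = r then (π : ℤ) ^ (e / 3) else 0

theorem sg_co_sum {p : ℝ} {π : ℕ} (hπ : p ^ 3 = π) (e : ℕ) :
    ∑ r ∈ Finset.range 3, (sg_co π e r : ℝ) * p ^ r = p ^ e := by
  have h1 : p ^ e = (π : ℝ) ^ (e / 3) * p ^ (e % 3) := by
    rw [← hπ, ← pow_mul, ← pow_add, Nat.div_add_mod]
  have h2 : e % 3 < 3 := Nat.mod_lt _ (by norm_num)
  rw [Finset.sum_eq_single_of_mem (e % 3) (Finset.mem_range.2 h2)]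
  · unfold sg_co
    rw [if_pos rfl, h1]
    push_cast
    rfl
  · intro r _ hr
    unfold sg_co
    rw [if_neg (fun h => hr h.symm)]
    simp

/-- the entries of the integer matrix -/
noncomputable def sg_A (A : ℤ) (β π : ℕ) (E : PowerSeries ℤ) (fac : ℕ → ℤ) (sh : ℕ → ℕ)
    (N r m k j : ℕ) : ℤ :=
  if j < N + 1 then fac m * (9 * A) ^ j * (β : ℤ) ^ k * (PowerSeries.coeff (N - j) (E ^ k) : ℤ) *
    sg_co π (sh m + (j + 2 - k)) r else 0

theorem sg_sum (a b : ℕ) (f : ℕ → ℝ) (hf : ∀ j, b ≤ j → f j = 0) :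
    ∑ j ∈ Finset.range a, f j = ∑ j ∈ Finset.range b, if j < a then f j else 0 := by
  rw [← Finset.sum_filter]
  have h1 : (Finset.range b).filter (fun j => j < a) = (Finset.range a).filter (fun j => j < b) := by
    ext j
    simp only [Finset.mem_filter, Finset.mem_range]
    exact and_comm
  rw [h1, Finset.sum_filter]
  refine Finset.sum_congr rfl fun j _ => ?_
  split_ifs with h
  · rfl
  · exact hf j (not_lt.1 h)

theorem sg_Yc {A : ℤ} {β π D : ℕ} {p : ℝ} (hπ : p ^ 3 = π) (E : PowerSeries ℤ)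
    (fac : ℕ → ℤ) (sh : ℕ → ℕ) (c : ℕ → ℕ → ℕ → ℤ)
    (hc : ∀ m k j, 20 * D - k + 1 ≤ j → c m k j = 0) (N : ℕ)
    (h : ∀ r < 3, ∑ m ∈ Finset.range 3, ∑ k ∈ Finset.range 3, ∑ j ∈ Finset.range (20 * D - k + 1),
      sg_A A β π E fac sh N r m k j * c m k j = 0) :
    ∑ m ∈ Finset.range 3, (fac m : ℝ) * p ^ (sh m) * Yc A β p E (c m) N = 0 := by
  have h1 : ∑ r ∈ Finset.range 3, p ^ r * ((∑ m ∈ Finset.range 3, ∑ k ∈ Finset.range 3,
      ∑ j ∈ Finset.range (20 * D - k + 1), sg_A A β π E fac sh N r m k j * c m k j : ℤ) : ℝ) = 0 := by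
    refine Finset.sum_eq_zero fun r hr => ?_
    rw [h r (Finset.mem_range.1 hr)]
    simp
  rw [← h1]
  push_cast
  simp only [Finset.mul_sum]
  rw [Finset.sum_comm]
  refine Finset.sum_congr rfl fun m _ => ?_
  rw [Finset.sum_comm]
  unfold Yc
  rw [Finset.mul_sum]
  refine Finset.sum_congr rfl fun k _ => ?_
  rw [Finset.mul_sum, Finset.sum_comm, sg_sum (N + 1) (20 * D - k + 1)]
  · refine Finset.sum_congr rfl fun j _ => ?_
    unfold sg_A
    split_ifs with hj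
    · have h2 := sg_co_sum hπ (sh m + (j + 2 - k))
      rw [pow_add] at h2
      have h3 : (fac m : ℝ) * p ^ sh m * ((c m k j : ℝ) * (9 * (A : ℝ)) ^ j * (β : ℝ) ^ k *
          p ^ (j + 2 - k) * ((PowerSeries.coeff (N - j) (E ^ k) : ℤ) : ℝ)) =
          ((fac m : ℝ) * (9 * (A : ℝ)) ^ j * (β : ℝ) ^ k *
            ((PowerSeries.coeff (N - j) (E ^ k) : ℤ) : ℝ) * (c m k j : ℝ)) *
            (p ^ sh m * p ^ (j + 2 - k)) := by ring
      rw [h3, ← h2, Finset.mul_sum]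
      refine Finset.sum_congr rfl fun r _ => ?_
      push_cast
      ring
    · simp
  · intro j hj
    rw [hc m k j hj]
    simp

theorem sg_pow_le {h : ℝ} (h1 : 1 ≤ h) {a b : ℕ} (hab : a ≤ b) : h ^ a ≤ h ^ b :=
  pow_le_pow_right₀ h1 hab

theorem sg_bound {H D α β : ℕ} {p q : ℝ} (h : Cl α β p q) (hH : 2 ≤ H) (hD : 1 ≤ D)
    (hab : α * β ≤ H ^ 3) (A : ℤ) (hA : |A| ≤ H) (E : PowerSeries ℤ)
    (hE : ∀ k < 3, ∀ n, |(PowerSeries.coeff n (E ^ k) : ℤ)| ≤ 9 * (2000 * (H : ℤ)) ^ n)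
    (fac : ℕ → ℤ) (sh : ℕ → ℕ) (hfac : ∀ m, |(fac m : ℝ)| ≤ 3 * (H : ℝ) ^ 3) (hsh : ∀ m, sh m ≤ 2)
    (N r m k j : ℕ) (hN : N < 33 * D) (hk : k < 3) (hj : j ≤ 20 * D) :
    |(sg_A A β (α * β ^ 2) E fac sh N r m k j : ℝ)| ≤ (10 * (H : ℝ)) ^ (177 * D) := by
  have hH' : (2 : ℝ) ≤ H := by exact_mod_cast hH
  set g : ℝ := 10 * (H : ℝ) with hg
  have hg1 : 1 ≤ g := by linarith
  have hg20 : 20 ≤ g := by linarith
  have hHg : (H : ℝ) ≤ g := by linarith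
  have hH0 : (0 : ℝ) ≤ H := by linarith
  obtain ⟨-, -, -, hcl⟩ := cl_p h
  obtain ⟨hπ, -, hβ⟩ := hcl H hab
  have hβ' : (β : ℝ) ≤ (H : ℝ) ^ 3 := by exact_mod_cast hβ
  have hπ' : (((α * β ^ 2 : ℕ) : ℕ) : ℝ) ≤ (H : ℝ) ^ 6 := by exact_mod_cast hπ
  unfold sg_A
  split_ifs with hjN
  · push_cast
    rw [abs_mul, abs_mul, abs_mul, abs_mul]
    have e1 : |(fac m : ℝ)| ≤ g ^ 3 := by
      refine (hfac m).trans ?_
      rw [hg, mul_pow]
      have : (0 : ℝ) ≤ (H : ℝ) ^ 3 := by positivity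
      nlinarith
    have e2 : |(9 * (A : ℝ)) ^ j| ≤ g ^ (20 * D) := by
      have h1 : |(9 * (A : ℝ))| ≤ g := by
        rw [abs_mul]
        have : |(A : ℝ)| ≤ H := by exact_mod_cast hA
        rw [hg]
        norm_num
        linarith
      rw [abs_pow]
      exact (pow_le_pow_left₀ (abs_nonneg _) h1 j).trans (sg_pow_le hg1 hj)
    have e3 : |(β : ℝ) ^ k| ≤ g ^ 6 := by
      rw [abs_pow, Nat.abs_cast]
      have h1 : (β : ℝ) ≤ g ^ 3 := hβ'.trans (pow_le_pow_left₀ hH0 hHg 3)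
      calc (β : ℝ) ^ k ≤ (g ^ 3) ^ k := pow_le_pow_left₀ (Nat.cast_nonneg _) h1 k
        _ = g ^ (3 * k) := by rw [← pow_mul]
        _ ≤ g ^ 6 := sg_pow_le hg1 (by omega)
    have e4 : |((PowerSeries.coeff (N - j) (E ^ k) : ℤ) : ℝ)| ≤ g * g ^ (99 * D) := by
      have h1 : |((PowerSeries.coeff (N - j) (E ^ k) : ℤ) : ℝ)| ≤ 9 * (2000 * (H : ℝ)) ^ (N - j) := by
        have := hE k hk (N - j)
        exact_mod_cast this
      have h2 : 2000 * (H : ℝ) ≤ g ^ 3 := by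
        rw [hg, mul_pow]
        have h3 : (4 : ℝ) ≤ (H : ℝ) ^ 2 := by nlinarith
        have h4 : (H : ℝ) ^ 3 = H ^ 2 * H := by ring
        rw [h4]
        nlinarith [mul_le_mul_of_nonneg_right h3 hH0]
      have h3 : (2000 * (H : ℝ)) ^ (N - j) ≤ g ^ (99 * D) := by
        calc (2000 * (H : ℝ)) ^ (N - j) ≤ (g ^ 3) ^ (N - j) :=
              pow_le_pow_left₀ (by positivity) h2 _
          _ = g ^ (3 * (N - j)) := by rw [← pow_mul]
          _ ≤ g ^ (99 * D) := sg_pow_le hg1 (by omega)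
      refine h1.trans (mul_le_mul (by linarith) h3 (by positivity) (by linarith))
    have e5 : |(sg_co (α * β ^ 2) (sh m + (j + 2 - k)) r : ℝ)| ≤ g ^ (40 * D + 8) := by
      unfold sg_co
      split_ifs with hr
      · rw [Int.cast_pow, Int.cast_natCast, abs_pow, Nat.abs_cast]
        set e := sh m + (j + 2 - k) with he
        have h1 : e ≤ 20 * D + 4 := by
          have := hsh m
          omega
        calc (((α * β ^ 2 : ℕ) : ℕ) : ℝ) ^ (e / 3) ≤ ((H : ℝ) ^ 6) ^ (e / 3) :=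
              pow_le_pow_left₀ (Nat.cast_nonneg _) hπ' _
          _ ≤ (g ^ 6) ^ (e / 3) :=
              pow_le_pow_left₀ (by positivity) (pow_le_pow_left₀ hH0 hHg 6) _
          _ = g ^ (6 * (e / 3)) := by rw [← pow_mul]
          _ ≤ g ^ (40 * D + 8) := sg_pow_le hg1 (by omega)
      · simp
        positivity
    calc |(fac m : ℝ)| * |(9 * (A : ℝ)) ^ j| * |(β : ℝ) ^ k| *
          |((PowerSeries.coeff (N - j) (E ^ k) : ℤ) : ℝ)| *
          |(sg_co (α * β ^ 2) (sh m + (j + 2 - k)) r : ℝ)| ≤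
          g ^ 3 * g ^ (20 * D) * g ^ 6 * (g * g ^ (99 * D)) * g ^ (40 * D + 8) := by
          refine mul_le_mul (mul_le_mul (mul_le_mul (mul_le_mul e1 e2 (abs_nonneg _) ?_) e3
            (abs_nonneg _) ?_) e4 (abs_nonneg _) ?_) e5 (abs_nonneg _) ?_ <;> positivity
      _ = g ^ (159 * D + 18) := by ring
      _ ≤ g ^ (177 * D) := sg_pow_le hg1 (by omega)
  · simp
    positivity

open Matrix in
attribute [local instance] Matrix.seminormedAddCommGroup in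
theorem sg_siegel {ι κ : Type} [Fintype ι] [Fintype κ] (M : Matrix ι κ ℤ) {D : ℕ} {g : ℝ}
    (hD : 1 ≤ D) (hg : 20 ≤ g) (h1 : Fintype.card ι = 165 * D) (h2 : Fintype.card κ = 180 * D)
    (hM : ∀ i x, |(M i x : ℝ)| ≤ g ^ (177 * D)) :
    ∃ t : κ → ℤ, t ≠ 0 ∧ M *ᵥ t = 0 ∧ ∀ x, |(t x : ℝ)| ≤ g ^ (2100 * D) := by
  obtain ⟨t, ht0, htM, htn⟩ := Int.Matrix.exists_ne_zero_int_vec_norm_le M
    (by rw [h1, h2]; omega) (by rw [h1]; omega)
  refine ⟨t, ht0, htM, fun x => ?_⟩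
  have hg1 : 1 ≤ g := by linarith
  have hD' : (0 : ℝ) < D := by exact_mod_cast hD
  have e1 : ((Fintype.card ι : ℝ) / ((Fintype.card κ : ℝ) - Fintype.card ι)) = ((11 : ℕ) : ℝ) := by
    rw [h1, h2]
    push_cast
    have : (180 : ℝ) * D - 165 * D = 15 * D := by ring
    rw [this, div_eq_iff (by positivity)]
    ring
  rw [e1, Real.rpow_natCast] at htn
  have e2 : ‖M‖ ≤ g ^ (177 * D) := by
    rw [Matrix.norm_le_iff (by positivity)]
    intro i x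
    rw [Int.norm_eq_abs]
    exact hM i x
  have e3 : max 1 ‖M‖ ≤ g ^ (177 * D) := max_le (one_le_pow₀ hg1) e2
  have e4 : (Fintype.card κ : ℝ) ≤ g ^ (3 * D) := by
    rw [h2]
    push_cast
    have h3 : (D : ℝ) ≤ 2 ^ D := by exact_mod_cast (Nat.lt_two_pow_self (n := D)).le
    have h4 : (2 : ℝ) ^ D ≤ g ^ D := pow_le_pow_left₀ (by norm_num) (by linarith) D
    have h5 : (180 : ℝ) ≤ g ^ 2 := by nlinarith
    calc (180 : ℝ) * D ≤ g ^ 2 * g ^ D := mul_le_mul h5 (h3.trans h4) hD'.le (by positivity)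
      _ = g ^ (2 + D) := by rw [pow_add]
      _ ≤ g ^ (3 * D) := sg_pow_le hg1 (by omega)
  have e5 : (Fintype.card κ : ℝ) * max 1 ‖M‖ ≤ g ^ (180 * D) := by
    calc (Fintype.card κ : ℝ) * max 1 ‖M‖ ≤ g ^ (3 * D) * g ^ (177 * D) :=
          mul_le_mul e4 e3 (by positivity) (by positivity)
      _ = g ^ (180 * D) := by rw [← pow_add]; congr 1; ring
  have e6 : ‖t x‖ ≤ ‖t‖ := norm_le_pi_norm t x
  rw [Int.norm_eq_abs] at e6
  calc |(t x : ℝ)| ≤ ‖t‖ := e6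
    _ ≤ ((Fintype.card κ : ℝ) * max 1 ‖M‖) ^ 11 := htn
    _ ≤ (g ^ (180 * D)) ^ 11 := pow_le_pow_left₀ (by positivity) e5 11
    _ = g ^ (1980 * D) := by rw [← pow_mul]; congr 1; ring
    _ ≤ g ^ (2100 * D) := sg_pow_le hg1 (by omega)

theorem sg_key {D : ℕ} {g : ℝ} (hD : 1 ≤ D) (hg : 20 ≤ g) (R : Bool → ℕ → ℕ → ℕ → ℕ → ℕ → ℤ)
    (hR : ∀ b N r m k j, N < 33 * D → k < 3 → j ≤ 20 * D → |(R b N r m k j : ℝ)| ≤ g ^ (177 * D)) :
    ∃ c : ℕ → ℕ → ℕ → ℤ, (∃ m < 3, ∃ k < 3, ∃ j, c m k j ≠ 0) ∧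
      (∀ m k j, 20 * D - k + 1 ≤ j → c m k j = 0) ∧ (∀ m k j, 3 ≤ k → c m k j = 0) ∧
      (∀ m k j, |(c m k j : ℝ)| ≤ g ^ (2100 * D)) ∧
      (∀ N < 33 * D, ∀ r < 3, ∑ m ∈ Finset.range 3, ∑ k ∈ Finset.range 3,
        ∑ j ∈ Finset.range (20 * D - k + 1), R false N r m k j * c m k j = 0) ∧
      (∀ N < 22 * D, ∀ r < 3, ∑ m ∈ Finset.range 3, ∑ k ∈ Finset.range 3,
        ∑ j ∈ Finset.range (20 * D - k + 1), R true N r m k j * c m k j = 0) := by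
  classical
  let ι := (Fin (33 * D) ⊕ Fin (22 * D)) × Fin 3
  let κ := Fin 3 × (Σ k : Fin 3, Fin (20 * D - (k : ℕ) + 1))
  let tt : (Fin (33 * D) ⊕ Fin (22 * D)) → Bool := fun s => s.elim (fun _ => false) (fun _ => true)
  let NN : (Fin (33 * D) ⊕ Fin (22 * D)) → ℕ :=
    fun s => s.elim (fun n : Fin (33 * D) => (n : ℕ)) (fun n : Fin (22 * D) => (n : ℕ))
  let M : Matrix ι κ ℤ := fun i x => R (tt i.1) (NN i.1) (i.2 : ℕ) (x.1 : ℕ) (x.2.1 : ℕ) (x.2.2 : ℕ)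
  have hNN : ∀ s, NN s < 33 * D := by
    rintro (n | n)
    · exact n.2
    · have h1 : (n : ℕ) < 22 * D := n.2
      have h2 : NN (Sum.inr n) = (n : ℕ) := rfl
      rw [h2]
      omega
  have hcι : Fintype.card ι = 165 * D := by
    simp only [ι, Fintype.card_prod, Fintype.card_sum, Fintype.card_fin]
    ring
  have hcκ : Fintype.card κ = 180 * D := by
    simp only [κ, Fintype.card_prod, Fintype.card_sigma, Fintype.card_fin, Fin.sum_univ_three]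
    have e0 : ((0 : Fin 3) : ℕ) = 0 := rfl
    have e1 : ((1 : Fin 3) : ℕ) = 1 := rfl
    have e2 : ((2 : Fin 3) : ℕ) = 2 := rfl
    rw [e0, e1, e2]
    omega
  have hMb : ∀ i x, |(M i x : ℝ)| ≤ g ^ (177 * D) := by
    intro i x
    refine hR _ _ _ _ _ _ (hNN _) x.2.1.2 ?_
    have := x.2.2.2
    omega
  obtain ⟨t, ht0, htM, htb⟩ := sg_siegel M hD hg hcι hcκ hMb
  obtain ⟨c, hc⟩ : ∃ c : ℕ → ℕ → ℕ → ℤ, ∀ m k j, c m k j =
      if hh : m < 3 ∧ k < 3 ∧ j < 20 * D - k + 1 then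
      t (⟨m, hh.1⟩, ⟨⟨k, hh.2.1⟩, ⟨j, hh.2.2⟩⟩) else 0 := ⟨_, fun m k j => rfl⟩
  have hct : ∀ x : κ, c (x.1 : ℕ) (x.2.1 : ℕ) (x.2.2 : ℕ) = t x := by
    rintro ⟨m, k, j⟩
    rw [hc, dif_pos ⟨m.2, k.2, j.2⟩]
  have hrow : ∀ (s : Fin (33 * D) ⊕ Fin (22 * D)) (r : Fin 3),
      ∑ m ∈ Finset.range 3, ∑ k ∈ Finset.range 3, ∑ j ∈ Finset.range (20 * D - k + 1),
      R (tt s) (NN s) (r : ℕ) m k j * c m k j = 0 := by
    intro s r
    have h1 : (M.mulVec t) (s, r) = 0 := by rw [htM]; rfl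
    have h2 : ∑ x : κ, M (s, r) x * t x = 0 := h1
    have h3 : ∑ x : κ, M (s, r) x * t x = ∑ x : κ,
        R (tt s) (NN s) (r : ℕ) (x.1 : ℕ) (x.2.1 : ℕ) (x.2.2 : ℕ) *
          c (x.1 : ℕ) (x.2.1 : ℕ) (x.2.2 : ℕ) := by
      refine Finset.sum_congr rfl fun x _ => ?_
      rw [hct x]
    rw [h3] at h2
    rw [← h2]
    simp only [κ]
    rw [Fintype.sum_prod_type, Finset.sum_range]
    refine Finset.sum_congr rfl fun m _ => ?_
    rw [Fintype.sum_sigma, Finset.sum_range]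
    refine Finset.sum_congr rfl fun k _ => ?_
    rw [Finset.sum_range]
  refine ⟨c, ?_, ?_, ?_, ?_, ?_, ?_⟩
  · by_contra hcon
    apply ht0
    funext x
    rw [← hct x]
    by_contra hne
    exact hcon ⟨x.1, x.1.2, x.2.1, x.2.1.2, x.2.2, hne⟩
  · intro m k j hj
    rw [hc]
    exact dif_neg (fun hh => by have := hh.2.2; omega)
  · intro m k j hj
    rw [hc]
    exact dif_neg (fun hh => by have := hh.2.1; omega)
  · intro m k j
    rw [hc]
    split_ifs with hh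
    · exact htb _
    · have h0 : (0 : ℝ) ≤ g := by linarith
      rw [Int.cast_zero, abs_zero]
      exact pow_nonneg h0 _
  · intro N hN r hr
    exact hrow (Sum.inl ⟨N, hN⟩) ⟨r, hr⟩
  · intro N hN r hr
    exact hrow (Sum.inr ⟨N, hN⟩) ⟨r, hr⟩

/-- factors of the two kinds of equations -/
def sg_fac (β : ℕ) : Bool → ℕ → ℤ
  | false, m => if m = 1 then 1 else if m = 2 then β else 0
  | true, m => if m = 0 then 3 else if m = 2 then β else 0

def sg_sh : Bool → ℕ → ℕ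
  | false, m => if m = 1 then 1 else 0
  | true, m => if m = 0 then 2 else 0

theorem sg_fin1 {A : ℤ} {β : ℕ} {p : ℝ} (E : PowerSeries ℤ) (c : ℕ → ℕ → ℕ → ℤ) (N : ℕ)
    (h : ∑ m ∈ Finset.range 3, (sg_fac β false m : ℝ) * p ^ (sg_sh false m) *
      Yc A β p E (c m) N = 0) : p * Yc A β p E (c 1) N + β * Yc A β p E (c 2) N = 0 := by
  rw [Finset.sum_range_succ, Finset.sum_range_succ, Finset.sum_range_succ,
    Finset.sum_range_zero] at h
  have f0 : sg_fac β false 0 = 0 := rfl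
  have f1 : sg_fac β false 1 = 1 := rfl
  have f2 : sg_fac β false 2 = β := rfl
  have s1 : sg_sh false 1 = 1 := rfl
  have s2 : sg_sh false 2 = 0 := rfl
  rw [f0, f1, f2, s1, s2, Int.cast_zero, Int.cast_one, Int.cast_natCast] at h
  linear_combination h

theorem sg_fin2 {A : ℤ} {β : ℕ} {p : ℝ} (E : PowerSeries ℤ) (c : ℕ → ℕ → ℕ → ℤ) (N : ℕ)
    (h : ∑ m ∈ Finset.range 3, (sg_fac β true m : ℝ) * p ^ (sg_sh true m) *
      Yc A β p E (c m) N = 0) :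
    3 * p ^ 2 * Yc A β p E (c 0) N + β * Yc A β p E (c 2) N = 0 := by
  rw [Finset.sum_range_succ, Finset.sum_range_succ, Finset.sum_range_succ,
    Finset.sum_range_zero] at h
  have f0 : sg_fac β true 0 = 3 := rfl
  have f1 : sg_fac β true 1 = 0 := rfl
  have f2 : sg_fac β true 2 = β := rfl
  have s1 : sg_sh true 0 = 2 := rfl
  have s2 : sg_sh true 2 = 0 := rfl
  rw [f0, f1, f2, s1, s2, Int.cast_zero, Int.cast_ofNat, Int.cast_natCast] at h
  linear_combination h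

/-- Row SG (Siegel's lemma; `Int.Matrix.exists_ne_zero_int_vec_norm_le`). Unknowns `c m k j`, `m, k < 3`, `j ≤ 20D - k`: exactly
`180 D` of them. Equations: for `N < 33D` the number `p·Yc(c 1) N + β·Yc(c 2) N = ∑ (c₁ p + c₂ β)(9A)^j β^k p^(j+2-k) coeff_{N-j}(E^k)` and
for `N < 22D` the number `3p²·Yc(c 0) N + β·Yc(c 2) N` vanish. Every term is (integer)·`p^e` with `e ≤ 20D + 4`, and
`p^e = π^(e/3) p^(e mod 3)`, `π = αβ²`; it suffices that the three integer sums (terms with `e mod 3 = r`, `r = 0, 1, 2`) vanish: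
`3(33D + 22D) = 165 D` integer equations. Entries: `|9A|^j ≤ h^(20D)`, `β^(k+1) ≤ H⁹`, `π^(e/3) ≤ H^(2e) ≤ H^(40D+8)`, factor 3,
`9 (2000H)^N ≤ 9 h^(99 D)` (`2000H ≤ h³`, `h = 10H ≥ 20`), so `≤ h^(180D)`; Siegel: `|c| ≤ (180D·h^(180D))^(165D/15D) ≤ h^(2002D)`. -/
theorem siegel_aux {H D α β : ℕ} {p q : ℝ} (h : Cl α β p q) (hH : 2 ≤ H) (hD : 1 ≤ D) (hab : α * β ≤ H ^ 3)
    (A : ℤ) (hA : |A| ≤ H) (E : PowerSeries ℤ)
    (hE : ∀ k < 3, ∀ n, |(PowerSeries.coeff n (E ^ k) : ℤ)| ≤ 9 * (2000 * (H : ℤ)) ^ n) :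
    ∃ c : ℕ → ℕ → ℕ → ℤ, (∃ m < 3, ∃ k < 3, ∃ j, c m k j ≠ 0) ∧
      (∀ m k j, 20 * D < j + k → c m k j = 0) ∧
      (∀ m k j, |(c m k j : ℝ)| ≤ (10 * (H : ℝ)) ^ (2100 * D)) ∧
      (∀ N < 33 * D, p * Yc A β p E (c 1) N + β * Yc A β p E (c 2) N = 0) ∧
      (∀ N < 22 * D, 3 * p ^ 2 * Yc A β p E (c 0) N + β * Yc A β p E (c 2) N = 0) := by
  have hH' : (2 : ℝ) ≤ H := by exact_mod_cast hH
  obtain ⟨-, hp3, -, hcl⟩ := cl_p h
  obtain ⟨-, -, hβ⟩ := hcl H hab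
  have hβ' : (β : ℝ) ≤ (H : ℝ) ^ 3 := by exact_mod_cast hβ
  have hH3 : (8 : ℝ) ≤ (H : ℝ) ^ 3 := by
    have := pow_le_pow_left₀ (by norm_num) hH' 3
    linarith
  have hfac : ∀ b m, |(sg_fac β b m : ℝ)| ≤ 3 * (H : ℝ) ^ 3 := by
    intro b m
    have hb0 : (0 : ℝ) ≤ β := Nat.cast_nonneg _
    cases b
    · unfold sg_fac
      simp only
      split_ifs
      · simp; linarith
      · rw [Int.cast_natCast, abs_of_nonneg hb0]; linarith
      · simp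
    · unfold sg_fac
      simp only
      split_ifs
      · norm_num; linarith
      · rw [Int.cast_natCast, abs_of_nonneg hb0]; linarith
      · simp
  have hsh : ∀ b m, sg_sh b m ≤ 2 := by
    intro b m
    cases b <;> unfold sg_sh <;> simp only <;> split_ifs <;> norm_num
  obtain ⟨c, hc1, hc2, hc3, hc4, hc5, hc6⟩ := sg_key (g := 10 * (H : ℝ)) hD (by linarith)
    (fun b N r m k j => sg_A A β (α * β ^ 2) E (sg_fac β b) (sg_sh b) N r m k j)
    (fun b N r m k j hN hk hj => sg_bound h hH hD hab A hA E hE _ _ (hfac b) (hsh b) N r m k j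
      hN hk hj)
  refine ⟨c, hc1, ?_, hc4, ?_, ?_⟩
  · intro m k j hj
    by_cases hk : k < 3
    · exact hc2 m k j (by omega)
    · exact hc3 m k j (not_lt.1 hk)
  · intro N hN
    exact sg_fin1 E c N (sg_Yc hp3 E (sg_fac β false) (sg_sh false) c hc2 N (hc5 N hN))
  · intro N hN
    exact sg_fin2 E c N (sg_Yc hp3 E (sg_fac β true) (sg_sh true) c hc2 N (hc6 N hN))

end U44
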