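import Pool.Agent.LibU44.S1
import Pool.Agent.LibU44.SG
import Pool.Agent.LibU44.IN
import Pool.Agent.LibU44.LV
import Pool.Agent.LibU44.C1
import Pool.Agent.LibU44.C2b
import Pool.Agent.LibU44.LB4

namespace U44
open T44

/-- the scale `D` -/
theorem ts_scale {W₁ W₂ : ℝ} (hW : 2 ≤ W₁) (h : W₁ ^ 660 ≤ W₂) :
    ∃ D : ℕ, 60 ≤ D ∧ W₁ ^ (11 * D) ≤ W₂ ∧ W₂ ≤ W₁ ^ (11 * D + 11) := by
  have h1 : (1 : ℝ) < W₁ ^ 11 := one_lt_pow₀ (by linarith) (by norm_num)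
  obtain ⟨n, hn⟩ := pow_unbounded_of_one_lt W₂ h1
  classical
  have hex : ∃ n : ℕ, W₂ < (W₁ ^ 11) ^ n := ⟨n, hn⟩
  have hs := Nat.find_spec hex
  have hm : ∀ k < Nat.find hex, ¬ W₂ < (W₁ ^ 11) ^ k := fun k hk => Nat.find_min hex hk
  have h61 : 61 ≤ Nat.find hex := by
    by_contra hcon
    have h2 : Nat.find hex ≤ 60 := by omega
    have h3 : (W₁ ^ 11) ^ Nat.find hex ≤ (W₁ ^ 11) ^ 60 := pow_le_pow_right₀ h1.le h2
    have h4 : (W₁ ^ 11) ^ 60 = W₁ ^ 660 := by rw [← pow_mul]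
    rw [h4] at h3
    linarith
  refine ⟨Nat.find hex - 1, by omega, ?_, ?_⟩
  · have h2 := hm (Nat.find hex - 1) (by omega)
    rw [not_lt, ← pow_mul] at h2
    exact h2
  · have h2 : 11 * (Nat.find hex - 1) + 11 = 11 * Nat.find hex := by omega
    rw [h2, pow_mul]
    exact hs.le

/-- Row TS (the Thue-Siegel principle for two solutions of one class). `W_i = u_i p`, `|W_i - S_i/2| ≤ H` (`wsize`), `αβ ≤ H³`. `W₁ ≤ S₁`,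
`W₂ ≥ S₂/3 ≥ S₁^700/3 ≥ W₁^660`; let `D` be maximal with `W₁^(11D) ≤ W₂` (`D ≥ 60`), so `W₂ ≤ W₁^(11D+11)`; `W₁ ≥ h^200000`,
`S₂ ≥ W₂ ≥ h^(7000D)`. `ser_exists` (`|αβF| ≤ H³`), `siegel_aux` (`ser_pow`): `c`; `w = (a₂, u₂, v₂)`. Some `c m k₀ j₀ ≠ 0`, so
`∑_m w_m c m k₀ j₀ ≠ 0` (`lin_ne`) and `Yc_ne` (`indep`) gives the hypothesis of `case_one`. `int_chain` with `N = D/5`: the first alternative
contradicts `case_two` (`5n < 5N ≤ D`), the second one `case_one` (`D + 16 ≤ 8N`). -/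
theorem thue_siegel {H α β : ℕ} {p q : ℝ} (h : Cl α β p q) (hH : 2 ≤ H) (z₁ z₂ : ℤ × ℤ × ℤ)
    (hz₁ : Sol H α β z₁) (hz₂ : Sol H α β z₂) (ha₁ : z₁.1 ≠ 0) (ha₂ : z₂.1 ≠ 0)
    (h1 : (10 * (H : ℝ)) ^ 300000 ≤ sS p q z₁) (h2 : sS p q z₁ ^ 700 ≤ sS p q z₂) : False := by
  have hH1 : 1 ≤ H := by omega
  have hHr : (2 : ℝ) ≤ H := by exact_mod_cast hH
  have hp0 : 0 < p := h.2.2.2.2.2.2.1
  have hβ : 1 ≤ β := h.2.1
  obtain ⟨hw1, -, -, -, hab⟩ := wsize h hH1 z₁ hz₁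
  obtain ⟨hw2, -, -, -, -⟩ := wsize h hH1 z₂ hz₂
  set hh : ℝ := 10 * (H : ℝ) with hhd
  have hh20 : 20 ≤ hh := by linarith
  have hh1 : 1 ≤ hh := by linarith
  set S₁ := sS p q z₁ with hS₁
  set S₂ := sS p q z₂ with hS₂
  set W₁ : ℝ := (z₁.2.1 : ℝ) * p with hW₁
  set W₂ : ℝ := (z₂.2.1 : ℝ) * p with hW₂
  rw [abs_le] at hw1 hw2
  -- sizes
  have e1 : hh ^ 300000 = hh ^ 200000 * hh ^ 100000 := by rw [← pow_add]
  have e2 : (3 * hh) ≤ hh ^ 100000 := by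
    calc 3 * hh ≤ hh * hh := by nlinarith
      _ = hh ^ 2 := by ring
      _ ≤ hh ^ 100000 := pow_le_pow_right₀ hh1 (by norm_num)
  have e3 : 1 ≤ hh ^ 200000 := one_le_pow₀ hh1
  have e4 : 3 * hh * hh ^ 200000 ≤ hh ^ 300000 := by
    rw [e1, mul_comm (hh ^ 200000)]
    exact mul_le_mul_of_nonneg_right e2 (by linarith)
  have hS1big : 3 * hh * hh ^ 200000 ≤ S₁ := e4.trans h1
  have hS1h : 3 * hh ≤ S₁ := by nlinarith
  have hS1pos : 1 ≤ S₁ := by linarith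
  have hS12 : S₁ ≤ S₂ := by
    calc S₁ = S₁ ^ 1 := (pow_one _).symm
      _ ≤ S₁ ^ 700 := pow_le_pow_right₀ hS1pos (by norm_num)
      _ ≤ S₂ := h2
  have hHh : (H : ℝ) ≤ hh / 10 := by rw [hhd]; linarith
  have hW1S : W₁ ≤ S₁ := by linarith
  have hW1S3 : S₁ / 3 ≤ W₁ := by linarith
  have hW2S : W₂ ≤ S₂ := by linarith
  have hW2S3 : S₂ / 3 ≤ W₂ := by linarith
  have hW : hh ^ 200000 ≤ W₁ := by nlinarith
  have hW1h : hh ≤ W₁ := by linarith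
  have hW1pos : 0 < W₁ := by linarith
  have h660 : W₁ ^ 660 ≤ W₂ := by
    have f1 : S₁ ^ 700 = S₁ ^ 660 * S₁ ^ 40 := by rw [← pow_add]
    have f2 : 3 ≤ S₁ ^ 40 := by
      calc (3 : ℝ) ≤ S₁ := by linarith
        _ = S₁ ^ 1 := (pow_one _).symm
        _ ≤ S₁ ^ 40 := pow_le_pow_right₀ hS1pos (by norm_num)
    have f3 : W₁ ^ 660 ≤ S₁ ^ 660 := pow_le_pow_left₀ hW1pos.le hW1S _
    have f4 : 0 ≤ S₁ ^ 660 := by positivity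
    have f5 : 3 * S₁ ^ 660 ≤ S₂ := by
      calc 3 * S₁ ^ 660 ≤ S₁ ^ 40 * S₁ ^ 660 := mul_le_mul_of_nonneg_right f2 f4
        _ = S₁ ^ 700 := by rw [f1, mul_comm]
        _ ≤ S₂ := h2
    linarith
  obtain ⟨D, hD, hW2', hW3'⟩ := ts_scale (by linarith : (2 : ℝ) ≤ W₁) h660
  have hD1 : 1 ≤ D := by omega
  have hD50 : 50 ≤ D := by omega
  have hSbig : hh ^ (7000 * D) ≤ S₂ := by
    calc hh ^ (7000 * D) ≤ hh ^ (200000 * (11 * D)) := pow_le_pow_right₀ hh1 (by omega)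
      _ = (hh ^ 200000) ^ (11 * D) := by rw [pow_mul]
      _ ≤ W₁ ^ (11 * D) := pow_le_pow_left₀ (by linarith) hW _
      _ ≤ W₂ := hW2'
      _ ≤ S₂ := hW2S
  -- the series
  have hA : |z₁.1| ≤ (H : ℤ) := hz₁.1
  have hB : |(α : ℤ) * β * F α β z₁| ≤ (H : ℤ) ^ 3 := by
    have g1 : |(α : ℤ) * β * F α β z₁| = ((α : ℤ) * β) * |F α β z₁| := by
      rw [abs_mul, abs_of_nonneg (by positivity : (0 : ℤ) ≤ (α : ℤ) * β)]
    rw [g1]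
    exact hz₁.2.2.1
  obtain ⟨E, hE⟩ := ser_exists H hH1 z₁.1 ((α : ℤ) * β * F α β z₁) hA hB
  obtain ⟨c, ⟨m₀, hm₀, k₀, hk₀, j₀, hne⟩, h0, hc, hv0, hv1⟩ :=
    siegel_aux h hH hD1 hab z₁.1 hA E (fun k hk n => ser_pow hE hH1 k hk n)
  set w : ℕ → ℤ := fun m => if m = 0 then z₂.1 else if m = 1 then z₂.2.1 else z₂.2.2 with hw
  have hlin := lin_ne h hH hD1 z₂ hz₂ ha₂ hSbig (c 0 k₀ j₀) (c 1 k₀ j₀) (c 2 k₀ j₀)
    (by
      rintro ⟨g0, g1, g2⟩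
      interval_cases m₀
      · exact hne g0
      · exact hne g1
      · exact hne g2)
    (hc 0 k₀ j₀) (hc 1 k₀ j₀) (hc 2 k₀ j₀)
  have hsum : ∑ m ∈ Finset.range 3, w m * c m k₀ j₀ ≠ 0 := by
    intro hcon
    apply hlin
    rw [Finset.sum_range_succ, Finset.sum_range_succ, Finset.sum_range_succ,
      Finset.sum_range_zero] at hcon
    simp only [hw] at hcon
    norm_num at hcon
    linarith
  have hwN := Yc_ne hE ha₁ β hβ p hp0 (fun x₀ x₁ x₂ hx => indep h x₀ x₁ x₂ hx) c w k₀ j₀ hk₀ hsum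
  rcases int_chain α β z₁.1 z₁.2.1 z₁.2.2 (F α β z₁) rfl (Pol (20 * D) z₁.2.1 c w) (D / 5) with
    ⟨n, hn, Q, hQ1, hQ⟩ | ⟨Q, hQ⟩
  · exact case_two h hH hD50 z₁ z₂ hz₁ hz₂ ha₁ E hE c h0 hc hv0 hv1 w (by simp [hw]) (by simp [hw])
      (by simp [hw]) hW hW2' hW3' n (by omega) Q hQ1 hQ
  · exact case_one h hH hD50 z₁ hz₁ ha₁ E hE c h0 hc w hwN hW (D / 5) (by omega) Q hQ

end U44
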