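import Pool.Agent.LibU44.Defs

namespace U44

theorem wf1_M {f : ℕ → ℝ} {M b : ℝ} (hf : ∀ n, |f n| ≤ M * b ^ n) : 0 ≤ M := by
  have h := hf 0
  rw [pow_zero, mul_one] at h
  exact (abs_nonneg _).trans h

theorem wf1_sum (f : ℕ → ℝ) (M b : ℝ) (hb : 1 ≤ b) (hf : ∀ n, |f n| ≤ M * b ^ n) (l : ℕ) (ω : ℂ)
    (hω : ‖ω‖ * b < 1) :
    Summable (fun n : ℕ => ‖((n : ℂ) ^ l * ((f n : ℝ) : ℂ)) * ω ^ n‖) := by
  have h1 : ‖‖ω‖ * b‖ < 1 := by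
    rw [Real.norm_of_nonneg (by positivity)]
    exact hω
  have h2 : Summable (fun n : ℕ => M * ((n : ℝ) ^ l * (‖ω‖ * b) ^ n)) :=
    (summable_pow_mul_geometric_of_norm_lt_one l h1).mul_left M
  refine Summable.of_nonneg_of_le (fun n => norm_nonneg _) (fun n => ?_) h2
  rw [norm_mul, norm_mul, norm_pow, norm_pow, Complex.norm_real, Complex.norm_natCast,
    Real.norm_eq_abs]
  calc (n : ℝ) ^ l * |f n| * ‖ω‖ ^ n ≤ (n : ℝ) ^ l * (M * b ^ n) * ‖ω‖ ^ n := by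
        gcongr
        exact hf n
    _ = M * ((n : ℝ) ^ l * (‖ω‖ * b) ^ n) := by
        rw [mul_pow]
        ring

theorem wf1_deriv (f : ℕ → ℝ) (M b : ℝ) (hb : 1 ≤ b) (hf : ∀ n, |f n| ≤ M * b ^ n) (l : ℕ) (ω : ℂ)
    (hω : ω ∈ Metric.ball (0 : ℂ) (1 / b)) :
    ∃ d, HasDerivAt (Ff f l) d ω ∧ Ff f (l + 1) ω = ω * d := by
  have hM := wf1_M hf
  have hb0 : 0 < b := by linarith
  rw [mem_ball_zero_iff] at hω
  obtain ⟨r, hr1, hr2⟩ := exists_between hω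
  have hr0 : 0 < r := lt_of_le_of_lt (norm_nonneg _) hr1
  have hrb : r * b < 1 := by
    rw [lt_div_iff₀ hb0] at hr2
    exact hr2
  obtain ⟨g, hg⟩ : ∃ g : ℕ → ℂ → ℂ, g = fun (n : ℕ) (z : ℂ) => ((n : ℂ) ^ l * ((f n : ℝ) : ℂ)) * z ^ n :=
    ⟨_, rfl⟩
  obtain ⟨g', hg'⟩ : ∃ g' : ℕ → ℂ → ℂ,
      g' = fun (n : ℕ) (z : ℂ) => ((n : ℂ) ^ l * ((f n : ℝ) : ℂ)) * ((n : ℂ) * z ^ (n - 1)) := ⟨_, rfl⟩
  have hu : Summable (fun n : ℕ => M / r * ((n : ℝ) ^ (l + 1) * (r * b) ^ n)) := by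
    refine Summable.mul_left _ (summable_pow_mul_geometric_of_norm_lt_one (l + 1) ?_)
    rw [Real.norm_of_nonneg (by positivity)]
    exact hrb
  have hd : ∀ n z, z ∈ Metric.ball (0 : ℂ) r → HasDerivAt (g n) (g' n z) z := by
    intro n z _
    rw [hg, hg']
    exact (hasDerivAt_pow n z).const_mul _
  have hbound : ∀ n z, z ∈ Metric.ball (0 : ℂ) r →
      ‖g' n z‖ ≤ M / r * ((n : ℝ) ^ (l + 1) * (r * b) ^ n) := by
    intro n z hz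
    rw [mem_ball_zero_iff] at hz
    rw [hg']
    rcases Nat.eq_zero_or_pos n with h0 | h0
    · rw [h0]
      simp
    · rw [norm_mul, norm_mul, norm_mul, norm_pow, norm_pow, Complex.norm_real,
        Complex.norm_natCast, Real.norm_eq_abs]
      have e1 : r ^ n = r * r ^ (n - 1) := by
        rw [← pow_succ', Nat.sub_add_cancel h0]
      calc (n : ℝ) ^ l * |f n| * ((n : ℝ) * ‖z‖ ^ (n - 1)) ≤
          (n : ℝ) ^ l * (M * b ^ n) * ((n : ℝ) * r ^ (n - 1)) := by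
            gcongr
            exact hf n
        _ = M / r * ((n : ℝ) ^ (l + 1) * (r * b) ^ n) := by
            rw [mul_pow, e1]
            field_simp
            ring
  have hs0 : Summable (fun n => g n ω) := by
    rw [hg]
    refine (wf1_sum f M b hb hf l ω ?_).of_norm
    have := mul_lt_mul_of_pos_right hr1 hb0
    linarith
  have hω' : ω ∈ Metric.ball (0 : ℂ) r := mem_ball_zero_iff.2 hr1
  have hkey := hasDerivAt_tsum_of_isPreconnected hu Metric.isOpen_ball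
    (convex_ball (0 : ℂ) r).isPreconnected hd hbound hω' hs0 hω'
  refine ⟨∑' n, g' n ω, ?_, ?_⟩
  · have h1 : Ff f l = fun z => ∑' n, g n z := by
      funext z
      rw [hg]
      rfl
    rw [h1]
    exact hkey
  · rw [← tsum_mul_left]
    unfold Ff
    congr 1
    funext n
    rw [hg']
    rcases Nat.eq_zero_or_pos n with h0 | h0
    · rw [h0]
      simp
    · have e1 : ω ^ n = ω * ω ^ (n - 1) := by
        rw [← pow_succ', Nat.sub_add_cancel h0]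
      rw [e1, pow_succ]
      ring

/-- Row WF1. Euler derivative of a power series with `|f n| ≤ M b^n` on `‖ω‖ < 1/b`. -/
theorem Ff_diff (f : ℕ → ℝ) (M b : ℝ) (hb : 1 ≤ b) (hf : ∀ n, |f n| ≤ M * b ^ n) (l : ℕ) :
    (∀ ω : ℂ, ‖ω‖ * b < 1 → Summable (fun n : ℕ => ‖((n : ℂ) ^ l * ((f n : ℝ) : ℂ)) * ω ^ n‖)) ∧
    DifferentiableOn ℂ (Ff f l) (Metric.ball 0 (1 / b)) ∧
    ∀ ω ∈ Metric.ball (0 : ℂ) (1 / b), Ff f (l + 1) ω = ω * deriv (Ff f l) ω := by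
  refine ⟨fun ω hω => wf1_sum f M b hb hf l ω hω, fun ω hω => ?_, fun ω hω => ?_⟩
  · obtain ⟨d, hd, -⟩ := wf1_deriv f M b hb hf l ω hω
    exact hd.differentiableAt.differentiableWithinAt
  · obtain ⟨d, hd, hd'⟩ := wf1_deriv f M b hb hf l ω hω
    rw [hd.deriv, hd']

theorem wf1_prod (a b : ℕ → ℂ) (ha : Summable fun n => ‖a n‖) (hb : Summable fun n => ‖b n‖) :
    HasSum (fun m => ∑ x ∈ Finset.HasAntidiagonal.antidiagonal m, a x.1 * b x.2)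
      ((∑' n, a n) * ∑' n, b n) ∧
    Summable (fun m => ‖∑ x ∈ Finset.HasAntidiagonal.antidiagonal m, a x.1 * b x.2‖) := by
  have h1 := summable_norm_sum_mul_antidiagonal_of_summable_norm ha hb
  have h2 := tsum_mul_tsum_eq_tsum_sum_antidiagonal_of_summable_norm ha hb
  refine ⟨?_, h1⟩
  rw [h2]
  exact h1.of_norm.hasSum

theorem wf1_three (f : Fin 3 → ℕ → ℝ) (M b : ℝ) (hb : 1 ≤ b) (hf : ∀ i n, |f i n| ≤ M * b ^ n)
    (ω : ℂ) (hω : ‖ω‖ * b < 1) (l0 l1 l2 : ℕ) :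
    HasSum (fun m : ℕ => ∑ x ∈ Finset.HasAntidiagonal.antidiagonal m,
      ∑ y ∈ Finset.HasAntidiagonal.antidiagonal x.2,
        (((x.1 : ℂ) ^ l0 * (y.1 : ℂ) ^ l1 * (y.2 : ℂ) ^ l2) *
          (((f 0 x.1 : ℝ) : ℂ) * ((f 1 y.1 : ℝ) : ℂ) * ((f 2 y.2 : ℝ) : ℂ))) * ω ^ m)
      (Ff (f 0) l0 ω * (Ff (f 1) l1 ω * Ff (f 2) l2 ω)) := by
  obtain ⟨p1, p2⟩ := wf1_prod _ _ (wf1_sum (f 1) M b hb (hf 1) l1 ω hω)
    (wf1_sum (f 2) M b hb (hf 2) l2 ω hω)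
  obtain ⟨q1, -⟩ := wf1_prod _ _ (wf1_sum (f 0) M b hb (hf 0) l0 ω hω) p2
  rw [p1.tsum_eq] at q1
  refine q1.congr_fun ?_
  intro m
  refine Finset.sum_congr rfl fun x hx => ?_
  rw [Finset.mul_sum]
  refine Finset.sum_congr rfl fun y hy => ?_
  have e1 : x.1 + x.2 = m := Finset.HasAntidiagonal.mem_antidiagonal.1 hx
  have e2 : y.1 + y.2 = x.2 := Finset.HasAntidiagonal.mem_antidiagonal.1 hy
  rw [← e1, ← e2, pow_add, pow_add]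
  ring

/-- Row WF2. Cauchy products; `det (n_i^l) = (n₁-n₀)(n₂-n₀)(n₂-n₁)` (`Matrix.det_fin_three`). -/
theorem wf_hasSum (f : Fin 3 → ℕ → ℝ) (M b : ℝ) (hb : 1 ≤ b) (hf : ∀ i n, |f i n| ≤ M * b ^ n) (ω : ℂ)
    (hω : ‖ω‖ * b < 1) : HasSum (fun m : ℕ => ((Wc f m : ℝ) : ℂ) * ω ^ m) (Wf f ω) := by
  have t := wf1_three f M b hb hf ω hω
  have hW : Wf f ω = Ff (f 0) 0 ω * (Ff (f 1) 1 ω * Ff (f 2) 2 ω) -
      Ff (f 0) 0 ω * (Ff (f 1) 2 ω * Ff (f 2) 1 ω) -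
      Ff (f 0) 1 ω * (Ff (f 1) 0 ω * Ff (f 2) 2 ω) +
      Ff (f 0) 2 ω * (Ff (f 1) 0 ω * Ff (f 2) 1 ω) +
      Ff (f 0) 1 ω * (Ff (f 1) 2 ω * Ff (f 2) 0 ω) -
      Ff (f 0) 2 ω * (Ff (f 1) 1 ω * Ff (f 2) 0 ω) := by
    unfold Wf
    rw [Matrix.det_fin_three]
    change Ff (f 0) 0 ω * Ff (f 1) 1 ω * Ff (f 2) 2 ω - Ff (f 0) 0 ω * Ff (f 2) 1 ω * Ff (f 1) 2 ω -
      Ff (f 1) 0 ω * Ff (f 0) 1 ω * Ff (f 2) 2 ω + Ff (f 1) 0 ω * Ff (f 2) 1 ω * Ff (f 0) 2 ω +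
      Ff (f 2) 0 ω * Ff (f 0) 1 ω * Ff (f 1) 2 ω - Ff (f 2) 0 ω * Ff (f 1) 1 ω * Ff (f 0) 2 ω = _
    ring
  rw [hW]
  have hs := (((((t 0 1 2).sub (t 0 2 1)).sub (t 1 0 2)).add (t 2 0 1)).add (t 1 2 0)).sub (t 2 1 0)
  refine hs.congr_fun ?_
  intro m
  simp only [← Finset.sum_add_distrib, ← Finset.sum_sub_distrib]
  unfold Wc
  rw [Complex.ofReal_sum, Finset.sum_mul]
  refine Finset.sum_congr rfl fun x _ => ?_
  rw [Complex.ofReal_sum, Finset.sum_mul]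
  refine Finset.sum_congr rfl fun y _ => ?_
  push_cast
  ring

end U44
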