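import Pool.Agent.LibU44.WF1

namespace U44

private lemma wf3_step (R : ℝ) (ω₁ : ℂ) (N : ℕ) (hN : 1 ≤ N) (h k : ℂ → ℂ)
    (hk : DifferentiableOn ℂ k (Metric.ball 0 R))
    (hh : ∀ ω ∈ Metric.ball (0 : ℂ) R, h ω = (ω - ω₁) ^ N * k ω) :
    ∃ k₁ : ℂ → ℂ, DifferentiableOn ℂ k₁ (Metric.ball 0 R) ∧
      ∀ ω ∈ Metric.ball (0 : ℂ) R, ω * deriv h ω = (ω - ω₁) ^ (N - 1) * k₁ ω := by
  refine ⟨fun ω => (N : ℂ) * ω * k ω + (ω - ω₁) * ω * deriv k ω, ?_, ?_⟩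
  · have hdk : DifferentiableOn ℂ (deriv k) (Metric.ball 0 R) := hk.deriv Metric.isOpen_ball
    have h1 : DifferentiableOn ℂ (fun ω : ℂ => (N : ℂ) * ω) (Metric.ball 0 R) := by fun_prop
    have h2 : DifferentiableOn ℂ (fun ω : ℂ => (ω - ω₁) * ω) (Metric.ball 0 R) := by fun_prop
    exact (h1.mul hk).add (h2.mul hdk)
  · intro ω hω
    have e : h =ᶠ[nhds ω] fun z => (z - ω₁) ^ N * k z := by
      filter_upwards [Metric.isOpen_ball.mem_nhds hω] with z hz using hh z hz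
    rw [e.deriv_eq]
    have hkd : HasDerivAt k (deriv k ω) ω :=
      ((hk ω hω).differentiableAt (Metric.isOpen_ball.mem_nhds hω)).hasDerivAt
    have hp : HasDerivAt (fun z : ℂ => (z - ω₁) ^ N) ((N : ℂ) * (ω - ω₁) ^ (N - 1) * 1) ω :=
      ((hasDerivAt_id ω).sub_const ω₁).pow N
    have hd := hp.mul hkd
    have hd' : deriv (fun z => (z - ω₁) ^ N * k z) ω =
        (N : ℂ) * (ω - ω₁) ^ (N - 1) * 1 * k ω + (ω - ω₁) ^ N * deriv k ω := hd.deriv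
    rw [hd']
    obtain ⟨n, rfl⟩ : ∃ n, N = n + 1 := ⟨N - 1, by omega⟩
    simp only [Nat.add_sub_cancel]
    ring

/-- Row WF3. Let `g i₀ ≠ 0`. `g i₀ · Wf f` is the determinant with the column `i₀` replaced by `(h, θh, θ²h)`, `θ = ω d/dω`,
`h = ∑ g_i Ff (f i) 0 = (ω-ω₁)^N k`: `θh = (ω-ω₁)^(N-1) k₁`, `θ²h = (ω-ω₁)^(N-2) k₂` with differentiable `k₁ = Nωk + (ω-ω₁)ωk'`, and the
same again; so take out `(ω-ω₁)^(N-2)`. -/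
theorem wf_div (f : Fin 3 → ℕ → ℝ) (M b : ℝ) (hb : 1 ≤ b) (hf : ∀ i n, |f i n| ≤ M * b ^ n) (R : ℝ) (hR : 0 < R)
    (hRb : R * b ≤ 1) (ω₁ : ℂ) (g : Fin 3 → ℝ) (hg : g ≠ 0) (N : ℕ) (hN : 2 ≤ N) (k : ℂ → ℂ)
    (hk : DifferentiableOn ℂ k (Metric.ball 0 R))
    (hh : ∀ ω ∈ Metric.ball (0 : ℂ) R, ∑ i, (g i : ℂ) * Ff (f i) 0 ω = (ω - ω₁) ^ N * k ω) :
    ∃ K : ℂ → ℂ, DifferentiableOn ℂ K (Metric.ball 0 R) ∧
      ∀ ω ∈ Metric.ball (0 : ℂ) R, Wf f ω = (ω - ω₁) ^ (N - 2) * K ω := by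
  have hb0 : 0 < b := by linarith
  have hRb' : R ≤ 1 / b := by rw [le_div_iff₀ hb0]; exact hRb
  have hsub : Metric.ball (0 : ℂ) R ⊆ Metric.ball 0 (1 / b) := Metric.ball_subset_ball hRb'
  have hD : ∀ i l, DifferentiableOn ℂ (Ff (f i) l) (Metric.ball 0 R) := fun i l =>
    ((Ff_diff (f i) M b hb (hf i) l).2.1).mono hsub
  have hE : ∀ i l, ∀ ω ∈ Metric.ball (0 : ℂ) R, Ff (f i) (l + 1) ω = ω * deriv (Ff (f i) l) ω :=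
    fun i l ω hω => (Ff_diff (f i) M b hb (hf i) l).2.2 ω (hsub hω)
  have hs : ∀ l, ∀ ω ∈ Metric.ball (0 : ℂ) R, ∑ i, (g i : ℂ) * Ff (f i) (l + 1) ω =
      ω * deriv (fun z => ∑ i, (g i : ℂ) * Ff (f i) l z) ω := by
    intro l ω hω
    have hda : ∀ i, HasDerivAt (Ff (f i) l) (deriv (Ff (f i) l) ω) ω := fun i =>
      ((hD i l ω hω).differentiableAt (Metric.isOpen_ball.mem_nhds hω)).hasDerivAt
    have hsum : HasDerivAt (fun z => ∑ i, (g i : ℂ) * Ff (f i) l z)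
        (∑ i, (g i : ℂ) * deriv (Ff (f i) l) ω) ω := by
      simp only [Fin.sum_univ_three]
      exact (((hda 0).const_mul _).add ((hda 1).const_mul _)).add ((hda 2).const_mul _)
    rw [hsum.deriv, Finset.mul_sum]
    refine Finset.sum_congr rfl fun i _ => ?_
    rw [hE i l ω hω]; ring
  obtain ⟨k₁, hk₁, hh₁⟩ := wf3_step R ω₁ N (by omega) _ k hk hh
  have hh1 : ∀ ω ∈ Metric.ball (0 : ℂ) R, ∑ i, (g i : ℂ) * Ff (f i) 1 ω =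
      (ω - ω₁) ^ (N - 1) * k₁ ω := fun ω hω => by rw [hs 0 ω hω]; exact hh₁ ω hω
  obtain ⟨k₂, hk₂, hh₂⟩ := wf3_step R ω₁ (N - 1) (by omega) _ k₁ hk₁ hh1
  have hh2 : ∀ ω ∈ Metric.ball (0 : ℂ) R, ∑ i, (g i : ℂ) * Ff (f i) 2 ω =
      (ω - ω₁) ^ (N - 2) * k₂ ω := fun ω hω => by
    rw [hs 1 ω hω, hh₂ ω hω]; rfl
  obtain ⟨n, rfl⟩ : ∃ n, N = n + 2 := ⟨N - 2, by omega⟩
  simp only [Nat.add_sub_cancel] at hh2 ⊢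
  have hh1' : ∀ ω ∈ Metric.ball (0 : ℂ) R, ∑ i, (g i : ℂ) * Ff (f i) 1 ω =
      (ω - ω₁) ^ (n + 1) * k₁ ω := hh1
  have hsd : DifferentiableOn ℂ (fun ω : ℂ => ω - ω₁) (Metric.ball 0 R) := by fun_prop
  have d0 : DifferentiableOn ℂ (fun ω : ℂ => (ω - ω₁) ^ 2 * k ω) (Metric.ball 0 R) :=
    (hsd.pow 2).mul hk
  have d1 : DifferentiableOn ℂ (fun ω : ℂ => (ω - ω₁) * k₁ ω) (Metric.ball 0 R) :=
    hsd.mul hk₁
  obtain ⟨i₀, hi₀⟩ : ∃ i, g i ≠ 0 := by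
    by_contra hcon
    push Not at hcon
    exact hg (funext hcon)
  have hi₀' : (g i₀ : ℂ) ≠ 0 := by exact_mod_cast hi₀
  -- the determinant with three columns
  have hdet : ∀ (c₁ c₂ c₃ : Fin 3 → ℂ → ℂ), (∀ l, DifferentiableOn ℂ (c₁ l) (Metric.ball 0 R)) →
      (∀ l, DifferentiableOn ℂ (c₂ l) (Metric.ball 0 R)) →
      (∀ l, DifferentiableOn ℂ (c₃ l) (Metric.ball 0 R)) →
      DifferentiableOn ℂ (fun ω => c₁ 0 ω * (c₂ 1 ω * c₃ 2 ω - c₃ 1 ω * c₂ 2 ω)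
        - c₂ 0 ω * (c₁ 1 ω * c₃ 2 ω - c₃ 1 ω * c₁ 2 ω)
        + c₃ 0 ω * (c₁ 1 ω * c₂ 2 ω - c₂ 1 ω * c₁ 2 ω)) (Metric.ball 0 R) := by
    intro c₁ c₂ c₃ h₁ h₂ h₃
    exact (((h₁ 0).mul (((h₂ 1).mul (h₃ 2)).sub ((h₃ 1).mul (h₂ 2)))).sub
      ((h₂ 0).mul (((h₁ 1).mul (h₃ 2)).sub ((h₃ 1).mul (h₁ 2))))).add
      ((h₃ 0).mul (((h₁ 1).mul (h₂ 2)).sub ((h₂ 1).mul (h₁ 2))))
  set c : Fin 3 → ℂ → ℂ := ![fun ω => (ω - ω₁) ^ 2 * k ω, fun ω => (ω - ω₁) * k₁ ω, k₂] with hc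
  have hcd : ∀ l, DifferentiableOn ℂ (c l) (Metric.ball 0 R) := by
    intro l
    fin_cases l
    · exact d0
    · exact d1
    · exact hk₂
  have hFd : ∀ i : Fin 3, ∀ l : Fin 3, DifferentiableOn ℂ (Ff (f i) (l : ℕ)) (Metric.ball 0 R) :=
    fun i l => hD i l
  have c0 : ∀ ω, c 0 ω = (ω - ω₁) ^ 2 * k ω := fun ω => rfl
  have c1 : ∀ ω, c 1 ω = (ω - ω₁) * k₁ ω := fun ω => rfl
  have c2 : ∀ ω, c 2 ω = k₂ ω := fun ω => rfl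
  have v0 : ((0 : Fin 3) : ℕ) = 0 := rfl
  have v1 : ((1 : Fin 3) : ℕ) = 1 := rfl
  have v2 : ((2 : Fin 3) : ℕ) = 2 := rfl
  have e0 : ∀ ω ∈ Metric.ball (0 : ℂ) R, (g 0 : ℂ) * Ff (f 0) 0 ω + (g 1 : ℂ) * Ff (f 1) 0 ω
      + (g 2 : ℂ) * Ff (f 2) 0 ω = (ω - ω₁) ^ n * c 0 ω := by
    intro ω hω
    have := hh ω hω
    rw [Fin.sum_univ_three] at this
    rw [this, c0]; ring
  have e1 : ∀ ω ∈ Metric.ball (0 : ℂ) R, (g 0 : ℂ) * Ff (f 0) 1 ω + (g 1 : ℂ) * Ff (f 1) 1 ω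
      + (g 2 : ℂ) * Ff (f 2) 1 ω = (ω - ω₁) ^ n * c 1 ω := by
    intro ω hω
    have := hh1' ω hω
    rw [Fin.sum_univ_three] at this
    rw [this, c1]; ring
  have e2 : ∀ ω ∈ Metric.ball (0 : ℂ) R, (g 0 : ℂ) * Ff (f 0) 2 ω + (g 1 : ℂ) * Ff (f 1) 2 ω
      + (g 2 : ℂ) * Ff (f 2) 2 ω = (ω - ω₁) ^ n * c 2 ω := by
    intro ω hω
    have := hh2 ω hω
    rw [Fin.sum_univ_three] at this
    rw [this, c2]
  clear_value c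
  have key : ∃ K' : ℂ → ℂ, DifferentiableOn ℂ K' (Metric.ball 0 R) ∧
      ∀ ω ∈ Metric.ball (0 : ℂ) R, (g i₀ : ℂ) * Wf f ω = (ω - ω₁) ^ n * K' ω := by
    have hW : ∀ ω, Wf f ω = Ff (f 0) 0 ω * (Ff (f 1) 1 ω * Ff (f 2) 2 ω - Ff (f 2) 1 ω * Ff (f 1) 2 ω)
        - Ff (f 1) 0 ω * (Ff (f 0) 1 ω * Ff (f 2) 2 ω - Ff (f 2) 1 ω * Ff (f 0) 2 ω)
        + Ff (f 2) 0 ω * (Ff (f 0) 1 ω * Ff (f 1) 2 ω - Ff (f 1) 1 ω * Ff (f 0) 2 ω) := by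
      intro ω
      unfold Wf
      rw [Matrix.det_fin_three]
      simp only [Matrix.of_apply, v0, v1, v2]
      ring
    fin_cases i₀
    · refine ⟨_, hdet c (fun l => Ff (f 1) l) (fun l => Ff (f 2) l) hcd (hFd 1) (hFd 2), ?_⟩
      intro ω hω
      simp only [v0, v1, v2]
      change (g 0 : ℂ) * Wf f ω = _
      rw [hW]
      linear_combination (Ff (f 1) 1 ω * Ff (f 2) 2 ω - Ff (f 2) 1 ω * Ff (f 1) 2 ω) * e0 ω hω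
        - (Ff (f 1) 0 ω * Ff (f 2) 2 ω - Ff (f 2) 0 ω * Ff (f 1) 2 ω) * e1 ω hω
        + (Ff (f 1) 0 ω * Ff (f 2) 1 ω - Ff (f 2) 0 ω * Ff (f 1) 1 ω) * e2 ω hω
    · refine ⟨_, hdet (fun l => Ff (f 0) l) c (fun l => Ff (f 2) l) (hFd 0) hcd (hFd 2), ?_⟩
      intro ω hω
      simp only [v0, v1, v2]
      change (g 1 : ℂ) * Wf f ω = _
      rw [hW]
      linear_combination -(Ff (f 0) 1 ω * Ff (f 2) 2 ω - Ff (f 2) 1 ω * Ff (f 0) 2 ω) * e0 ω hω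
        + (Ff (f 0) 0 ω * Ff (f 2) 2 ω - Ff (f 2) 0 ω * Ff (f 0) 2 ω) * e1 ω hω
        - (Ff (f 0) 0 ω * Ff (f 2) 1 ω - Ff (f 2) 0 ω * Ff (f 0) 1 ω) * e2 ω hω
    · refine ⟨_, hdet (fun l => Ff (f 0) l) (fun l => Ff (f 1) l) c (hFd 0) (hFd 1) hcd, ?_⟩
      intro ω hω
      simp only [v0, v1, v2]
      change (g 2 : ℂ) * Wf f ω = _
      rw [hW]
      linear_combination (Ff (f 0) 1 ω * Ff (f 1) 2 ω - Ff (f 1) 1 ω * Ff (f 0) 2 ω) * e0 ω hω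
        - (Ff (f 0) 0 ω * Ff (f 1) 2 ω - Ff (f 1) 0 ω * Ff (f 0) 2 ω) * e1 ω hω
        + (Ff (f 0) 0 ω * Ff (f 1) 1 ω - Ff (f 1) 0 ω * Ff (f 0) 1 ω) * e2 ω hω
  obtain ⟨K', hK', hK⟩ := key
  refine ⟨fun ω => (g i₀ : ℂ)⁻¹ * K' ω, hK'.const_mul _, ?_⟩
  intro ω hω
  have := hK ω hω
  field_simp
  linear_combination this

end U44
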