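import Pool.Agent.LibU44.Defs

namespace U44

/-- the Wronskian as a determinant of power series -/
theorem wr1_coeff (f : Fin 3 → ℕ → ℝ) (m : ℕ) :
    Wc f m = PowerSeries.coeff m (Matrix.det (Matrix.of fun l a : Fin 3 =>
      (PowerSeries.mk fun n : ℕ => (n : ℝ) ^ (l : ℕ) * f a n : PowerSeries ℝ))) := by
  obtain ⟨X, hX⟩ : ∃ X : Fin 3 → ℕ → PowerSeries ℝ,
      X = fun a l => PowerSeries.mk fun n : ℕ => (n : ℝ) ^ l * f a n := ⟨_, rfl⟩
  have hc : ∀ l0 l1 l2 : ℕ, PowerSeries.coeff m (X 0 l0 * (X 1 l1 * X 2 l2)) =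
      ∑ x ∈ Finset.HasAntidiagonal.antidiagonal m, ∑ y ∈ Finset.HasAntidiagonal.antidiagonal x.2,
        ((x.1 : ℝ) ^ l0 * f 0 x.1) * (((y.1 : ℝ) ^ l1 * f 1 y.1) * ((y.2 : ℝ) ^ l2 * f 2 y.2)) := by
    intro l0 l1 l2
    rw [PowerSeries.coeff_mul]
    refine Finset.sum_congr rfl fun x _ => ?_
    rw [PowerSeries.coeff_mul, Finset.mul_sum]
    refine Finset.sum_congr rfl fun y _ => ?_
    simp only [hX, PowerSeries.coeff_mk]
  have hdet : Matrix.det (Matrix.of fun l a : Fin 3 =>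
      (PowerSeries.mk fun n : ℕ => (n : ℝ) ^ (l : ℕ) * f a n : PowerSeries ℝ)) =
      X 0 0 * (X 1 1 * X 2 2) - X 0 0 * (X 1 2 * X 2 1) - X 0 1 * (X 1 0 * X 2 2) +
        X 0 2 * (X 1 0 * X 2 1) + X 0 1 * (X 1 2 * X 2 0) - X 0 2 * (X 1 1 * X 2 0) := by
    have h0 : (Matrix.of fun l a : Fin 3 =>
      (PowerSeries.mk fun n : ℕ => (n : ℝ) ^ (l : ℕ) * f a n : PowerSeries ℝ)) =
      Matrix.of fun l a : Fin 3 => X a (l : ℕ) := by rw [hX]
    rw [h0, Matrix.det_fin_three]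
    change X 0 0 * X 1 1 * X 2 2 - X 0 0 * X 2 1 * X 1 2 - X 1 0 * X 0 1 * X 2 2 +
      X 1 0 * X 2 1 * X 0 2 + X 2 0 * X 0 1 * X 1 2 - X 2 0 * X 1 1 * X 0 2 = _
    ring
  rw [hdet, map_sub, map_add, map_add, map_sub, map_sub, hc, hc, hc, hc, hc, hc]
  simp only [← Finset.sum_add_distrib, ← Finset.sum_sub_distrib]
  unfold Wc
  refine Finset.sum_congr rfl fun x _ => Finset.sum_congr rfl fun y _ => ?_
  ring

theorem wr1_lin (f : Fin 3 → ℕ → ℝ) (g : Fin 3 → Fin 3 → ℝ) (m : ℕ) :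
    Wc (fun a n => ∑ j, g a j * f j n) m =
      Wc f m * Matrix.det (Matrix.of fun j a : Fin 3 => g a j) := by
  rw [wr1_coeff, wr1_coeff]
  have h1 : (Matrix.of fun l a : Fin 3 =>
      (PowerSeries.mk fun n : ℕ => (n : ℝ) ^ (l : ℕ) * ∑ j, g a j * f j n : PowerSeries ℝ)) =
      (Matrix.of fun l a : Fin 3 =>
        (PowerSeries.mk fun n : ℕ => (n : ℝ) ^ (l : ℕ) * f a n : PowerSeries ℝ)) *
      (PowerSeries.C (R := ℝ)).mapMatrix (Matrix.of fun j a : Fin 3 => g a j) := by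
    ext l a n
    rw [Matrix.mul_apply, map_sum]
    simp only [Matrix.of_apply, RingHom.mapMatrix_apply, Matrix.map_apply,
      PowerSeries.coeff_mul_C, PowerSeries.coeff_mk, Finset.mul_sum]
    refine Finset.sum_congr rfl fun j _ => ?_
    ring
  rw [h1, Matrix.det_mul, ← RingHom.map_det, PowerSeries.coeff_mul_C]

theorem wr1_single (f : Fin 3 → ℕ → ℝ) (r0 r1 r2 : ℕ) (h0 : ∀ n < r0, f 0 n = 0)
    (h1 : ∀ n < r1, f 1 n = 0) (h2 : ∀ n < r2, f 2 n = 0) :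
    Wc f (r0 + (r1 + r2)) = f 0 r0 * f 1 r1 * f 2 r2 *
      (((r1 : ℝ) - r0) * ((r2 : ℝ) - r0) * ((r2 : ℝ) - r1)) := by
  unfold Wc
  rw [Finset.sum_eq_single (r0, r1 + r2)]
  · rw [Finset.sum_eq_single (r1, r2)]
    · rintro ⟨y1, y2⟩ hy hne
      rw [Finset.HasAntidiagonal.mem_antidiagonal] at hy
      have hy' : y1 + y2 = r1 + r2 := hy
      rcases lt_trichotomy y1 r1 with h | h | h
      · rw [h1 _ h]; ring
      · exfalso
        apply hne
        rw [h]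
        congr 1
        omega
      · rw [h2 y2 (by omega)]; ring
    · intro h
      exact (h (Finset.HasAntidiagonal.mem_antidiagonal.2 rfl)).elim
  · rintro ⟨x1, x2⟩ hx hne
    rw [Finset.HasAntidiagonal.mem_antidiagonal] at hx
    have hx' : x1 + x2 = r0 + (r1 + r2) := hx
    refine Finset.sum_eq_zero ?_
    rintro ⟨y1, y2⟩ hy
    rw [Finset.HasAntidiagonal.mem_antidiagonal] at hy
    have hy' : y1 + y2 = x2 := hy
    rcases lt_trichotomy x1 r0 with h | h | h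
    · rw [h0 _ h]; ring
    · exfalso
      apply hne
      rw [h]
      congr 1
      omega
    · by_cases h' : y1 < r1
      · rw [h1 _ h']; ring
      · rw [h2 y2 (by omega)]; ring
  · intro h
    exact (h (Finset.HasAntidiagonal.mem_antidiagonal.2 rfl)).elim

theorem wr1_step (f : Fin 3 → ℕ → ℝ) (L : ℕ)
    (h : ∀ g : Fin 3 → ℝ, g ≠ 0 → ∃ N ≤ L, ∑ i, g i * f i N ≠ 0) (P : (Fin 3 → ℝ) → Prop)
    (hP : ∃ g, g ≠ 0 ∧ P g) :
    ∃ r ≤ L, ∃ g, P g ∧ ∑ i, g i * f i r ≠ 0 ∧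
      ∀ N < r, ∀ g', P g' → ∑ i, g' i * f i N = 0 := by
  classical
  obtain ⟨g, hg0, hg⟩ := hP
  obtain ⟨N, hN, hN'⟩ := h g hg0
  have hex : ∃ r, ∃ g, P g ∧ ∑ i, g i * f i r ≠ 0 := ⟨N, g, hg, hN'⟩
  refine ⟨Nat.find hex, (Nat.find_min' hex ⟨g, hg, hN'⟩).trans hN, ?_⟩
  obtain ⟨g1, hg1, hg1'⟩ := Nat.find_spec hex
  refine ⟨g1, hg1, hg1', fun N' hN' g' hg' => ?_⟩
  by_contra hcon
  exact Nat.find_min hex hN' ⟨g', hg', hcon⟩

/-- two linear equations in three unknowns -/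
theorem wr1_two (u v : Fin 3 → ℝ) : ∃ g : Fin 3 → ℝ, g ≠ 0 ∧ ∑ i, g i * u i = 0 ∧
    ∑ i, g i * v i = 0 := by
  have hdet : Matrix.det (Matrix.of ![u, v, v]) = 0 :=
    Matrix.det_zero_of_row_eq (i := 1) (j := 2) (by decide) rfl
  obtain ⟨g, hg, hg'⟩ := Matrix.exists_mulVec_eq_zero_iff.2 hdet
  refine ⟨g, hg, ?_, ?_⟩
  · have h1 := congrFun hg' 0
    simp only [Matrix.mulVec, dotProduct] at h1
    exact (Finset.sum_congr rfl fun i _ => mul_comm (g i) (u i)).trans h1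
  · have h1 := congrFun hg' 1
    simp only [Matrix.mulVec, dotProduct] at h1
    exact (Finset.sum_congr rfl fun i _ => mul_comm (g i) (v i)).trans h1

/-- Row WR1. `Wc f` is trilinear and alternating in `f 0, f 1, f 2`, so it does not change when a multiple of one `f i` is added to
another one and changes sign under transpositions. Gauss elimination: let `r₀` be the least order of the three sequences (they are
`≠ 0`, orders `≤ L`), move it to place 0 and make the `r₀`-th coefficients of the others `0`; let `r₁` be the least order of the other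
two, move it to place 1, clear the third, of order `r₂ > r₁ > r₀`, `r₂ ≤ L` (every nonzero combination has order `≤ L`). Then the
coefficient number `r₀ + r₁ + r₂` of the new `Wc` is `f₀(r₀)f₁(r₁)f₂(r₂)(r₁-r₀)(r₂-r₀)(r₂-r₁) ≠ 0` (all other terms contain an index
below the order). -/
theorem wr_order (f : Fin 3 → ℕ → ℝ) (L : ℕ)
    (h : ∀ g : Fin 3 → ℝ, g ≠ 0 → ∃ N ≤ L, ∑ i, g i * f i N ≠ 0) : ∃ m ≤ 3 * L, Wc f m ≠ 0 := by
  obtain ⟨r0, hr0, g0, -, hg0, hm0⟩ := wr1_step f L h (fun _ => True)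
    ⟨fun _ => 1, fun h => one_ne_zero (congrFun h 0), trivial⟩
  obtain ⟨r1, hr1, g1, hP1, hg1, hm1⟩ := wr1_step f L h
    (fun g => ∑ i, g i * f i r0 = 0) (by
      obtain ⟨g, hg, h1, -⟩ := wr1_two (fun i => f i r0) (fun i => f i r0)
      exact ⟨g, hg, h1⟩)
  obtain ⟨r2, hr2, g2, hP2, hg2, hm2⟩ := wr1_step f L h
    (fun g => ∑ i, g i * f i r0 = 0 ∧ ∑ i, g i * f i r1 = 0)
    (wr1_two (fun i => f i r0) (fun i => f i r1))
  have h01 : r0 < r1 := by
    by_contra hcon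
    rcases lt_or_eq_of_le (not_lt.1 hcon) with hlt | heq
    · exact hg1 (hm0 _ hlt g1 trivial)
    · exact hg1 (by rw [heq]; exact hP1)
  have h12 : r1 < r2 := by
    by_contra hcon
    rcases lt_or_eq_of_le (not_lt.1 hcon) with hlt | heq
    · exact hg2 (hm1 _ hlt g2 hP2.1)
    · exact hg2 (by rw [heq]; exact hP2.2)
  refine ⟨r0 + (r1 + r2), by omega, fun hW => ?_⟩
  have hlin := wr1_lin f ![g0, g1, g2] (r0 + (r1 + r2))
  rw [hW, zero_mul, wr1_single _ r0 r1 r2 (fun n hn => hm0 n hn g0 trivial)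
    (fun n hn => hm1 n hn g1 hP1) (fun n hn => hm2 n hn g2 hP2)] at hlin
  have e1 : ((r1 : ℝ) - r0) ≠ 0 := by
    rw [sub_ne_zero]
    exact_mod_cast h01.ne'
  have e2 : ((r2 : ℝ) - r0) ≠ 0 := by
    rw [sub_ne_zero]
    exact_mod_cast (h01.trans h12).ne'
  have e3 : ((r2 : ℝ) - r1) ≠ 0 := by
    rw [sub_ne_zero]
    exact_mod_cast h12.ne'
  exact mul_ne_zero (mul_ne_zero (mul_ne_zero hg0 hg1) hg2) (mul_ne_zero (mul_ne_zero e1 e2) e3)
    hlin

end U44
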