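import Pool.Agent.LibU44.Z1

namespace U44
open T44

theorem wr2_mono {p M N x : ℝ} (hx : Z3 p M x) (h : M ≤ N) : Z3 p N x := by
  have h1 := Z3_int (N := N) 1 hx (by simpa using h)
  simpa using h1

/-- Bound of the Vandermonde factor. -/
theorem wr2_vdm (m a b c : ℕ) (h : a + (b + c) = m) :
    |((b : ℝ) - a) * ((c : ℝ) - a) * ((c : ℝ) - b)| ≤ (m : ℝ) ^ 3 := by
  have hm : (a : ℝ) + (b + c) = m := by exact_mod_cast h
  have ha : (0 : ℝ) ≤ a := Nat.cast_nonneg a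
  have hb : (0 : ℝ) ≤ b := Nat.cast_nonneg b
  have hc : (0 : ℝ) ≤ c := Nat.cast_nonneg c
  have h1 : |(b : ℝ) - a| ≤ m := by
    rw [abs_le]
    constructor <;> linarith
  have h2 : |(c : ℝ) - a| ≤ m := by
    rw [abs_le]
    constructor <;> linarith
  have h3 : |(c : ℝ) - b| ≤ m := by
    rw [abs_le]
    constructor <;> linarith
  have hm0 : (0 : ℝ) ≤ m := Nat.cast_nonneg m
  rw [abs_mul, abs_mul]
  calc |(b : ℝ) - a| * |(c : ℝ) - a| * |(c : ℝ) - b| ≤ m * m * m :=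
        mul_le_mul (mul_le_mul h1 h2 (abs_nonneg _) hm0) h3 (abs_nonneg _) (by positivity)
    _ = (m : ℝ) ^ 3 := by ring

/-- One term. -/
theorem wr2_term {p h : ℝ} {π D m a b c : ℕ} {f : Fin 3 → ℕ → ℝ} (hπ : p ^ 3 = π) (h1 : 1 ≤ π)
    (hh : 0 ≤ h) (hπh : 3 * (π : ℝ) ≤ h ^ 6) (hf : ∀ i N, Z3 p (h ^ (2200 * D + 3 * N)) (f i N))
    (habc : a + (b + c) = m) :
    Z3 p ((m : ℝ) ^ 3 * h ^ (6600 * D + 3 * m + 12))
      (f 0 a * f 1 b * f 2 c * (((b : ℝ) - a) * ((c : ℝ) - a) * ((c : ℝ) - b))) := by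
  have e1 := Z3_mul hπ h1 (pow_nonneg hh _) (pow_nonneg hh _) (hf 0 a) (hf 1 b)
  have hπ0 : (0 : ℝ) ≤ π := Nat.cast_nonneg π
  have e2 := Z3_mul hπ h1 (by positivity) (pow_nonneg hh _) e1 (hf 2 c)
  have e3 := Z3_int (N := (m : ℝ) ^ 3 * h ^ (6600 * D + 3 * m + 12))
    (((b : ℤ) - a) * ((c : ℤ) - a) * ((c : ℤ) - b)) e2 (by
      push_cast
      have e4 := wr2_vdm m a b c habc
      apply mul_le_mul e4 _ (by positivity) (by positivity)
      have e5 : 3 * (π : ℝ) * (3 * π * h ^ (2200 * D + 3 * a) * h ^ (2200 * D + 3 * b)) *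
          h ^ (2200 * D + 3 * c) = (3 * (π : ℝ)) * (3 * π) * h ^ (6600 * D + 3 * m) := by
        have e6 : 6600 * D + 3 * m = (2200 * D + 3 * a) + (2200 * D + 3 * b) + (2200 * D + 3 * c) := by
          rw [← habc]
          ring
        rw [e6, pow_add, pow_add]
        ring
      rw [e5]
      calc (3 * (π : ℝ)) * (3 * π) * h ^ (6600 * D + 3 * m)
          ≤ h ^ 6 * h ^ 6 * h ^ (6600 * D + 3 * m) := by
            apply mul_le_mul_of_nonneg_right _ (pow_nonneg hh _)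
            exact mul_le_mul hπh hπh (by positivity) (pow_nonneg hh _)
        _ = h ^ (6600 * D + 3 * m + 12) := by
            rw [pow_add _ (6600 * D + 3 * m) 12]
            ring)
  have e4 : ((((b : ℤ) - a) * ((c : ℤ) - a) * ((c : ℤ) - b) : ℤ) : ℝ) * (f 0 a * f 1 b * f 2 c) =
      f 0 a * f 1 b * f 2 c * (((b : ℝ) - a) * ((c : ℝ) - a) * ((c : ℝ) - b)) := by
    push_cast
    ring
  rw [e4] at e3
  exact e3

/-- Row WR2. `≤ (m+1)²` terms; product of three: `(3π)² h^(6600D+3m)`, `3π ≤ 3H⁶`, `(3H⁶)² ≤ h^12`; the Vandermonde factor is an integer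
`≤ m³`; `(m+1)^5 ≤ 32^m ≤ h^(2m)`, `h = 10H ≥ 20`. -/
theorem wr_Z3 {H D α β : ℕ} {p q : ℝ} (h : Cl α β p q) (hH : 2 ≤ H) (hD : 1 ≤ D) (hab : α * β ≤ H ^ 3)
    (f : Fin 3 → ℕ → ℝ) (hf : ∀ i N, Z3 p ((10 * (H : ℝ)) ^ (2200 * D + 3 * N)) (f i N)) (m : ℕ) :
    Z3 p ((10 * (H : ℝ)) ^ (6630 * D + 5 * m)) (Wc f m) := by
  obtain ⟨-, hp3, -, hpH⟩ := cl_p h
  obtain ⟨hπ6, -, -⟩ := hpH H hab
  have hα : 1 ≤ α := h.1
  have hβ : 1 ≤ β := h.2.1
  have hπ1 : 1 ≤ α * β ^ 2 := Nat.mul_pos hα (pow_pos hβ 2)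
  have hHr : (2 : ℝ) ≤ H := by exact_mod_cast hH
  set y : ℝ := 10 * (H : ℝ) with hy
  have hy20 : 20 ≤ y := by rw [hy]; linarith
  have hy0 : 0 ≤ y := by linarith
  have hy1 : 1 ≤ y := by linarith
  have hπh : 3 * ((α * β ^ 2 : ℕ) : ℝ) ≤ y ^ 6 := by
    have h1 : ((α * β ^ 2 : ℕ) : ℝ) ≤ (H : ℝ) ^ 6 := by exact_mod_cast hπ6
    have h2 : (0 : ℝ) ≤ (H : ℝ) ^ 6 := by positivity
    rw [hy, mul_pow]
    nlinarith
  set T : ℝ := (m : ℝ) ^ 3 * y ^ (6600 * D + 3 * m + 12) with hT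
  have hT0 : 0 ≤ T := by positivity
  have inner : ∀ x ∈ Finset.HasAntidiagonal.antidiagonal m,
      Z3 p ((m + 1 : ℝ) * T) (∑ z ∈ Finset.HasAntidiagonal.antidiagonal x.2,
        f 0 x.1 * f 1 z.1 * f 2 z.2 *
          (((z.1 : ℝ) - x.1) * ((z.2 : ℝ) - x.1) * ((z.2 : ℝ) - z.1))) := by
    intro x hx
    rw [Finset.HasAntidiagonal.mem_antidiagonal] at hx
    have e1 := Z3_sum (Finset.HasAntidiagonal.antidiagonal x.2) (fun _ => T)
      (fun z : ℕ × ℕ => f 0 x.1 * f 1 z.1 * f 2 z.2 *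
          (((z.1 : ℝ) - x.1) * ((z.2 : ℝ) - x.1) * ((z.2 : ℝ) - z.1))) (p := p) (by
      intro z hz
      rw [Finset.HasAntidiagonal.mem_antidiagonal] at hz
      exact wr2_term hp3 hπ1 hy0 hπh hf (by rw [hz, hx]))
    refine wr2_mono e1 ?_
    rw [Finset.sum_const, Finset.Nat.card_antidiagonal, nsmul_eq_mul]
    apply mul_le_mul_of_nonneg_right _ hT0
    have : x.2 ≤ m := by omega
    push_cast
    have h3 : (x.2 : ℝ) ≤ m := by exact_mod_cast this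
    linarith
  have outer := Z3_sum (Finset.HasAntidiagonal.antidiagonal m) (fun _ => (m + 1 : ℝ) * T) _ inner
  unfold Wc
  refine wr2_mono outer ?_
  rw [Finset.sum_const, Finset.Nat.card_antidiagonal, nsmul_eq_mul, hT]
  push_cast
  have hm0 : (0 : ℝ) ≤ m := Nat.cast_nonneg m
  have e1 : ((m : ℝ) + 1) ≤ 2 ^ m := by
    have : m + 1 ≤ 2 ^ m := Nat.lt_two_pow_self
    exact_mod_cast this
  have e2 : ((m : ℝ) + 1) ^ 5 ≤ y ^ (2 * m) := by
    calc ((m : ℝ) + 1) ^ 5 ≤ (2 ^ m) ^ 5 := pow_le_pow_left₀ (by positivity) e1 5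
      _ = (2 ^ 5) ^ m := by rw [← pow_mul, ← pow_mul, mul_comm]
      _ ≤ (y ^ 2) ^ m := by
          apply pow_le_pow_left₀ (by norm_num)
          nlinarith
      _ = y ^ (2 * m) := by rw [← pow_mul]
  calc ((m : ℝ) + 1) * (((m : ℝ) + 1) * ((m : ℝ) ^ 3 * y ^ (6600 * D + 3 * m + 12)))
      ≤ ((m : ℝ) + 1) * (((m : ℝ) + 1) * (((m : ℝ) + 1) ^ 3 * y ^ (6600 * D + 3 * m + 12))) := by
        apply mul_le_mul_of_nonneg_left _ (by positivity)
        apply mul_le_mul_of_nonneg_left _ (by positivity)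
        apply mul_le_mul_of_nonneg_right _ (pow_nonneg hy0 _)
        exact pow_le_pow_left₀ hm0 (by linarith) 3
    _ = ((m : ℝ) + 1) ^ 5 * y ^ (6600 * D + 3 * m + 12) := by ring
    _ ≤ y ^ (2 * m) * y ^ (6600 * D + 3 * m + 12) :=
        mul_le_mul_of_nonneg_right e2 (pow_nonneg hy0 _)
    _ = y ^ (2 * m + (6600 * D + 3 * m + 12)) := by rw [← pow_add]
    _ ≤ y ^ (6630 * D + 5 * m) := by
        apply pow_le_pow_right₀ hy1
        omega

end U44
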