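import Pool.Agent.LibU44.AB
import Pool.Agent.LibT44.W4

namespace U44
open T44

/-- the members of `Fam X` with an integral point which is not of order three -/
def ww_Exc (X : ℕ) : Set (ℤ × ℤ) :=
  {z | z ∈ Fam X ∧ ∃ x y : ℤ, y ^ 2 = x ^ 3 + z.1 * x + z.2 ∧
    3 * x ^ 4 + 6 * z.1 * x ^ 2 + 12 * z.2 * x - z.1 ^ 2 ≠ 0}

/-- The upper bound, as `T44.exc_large`. -/
theorem ww_upper : ∃ C : ℝ, 0 < C ∧ ∀ X : ℕ, 1 ≤ X →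
    ((ww_Exc X).ncard : ℝ) ≤ C * (X : ℝ) ^ (37 / 20 : ℝ) := by
  obtain ⟨C, hC, hcount⟩ := ab_all
  refine ⟨C * 8 ^ (37 / 10 : ℝ), by positivity, ?_⟩
  intro X hX1
  have hX1' : (1:ℝ) ≤ X := by exact_mod_cast hX1
  have hs1 : 1 ≤ √(X : ℝ) := Real.one_le_sqrt.2 hX1'
  have hs2 : √(X : ℝ) ^ 2 = X := Real.sq_sqrt (by linarith)
  obtain ⟨H, hH⟩ : ∃ H, H = ⌈7 * √(X : ℝ)⌉₊ := ⟨_, rfl⟩
  have hH1 : 7 * √(X : ℝ) ≤ H := hH ▸ Nat.le_ceil _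
  have hH2 : (H : ℝ) ≤ 8 * √(X : ℝ) := by
    have := (Nat.ceil_lt_add_one (by positivity : 0 ≤ 7 * √(X : ℝ))).le
    rw [← hH] at this
    linarith
  have hH3 : 1 ≤ H := by
    have : (1:ℝ) ≤ H := by linarith
    exact_mod_cast this
  have hH4 : 49 * X ≤ H ^ 2 := by
    have : (49:ℝ) * X ≤ (H : ℝ) ^ 2 := by nlinarith
    exact_mod_cast this
  have hfin : (ww_Exc X).Finite := (fam_finite X).subset (fun z hz => hz.1)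
  have hkey : ∀ z ∈ ww_Exc X, ∃ t s : ℤ, z.1 = 27 * t ^ 4 + 6 * t * s ∧ z.2 = s ^ 2 - 27 * t ^ 6 ∧
      |6 * t| ≤ (H : ℤ) ∧ |2 * (s + 9 * t ^ 3)| ≤ (H : ℤ) ^ 3 ∧ 2 * (s + 9 * t ^ 3) ≠ 0 ∧
      (6 * t) ^ 3 ≠ 27 * (2 * (s + 9 * t ^ 3)) ∧
      ∃ x y : ℤ, x ≠ 0 ∧ y * (y + 6 * t * x + 2 * (s + 9 * t ^ 3)) = x ^ 3 := by
    rintro ⟨A, B⟩ ⟨⟨hA, hB, hD, x₀, y₀, h1, h2⟩, x, y, h3, h4⟩
    simp only at hA hB hD h1 h2 h3 h4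
    obtain ⟨t, s, -, -, eA, eB⟩ := param3 A B x₀ y₀ h1 h2 hD
    subst eA eB
    obtain ⟨d1, d2⟩ := disc3 t s hD
    obtain ⟨z1, z2, z3⟩ := size3 X H hX1 hH4 t s hA hB
    refine ⟨t, s, rfl, rfl, z1, z2, d1, d2, x - 3 * t ^ 2, _, ?_, point3 t s x y h3⟩
    intro h0
    have hx : x = 3 * t ^ 2 := by linarith
    rw [hx] at h4
    exact h4 (div3 t s)
  choose! t s hz1 hz2 hz3 hz4 hz5 hz6 hz7 using hkey
  obtain ⟨φ, hφ⟩ : ∃ φ : ℤ × ℤ → ℤ × ℤ, φ = fun z => (6 * t z, 2 * (s z + 9 * t z ^ 3)) := ⟨_, rfl⟩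
  have hinj : Set.InjOn φ (hfin.toFinset : Set (ℤ × ℤ)) := by
    intro z hz z' hz' e
    have hz := hfin.mem_toFinset.1 (Finset.mem_coe.1 hz)
    have hz' := hfin.mem_toFinset.1 (Finset.mem_coe.1 hz')
    simp only [hφ, Prod.mk.injEq] at e
    have e1 : t z = t z' := by linarith [e.1]
    have e2 : s z = s z' := by
      have := e.2
      rw [e1] at this
      linarith
    refine Prod.ext ?_ ?_
    · rw [hz1 z hz, hz1 z' hz', e1, e2]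
    · rw [hz2 z hz, hz2 z' hz', e1, e2]
  have h1 := hcount H hH3 (hfin.toFinset.image φ) (by
    intro w hw
    obtain ⟨z, hz, rfl⟩ := Finset.mem_image.1 hw
    have hz := hfin.mem_toFinset.1 hz
    rw [hφ]
    exact ⟨hz3 z hz, hz4 z hz, hz5 z hz, hz6 z hz, hz7 z hz⟩)
  rw [Finset.card_image_of_injOn hinj, ← Set.ncard_eq_toFinset_card _ hfin] at h1
  have h2 : (H : ℝ) ^ (37 / 10 : ℝ) ≤ 8 ^ (37 / 10 : ℝ) * (X : ℝ) ^ (37 / 20 : ℝ) := by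
    have h3 : (H : ℝ) ^ (37 / 10 : ℝ) ≤ (8 * √(X : ℝ)) ^ (37 / 10 : ℝ) :=
      Real.rpow_le_rpow (by positivity) hH2 (by norm_num)
    rw [Real.mul_rpow (by norm_num) (Real.sqrt_nonneg _), Real.sqrt_eq_rpow,
      ← Real.rpow_mul (by linarith)] at h3
    norm_num at h3 ⊢
    exact h3
  calc ((ww_Exc X).ncard : ℝ) ≤ C * (H : ℝ) ^ (37 / 10 : ℝ) := h1
    _ ≤ C * (8 ^ (37 / 10 : ℝ) * (X : ℝ) ^ (37 / 20 : ℝ)) := mul_le_mul_of_nonneg_left h2 hC.le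
    _ = C * 8 ^ (37 / 10 : ℝ) * (X : ℝ) ^ (37 / 20 : ℝ) := by ring

/-- Row WW. As `T44.theorem_T` (file LibT44/W4.lean, copy its proof), with `ab_all` instead of `ab_count`; no range. -/
theorem theorem_U : ∃ c C : ℝ, 0 < c ∧ 0 < C ∧ ∀ X : ℕ, 1 ≤ X →
    (Fam X).Finite ∧ c * (X : ℝ) ^ 2 ≤ ((Fam X).ncard : ℝ) ∧
    (({z | z ∈ Fam X ∧ ∃ x y : ℤ, y ^ 2 = x ^ 3 + z.1 * x + z.2 ∧
        3 * x ^ 4 + 6 * z.1 * x ^ 2 + 12 * z.2 * x - z.1 ^ 2 ≠ 0} : Set (ℤ × ℤ)).ncard : ℝ)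
      ≤ C * (X : ℝ) ^ (37 / 20 : ℝ) := by
  obtain ⟨c, hc, hlow⟩ := fam_lower
  obtain ⟨C, hC, hup⟩ := ww_upper
  exact ⟨c, C, hc, hC, fun X hX => ⟨fam_finite X, hlow X hX, hup X hX⟩⟩

end U44
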