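import Pool.Agent.LibU44.ZA1

namespace U44

/-- Row ZA2 (maximum principle). Let `g(ω) = ∑_{m ≥ m₀} w_m ω^(m-m₀)` on `‖ω‖ < 1/b`; `ω^m₀ g = (ω-ω₁)^n K`. The function
`G = g/(ω-ω₁)^n` (`= K/ω^m₀` near `ω₁ ≠ 0`) is differentiable on the ball; on `‖ω‖ = 1/(2b)`: `|g| ≤ 2M b^m₀`, `|ω-ω₁| ≥ 1/(4b)`; so
`|w_m₀|/ω₁^n = |G(0)| ≤ 2M b^m₀ (4b)^n`. -/
theorem zero_bound (w : ℕ → ℝ) (M b : ℝ) (hM : 0 ≤ M) (hb : 1 ≤ b) (hw : ∀ m, |w m| ≤ M * b ^ m) (m₀ : ℕ)
    (h0 : ∀ m < m₀, w m = 0) (ω₁ : ℝ) (hω₁ : 0 < ω₁) (h1 : 4 * b * ω₁ ≤ 1) (n : ℕ) (K : ℂ → ℂ)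
    (hK : DifferentiableOn ℂ K (Metric.ball 0 (1 / b)))
    (h : ∀ ω ∈ Metric.ball (0 : ℂ) (1 / b), ∑' m : ℕ, ((w m : ℝ) : ℂ) * ω ^ m = (ω - ω₁) ^ n * K ω) :
    |w m₀| ≤ 2 * M * b ^ m₀ * (4 * b * ω₁) ^ n := by
  have hb0 : 0 < b := by linarith
  obtain ⟨g, hg⟩ : ∃ g : ℂ → ℂ, ∀ ω, g ω = ∑' m : ℕ, ((w (m + m₀) : ℝ) : ℂ) * ω ^ m :=
    ⟨_, fun _ => rfl⟩
  have hterm : ∀ (m : ℕ) (ω : ℂ) (q : ℝ), b * ‖ω‖ ≤ q →
      ‖((w (m + m₀) : ℝ) : ℂ) * ω ^ m‖ ≤ M * b ^ m₀ * q ^ m := by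
    intro m ω q hq
    rw [norm_mul, Complex.norm_real, Real.norm_eq_abs, norm_pow]
    calc |w (m + m₀)| * ‖ω‖ ^ m ≤ M * b ^ (m + m₀) * ‖ω‖ ^ m :=
          mul_le_mul_of_nonneg_right (hw _) (by positivity)
      _ = M * b ^ m₀ * (b * ‖ω‖) ^ m := by rw [pow_add, mul_pow]; ring
      _ ≤ M * b ^ m₀ * q ^ m :=
          mul_le_mul_of_nonneg_left (pow_le_pow_left₀ (by positivity) hq m) (by positivity)
  have hgs : ∀ q : ℝ, 0 ≤ q → q < 1 → Summable fun m : ℕ => M * b ^ m₀ * q ^ m := fun q hq0 hq1 =>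
    (summable_geometric_of_lt_one hq0 hq1).mul_left _
  -- differentiability of g
  have hgd : DifferentiableOn ℂ g (Metric.ball 0 (3 / (4 * b))) := by
    have h2 : g = fun ω => ∑' m : ℕ, ((w (m + m₀) : ℝ) : ℂ) * ω ^ m := funext hg
    rw [h2]
    refine Complex.differentiableOn_tsum_of_summable_norm (hgs (3 / 4) (by norm_num) (by norm_num))
      (fun m => ?_) Metric.isOpen_ball fun m ω hω => ?_
    · exact ((differentiable_id.pow m).const_mul _).differentiableOn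
    · refine hterm m ω (3 / 4) ?_
      rw [Metric.mem_ball, dist_zero_right] at hω
      have h3 : b * ‖ω‖ ≤ b * (3 / (4 * b)) := mul_le_mul_of_nonneg_left hω.le hb0.le
      have h4 : b * (3 / (4 * b)) = 3 / 4 := by field_simp
      linarith
  -- the series
  have hfg : ∀ ω ∈ Metric.ball (0 : ℂ) (1 / b), ω ^ m₀ * g ω = (ω - ω₁) ^ n * K ω := by
    intro ω hω
    rw [← h ω hω]
    have hω' : ‖ω‖ < 1 / b := by
      rwa [Metric.mem_ball, dist_zero_right] at hω
    have hq : b * ‖ω‖ < 1 := by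
      rw [lt_div_iff₀ hb0] at hω'
      linarith
    have hs : Summable fun m : ℕ => ((w m : ℝ) : ℂ) * ω ^ m := by
      refine Summable.of_norm_bounded (g := fun m : ℕ => M * (b * ‖ω‖) ^ m)
        ((summable_geometric_of_lt_one (by positivity) hq).mul_left _) fun m => ?_
      rw [norm_mul, Complex.norm_real, Real.norm_eq_abs, norm_pow]
      calc |w m| * ‖ω‖ ^ m ≤ M * b ^ m * ‖ω‖ ^ m :=
            mul_le_mul_of_nonneg_right (hw _) (by positivity)
        _ = M * (b * ‖ω‖) ^ m := by rw [mul_pow]; ring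
    rw [← hs.sum_add_tsum_nat_add m₀]
    have h2 : ∑ m ∈ Finset.range m₀, ((w m : ℝ) : ℂ) * ω ^ m = 0 := by
      refine Finset.sum_eq_zero fun m hm => ?_
      rw [h0 m (Finset.mem_range.1 hm)]
      simp
    rw [h2, zero_add, hg, ← tsum_mul_left]
    refine tsum_congr fun m => ?_
    rw [pow_add]
    ring
  -- the quotient
  have hω₁c : (ω₁ : ℂ) ≠ 0 := by exact_mod_cast hω₁.ne'
  obtain ⟨G, hG⟩ : ∃ G : ℂ → ℂ, ∀ ω, G ω = if ω = ω₁ then K ω₁ / (ω₁ : ℂ) ^ m₀ else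
      g ω / (ω - ω₁) ^ n := ⟨_, fun _ => rfl⟩
  have hsub : 3 / (4 * b) ≤ 1 / b := by
    rw [div_le_div_iff₀ (by positivity) hb0]
    linarith
  have hω₁b : ω₁ < 3 / (4 * b) := by
    rw [lt_div_iff₀ (by positivity)]
    linarith
  have hGd : DifferentiableOn ℂ G (Metric.ball 0 (3 / (4 * b))) := by
    intro ω hω
    refine DifferentiableAt.differentiableWithinAt ?_
    have hωb : ω ∈ Metric.ball (0 : ℂ) (1 / b) := Metric.ball_subset_ball hsub hω
    by_cases hne : ω = ω₁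
    · have hKd : DifferentiableAt ℂ K ω := (hK ω hωb).differentiableAt
        (Metric.isOpen_ball.mem_nhds hωb)
      have hω0 : ω ≠ 0 := by rw [hne]; exact hω₁c
      have h2 : DifferentiableAt ℂ (fun z => K z / z ^ m₀) ω :=
        hKd.div (differentiableAt_id.pow m₀) (pow_ne_zero _ hω0)
      refine h2.congr_of_eventuallyEq ?_
      filter_upwards [Metric.isOpen_ball.mem_nhds hωb, isOpen_ne.mem_nhds hω0] with z hzb hz0
      rw [hG]
      by_cases hz1 : z = ω₁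
      · rw [if_pos hz1, hz1]
      · rw [if_neg hz1, div_eq_div_iff (pow_ne_zero _ (sub_ne_zero.2 hz1)) (pow_ne_zero _ hz0)]
        have h4 := hfg z hzb
        linear_combination h4
    · have hgd' : DifferentiableAt ℂ g ω := (hgd ω hω).differentiableAt
        (Metric.isOpen_ball.mem_nhds hω)
      have h2 : DifferentiableAt ℂ (fun z => g z / (z - ω₁) ^ n) ω :=
        hgd'.div ((differentiableAt_id.sub_const _).pow n) (pow_ne_zero _ (sub_ne_zero.2 hne))
      refine h2.congr_of_eventuallyEq ?_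
      filter_upwards [isOpen_ne.mem_nhds hne] with z hz
      rw [hG, if_neg hz]
  -- the maximum principle
  have hr0 : 0 < 1 / (2 * b) := by positivity
  have hrr : 1 / (2 * b) < 3 / (4 * b) := by
    rw [div_lt_div_iff₀ (by positivity) (by positivity)]
    linarith
  have hmax : ‖G 0‖ ≤ 2 * M * b ^ m₀ * (4 * b) ^ n := by
    refine Complex.norm_le_of_forall_mem_frontier_norm_le (U := Metric.ball 0 (1 / (2 * b)))
      Metric.isBounded_ball ?_ (fun z hz => ?_) (subset_closure (Metric.mem_ball_self hr0))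
    · refine DifferentiableOn.diffContOnCl ?_
      rw [closure_ball _ hr0.ne']
      exact hGd.mono (Metric.closedBall_subset_ball hrr)
    · rw [frontier_ball _ hr0.ne', mem_sphere_iff_norm, sub_zero] at hz
      have hzne : z ≠ ω₁ := by
        rintro rfl
        rw [Complex.norm_real, Real.norm_eq_abs, abs_of_pos hω₁] at hz
        rw [hz] at h1
        have : 4 * b * (1 / (2 * b)) = 2 := by field_simp; norm_num
        linarith
      rw [hG, if_neg hzne, norm_div, norm_pow]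
      have hgb : ‖g z‖ ≤ 2 * M * b ^ m₀ := by
        rw [hg]
        have hq : b * ‖z‖ ≤ 1 / 2 := by
          rw [hz]
          have : b * (1 / (2 * b)) = 1 / 2 := by field_simp
          linarith
        have h2 := tsum_of_norm_bounded (f := fun m : ℕ => ((w (m + m₀) : ℝ) : ℂ) * z ^ m)
          ((hasSum_geometric_of_lt_one (r := (1 / 2 : ℝ)) (by norm_num) (by norm_num)).mul_left
            (M * b ^ m₀)) fun m => hterm m z (1 / 2) hq
        refine h2.trans (le_of_eq ?_)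
        norm_num
        ring
      have hd : 1 / (4 * b) ≤ ‖z - ω₁‖ := by
        have h2 : ‖z‖ - ‖(ω₁ : ℂ)‖ ≤ ‖z - ω₁‖ := norm_sub_norm_le _ _
        rw [hz, Complex.norm_real, Real.norm_eq_abs, abs_of_pos hω₁] at h2
        have h3 : ω₁ ≤ 1 / (4 * b) := by
          rw [le_div_iff₀ (by positivity)]
          linarith
        have h4 : 1 / (2 * b) = 1 / (4 * b) + 1 / (4 * b) := by
          field_simp
          norm_num
        linarith
      have hd0 : 0 < 1 / (4 * b) := by positivity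
      have hd1 : (1 / (4 * b)) ^ n ≤ ‖z - ω₁‖ ^ n := pow_le_pow_left₀ hd0.le hd n
      have hd2 : 0 < (1 / (4 * b)) ^ n := by positivity
      calc ‖g z‖ / ‖z - ω₁‖ ^ n ≤ (2 * M * b ^ m₀) / (1 / (4 * b)) ^ n :=
            div_le_div₀ (by positivity) hgb hd2 hd1
        _ = 2 * M * b ^ m₀ * (4 * b) ^ n := by
            rw [one_div, inv_pow, div_inv_eq_mul]
  have hne0 : (0 : ℂ) ≠ ω₁ := hω₁c.symm
  rw [hG, if_neg hne0, zero_sub, norm_div, norm_pow, norm_neg, Complex.norm_real,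
    Real.norm_eq_abs, abs_of_pos hω₁, div_le_iff₀ (by positivity)] at hmax
  have hg0 : g 0 = ((w m₀ : ℝ) : ℂ) := by
    rw [hg, tsum_eq_single 0]
    · simp
    · intro m hm
      rw [zero_pow hm, mul_zero]
  rw [hg0, Complex.norm_real, Real.norm_eq_abs] at hmax
  refine hmax.trans (le_of_eq ?_)
  rw [mul_pow (4 * b)]
  ring

end U44
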