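import Pool.Agent.LibU44.SEL
import Pool.Agent.LibU44.WR1
import Pool.Agent.LibU44.WR2
import Pool.Agent.LibU44.Z2
import Pool.Agent.LibU44.WF3
import Pool.Agent.LibU44.ZA2

namespace U44
open T44

private theorem ze_single {p M : ℝ} (hM : 1 ≤ M) (a N : ℕ) : Z3 p M ((Pi.single a (1 : ℝ) : ℕ → ℝ) N) := by
  have h0 : |((0 : ℤ) : ℝ)| ≤ M := by
    rw [Int.cast_zero, abs_zero]
    linarith
  by_cases hN : N = a
  · subst hN
    rw [Pi.single_eq_same]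
    refine ⟨1, 0, 0, ?_, h0, h0, ?_⟩
    · rw [Int.cast_one, abs_one]
      exact hM
    · push_cast
      ring
  · rw [Pi.single_eq_of_ne hN]
    refine ⟨0, 0, 0, h0, h0, h0, ?_⟩
    push_cast
    ring

private theorem ze_comb (f : Fin 3 → ℕ → ℝ) (g : Fin 3 → ℝ) (M b : ℝ) (hb : 1 ≤ b) (hf : ∀ i n, |f i n| ≤ M * b ^ n)
    (ω : ℂ) (hω : ‖ω‖ * b < 1) :
    ∑ i, (g i : ℂ) * Ff (f i) 0 ω = ∑' n : ℕ, ((∑ i, g i * f i n : ℝ) : ℂ) * ω ^ n := by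
  have hs : ∀ i, Summable (fun n : ℕ => ((n : ℂ) ^ 0 * ((f i n : ℝ) : ℂ)) * ω ^ n) := fun i =>
    ((Ff_diff (f i) M b hb (hf i) 0).1 ω hω).of_norm
  have h1 : ∀ i, (g i : ℂ) * Ff (f i) 0 ω = ∑' n : ℕ, (g i : ℂ) * (((n : ℂ) ^ 0 * ((f i n : ℝ) : ℂ)) * ω ^ n) := by
    intro i
    unfold Ff
    rw [tsum_mul_left]
  rw [Finset.sum_congr rfl fun i _ => h1 i,
    ← Summable.tsum_finsetSum fun i _ => (hs i).mul_left (g i : ℂ)]
  refine tsum_congr fun n => ?_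
  push_cast
  rw [Finset.sum_mul]
  refine Finset.sum_congr rfl fun i _ => ?_
  ring

private theorem ze_end {x W₁ ω₁ Wm p : ℝ} {D m n : ℕ} (hx : 20 ≤ x) (hp : 6 * p ^ 4 ≤ x ^ 8) (hD : 50 ≤ D)
    (hm : m ≤ 3 * (60 * D + 6 + 2)) (hn : D ≤ 8 * n) (hW : x ^ 200000 ≤ W₁) (hω : ω₁ = 1 / (9 * W₁))
    (h1 : 1 ≤ |Wm| * (6 * (x ^ (6630 * D + 5 * m)) ^ 2 * p ^ 4))
    (h2 : |Wm| ≤ 2 * x ^ (6635 * D) * (x ^ 5) ^ m * (4 * x ^ 5 * ω₁) ^ n) : False := by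
  have hx0 : (0 : ℝ) < x := by linarith
  have hx1 : (1 : ℝ) ≤ x := by linarith
  have hW0 : 0 < W₁ := lt_of_lt_of_le (by positivity) hW
  have hω0 : 0 < ω₁ := by
    rw [hω]
    positivity
  set t : ℝ := 4 * x ^ 5 * ω₁ with ht
  have ht0 : 0 < t := by positivity
  have ht1 : t * x ^ 199995 ≤ 1 := by
    have e : t * x ^ 199995 = 4 * x ^ 200000 / (9 * W₁) := by
      rw [ht, hω]
      rw [show (200000 : ℕ) = 5 + 199995 by norm_num, pow_add]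
      ring
    rw [e, div_le_one (by positivity)]
    linarith
  have h3 : 6 * (x ^ (6630 * D + 5 * m)) ^ 2 * p ^ 4 ≤ x ^ (13260 * D + 10 * m + 8) := by
    calc 6 * (x ^ (6630 * D + 5 * m)) ^ 2 * p ^ 4 = (x ^ (6630 * D + 5 * m)) ^ 2 * (6 * p ^ 4) := by ring
      _ ≤ (x ^ (6630 * D + 5 * m)) ^ 2 * x ^ 8 := mul_le_mul_of_nonneg_left hp (by positivity)
      _ = x ^ (13260 * D + 10 * m + 8) := by
        rw [← pow_mul, ← pow_add]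
        congr 1
        ring
  have h4 : 1 ≤ x ^ (22604 * D) * t ^ n := by
    calc 1 ≤ |Wm| * (6 * (x ^ (6630 * D + 5 * m)) ^ 2 * p ^ 4) := h1
      _ ≤ (2 * x ^ (6635 * D) * (x ^ 5) ^ m * t ^ n) * x ^ (13260 * D + 10 * m + 8) :=
        mul_le_mul h2 h3 (by positivity) (by positivity)
      _ ≤ (x * x ^ (6635 * D) * (x ^ 5) ^ m * t ^ n) * x ^ (13260 * D + 10 * m + 8) := by
        refine mul_le_mul_of_nonneg_right (mul_le_mul_of_nonneg_right (mul_le_mul_of_nonneg_right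
          (mul_le_mul_of_nonneg_right ?_ ?_) ?_) ?_) ?_
        · linarith
        · positivity
        · positivity
        · positivity
        · positivity
      _ = x ^ (19895 * D + 15 * m + 9) * t ^ n := by
        rw [← pow_mul]
        rw [show 19895 * D + 15 * m + 9 = 1 + (6635 * D) + (5 * m) + (13260 * D + 10 * m + 8) by ring]
        rw [pow_add x (1 + (6635 * D) + (5 * m)), pow_add x (1 + (6635 * D)), pow_add x 1]
        ring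
      _ ≤ x ^ (22604 * D) * t ^ n := by
        refine mul_le_mul_of_nonneg_right (pow_le_pow_right₀ hx1 ?_) (by positivity)
        omega
  have h5 : x ^ (199995 * n) ≤ x ^ (22604 * D) := by
    calc x ^ (199995 * n) = 1 * (x ^ 199995) ^ n := by rw [pow_mul, one_mul]
      _ ≤ (x ^ (22604 * D) * t ^ n) * (x ^ 199995) ^ n := mul_le_mul_of_nonneg_right h4 (by positivity)
      _ = x ^ (22604 * D) * (t * x ^ 199995) ^ n := by rw [mul_pow]; ring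
      _ ≤ x ^ (22604 * D) * 1 :=
        mul_le_mul_of_nonneg_left (pow_le_one₀ (by positivity) ht1) (by positivity)
      _ = x ^ (22604 * D) := mul_one _
  have h6 : 199995 * n ≤ 22604 * D := (pow_le_pow_iff_right₀ (by linarith : (1 : ℝ) < x)).1 h5
  omega

/-- Row ZE (the zero estimate). `h = 10H ≥ 20`. `select` with `L = 60D+6` gives `f, g`; all `f i` satisfy the bound `Z3 p h^(2200D+3N)`
(the unit sequences trivially), so `|f i n| ≤ 3p²h^(2200D+3n) ≤ h^(2205D) (h³)^n` (`Z3_abs`, `p ≤ H²`). `∑ g_i Ff (f i) 0 = ∑ w_i Ff (y i) 0` on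
the ball (linearity of convergent sums). `wf_div` with `b = h³`, `R = h^-5`: `Wf f = (ω-ω₁)^(N-2) K`; `wf_hasSum`: `Wf f = ∑ Wc f m ω^m`.
`wr_order` (`L+2 = 60D+8`): some `Wc f m ≠ 0` with `m ≤ 180D+24`; let `m₀` be the first. `wr_Z3` and `liouville`:
`|Wc f m₀| ≥ 1/(6 h^(2(6630D+5m₀)) p⁴) ≥ h^(-15067D)` (`5m₀ ≤ 903D`, `D ≥ 50`). `|Wc f m| ≤ 3p² h^(6630D+5m) ≤ h^(6635D)(h⁵)^m`. `zero_bound` with
`b = h⁵`, `M = h^(6635D)`, `ω₁ = 1/(9W₁)`, `n = N-2`: `h^(-15067D) ≤ 2 h^(6635D) h^(903D) (4h⁵/(9W₁))^(N-2)`, so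
`(h^199995)^(N-2) ≤ (W₁/h⁵)^(N-2) ≤ h^(22606D)`; eighth powers and `8(N-2) ≥ D`: `199995 D ≤ 180848 D`, contradiction. -/
theorem zero_estimate {H D α β : ℕ} {p q : ℝ} (h : Cl α β p q) (hH : 2 ≤ H) (hD : 50 ≤ D) (hab : α * β ≤ H ^ 3)
    (y : Fin 3 → ℕ → ℝ) (hy : ∀ i N, Z3 p ((10 * (H : ℝ)) ^ (2200 * D + 3 * N)) (y i N))
    (ho : ∀ g : Fin 3 → ℝ, (∃ N, ∑ i, g i * y i N ≠ 0) → ∃ N ≤ 60 * D + 6, ∑ i, g i * y i N ≠ 0)
    (w : Fin 3 → ℝ) (hw : ∃ N, ∑ i, w i * y i N ≠ 0) (W₁ : ℝ) (hW : (10 * (H : ℝ)) ^ 200000 ≤ W₁) (N : ℕ)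
    (hN : D + 16 ≤ 8 * N) (k : ℂ → ℂ)
    (hk : DifferentiableOn ℂ k (Metric.ball 0 (1 / (10 * (H : ℝ)) ^ 5)))
    (hh : ∀ ω ∈ Metric.ball (0 : ℂ) (1 / (10 * (H : ℝ)) ^ 5),
      ∑ i, (w i : ℂ) * Ff (y i) 0 ω = (ω - ((1 / (9 * W₁) : ℝ) : ℂ)) ^ N * k ω) : False := by
  have hx20 : (20 : ℝ) ≤ 10 * (H : ℝ) := by
    have : (2 : ℝ) ≤ H := by exact_mod_cast hH
    linarith
  obtain ⟨hp1, hp3, hq, hpH⟩ := cl_p h
  obtain ⟨-, hp2, -⟩ := hpH H hab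
  have hp2' : p ^ 2 ≤ (H : ℝ) ^ 4 := by
    calc p ^ 2 ≤ ((H : ℝ) ^ 2) ^ 2 := pow_le_pow_left₀ (by linarith) hp2 2
      _ = (H : ℝ) ^ 4 := by ring
  have hH0 : (0 : ℝ) ≤ H := by positivity
  have h3p : 3 * p ^ 2 ≤ (10 * (H : ℝ)) ^ 4 := by
    have : (10 * (H : ℝ)) ^ 4 = 10000 * (H : ℝ) ^ 4 := by ring
    rw [this]
    have : (0 : ℝ) ≤ (H : ℝ) ^ 4 := by positivity
    linarith
  have h6p : 6 * p ^ 4 ≤ (10 * (H : ℝ)) ^ 8 := by
    have e1 : p ^ 4 ≤ (H : ℝ) ^ 8 := by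
      calc p ^ 4 = (p ^ 2) ^ 2 := by ring
        _ ≤ ((H : ℝ) ^ 4) ^ 2 := pow_le_pow_left₀ (by positivity) hp2' 2
        _ = (H : ℝ) ^ 8 := by ring
    have : (10 * (H : ℝ)) ^ 8 = 100000000 * (H : ℝ) ^ 8 := by ring
    rw [this]
    have : (0 : ℝ) ≤ (H : ℝ) ^ 8 := by positivity
    linarith
  have hwr := fun (f : Fin 3 → ℕ → ℝ)
    (hf : ∀ i N, Z3 p ((10 * (H : ℝ)) ^ (2200 * D + 3 * N)) (f i N)) (m : ℕ) =>
    wr_Z3 h hH (by omega) hab f hf m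
  obtain ⟨x, hx⟩ : ∃ x : ℝ, x = 10 * (H : ℝ) := ⟨_, rfl⟩
  rw [← hx] at hx20 h3p h6p hk hh hW hy hwr
  clear hp2 hp2' hH0
  have hx0 : (0 : ℝ) < x := by linarith
  have hx1 : (1 : ℝ) ≤ x := by linarith
  obtain ⟨f, g, hg, hf, hsum, hord⟩ := select y (60 * D + 6) ho w hw
  have hfZ : ∀ i N, Z3 p (x ^ (2200 * D + 3 * N)) (f i N) := by
    intro i N
    rcases hf i with ⟨j, hj⟩ | hj | hj
    · rw [hj]
      exact hy j N
    · rw [hj]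
      exact ze_single (one_le_pow₀ hx1) _ _
    · rw [hj]
      exact ze_single (one_le_pow₀ hx1) _ _
  have hfb : ∀ v : ℝ, ∀ n, Z3 p (x ^ (2200 * D + 3 * n)) v → |v| ≤ x ^ (2205 * D) * (x ^ 3) ^ n := by
    intro v n hv
    calc |v| ≤ 3 * x ^ (2200 * D + 3 * n) * p ^ 2 := Z3_abs hp1 hv
      _ = x ^ (2200 * D + 3 * n) * (3 * p ^ 2) := by ring
      _ ≤ x ^ (2200 * D + 3 * n) * x ^ 4 := mul_le_mul_of_nonneg_left h3p (by positivity)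
      _ = x ^ (2200 * D + 4) * (x ^ 3) ^ n := by
        rw [← pow_mul, ← pow_add, ← pow_add]
        congr 1
        ring
      _ ≤ x ^ (2205 * D) * (x ^ 3) ^ n :=
        mul_le_mul_of_nonneg_right (pow_le_pow_right₀ hx1 (by omega)) (by positivity)
  have hb3 : (1 : ℝ) ≤ x ^ 3 := one_le_pow₀ hx1
  have hball : ∀ ω ∈ Metric.ball (0 : ℂ) (1 / x ^ 5), ‖ω‖ * x ^ 3 < 1 := by
    intro ω hω
    rw [Metric.mem_ball, dist_zero_right] at hω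
    have h1 : 1 / x ^ 5 ≤ 1 / x ^ 3 :=
      one_div_le_one_div_of_le (by positivity) (pow_le_pow_right₀ hx1 (by norm_num))
    have h2 : ‖ω‖ < 1 / x ^ 3 := lt_of_lt_of_le hω h1
    rwa [lt_div_iff₀ (by positivity)] at h2
  have hcomb : ∀ ω ∈ Metric.ball (0 : ℂ) (1 / x ^ 5),
      ∑ i, (g i : ℂ) * Ff (f i) 0 ω = (ω - ((1 / (9 * W₁) : ℝ) : ℂ)) ^ N * k ω := by
    intro ω hω
    rw [← hh ω hω, ze_comb f g (x ^ (2205 * D)) (x ^ 3) hb3 (fun i n => hfb _ n (hfZ i n)) ω (hball ω hω),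
      ze_comb y w (x ^ (2205 * D)) (x ^ 3) hb3 (fun i n => hfb _ n (hy i n)) ω (hball ω hω)]
    refine tsum_congr fun n => ?_
    rw [hsum n]
  obtain ⟨K, hK, hWf⟩ := wf_div f (x ^ (2205 * D)) (x ^ 3) hb3 (fun i n => hfb _ n (hfZ i n)) (1 / x ^ 5)
    (by positivity) (by
      rw [div_mul_eq_mul_div, one_mul, div_le_one (by positivity)]
      exact pow_le_pow_right₀ hx1 (by norm_num)) ((1 / (9 * W₁) : ℝ) : ℂ) g hg N (by omega) k hk hcomb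
  have hex : ∃ m, Wc f m ≠ 0 := by
    obtain ⟨m, -, hm⟩ := wr_order f (60 * D + 6 + 2) hord
    exact ⟨m, hm⟩
  classical
  obtain ⟨m₀, hm₀⟩ : ∃ m₀, m₀ = Nat.find hex := ⟨_, rfl⟩
  have hm1 : Wc f m₀ ≠ 0 := by
    rw [hm₀]
    exact Nat.find_spec hex
  have hm2 : ∀ m < m₀, Wc f m = 0 := by
    intro m hm
    rw [hm₀] at hm
    exact not_not.1 (Nat.find_min hex hm)
  have hm3 : m₀ ≤ 3 * (60 * D + 6 + 2) := by
    obtain ⟨m, hm, hm'⟩ := wr_order f (60 * D + 6 + 2) hord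
    rw [hm₀]
    exact (Nat.find_min' hex hm').trans hm
  have hZ : ∀ m, Z3 p (x ^ (6630 * D + 5 * m)) (Wc f m) := hwr f hfZ
  have hWb : ∀ m, |Wc f m| ≤ x ^ (6635 * D) * (x ^ 5) ^ m := by
    intro m
    calc |Wc f m| ≤ 3 * x ^ (6630 * D + 5 * m) * p ^ 2 := Z3_abs hp1 (hZ m)
      _ = x ^ (6630 * D + 5 * m) * (3 * p ^ 2) := by ring
      _ ≤ x ^ (6630 * D + 5 * m) * x ^ 4 := mul_le_mul_of_nonneg_left h3p (by positivity)
      _ = x ^ (6630 * D + 4) * (x ^ 5) ^ m := by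
        rw [← pow_mul, ← pow_add, ← pow_add]
        congr 1
        ring
      _ ≤ x ^ (6635 * D) * (x ^ 5) ^ m :=
        mul_le_mul_of_nonneg_right (pow_le_pow_right₀ hx1 (by omega)) (by positivity)
  have hW0 : 0 < W₁ := lt_of_lt_of_le (by positivity) hW
  have hzb := zero_bound (Wc f) (x ^ (6635 * D)) (x ^ 5) (by positivity) (one_le_pow₀ hx1) hWb m₀ hm2
    (1 / (9 * W₁)) (by positivity) (by
      rw [mul_one_div, div_le_one (by positivity)]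
      have h1 : x ^ 5 ≤ x ^ 200000 := pow_le_pow_right₀ hx1 (by norm_num)
      linarith) (N - 2) K hK (by
      intro ω hω
      rw [(wf_hasSum f (x ^ (2205 * D)) (x ^ 3) hb3 (fun i n => hfb _ n (hfZ i n)) ω (hball ω hω)).tsum_eq]
      exact hWf ω hω)
  exact ze_end hx20 h6p hD hm3 (by omega) hW rfl (liouville h (hZ m₀) hm1) hzb

end U44
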